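import Mathlib

set_option autoImplicit false
set_option linter.unusedSectionVars false
set_option linter.style.haveILetI false

universe u

/-!
Locally ad-nilpotent elements: generalized eigenspaces, finiteness of the set of eigenvalues on
noetherian modules, and the Ore condition.
-/

namespace Pool.Agent.Work.MP_883c56_al

section

variable {R : Type u} [Ring R]

/-- `ad(x)^n g = 0`. -/
def AdNil (x : R) : ℕ → R → Prop
  | 0, g => g = 0
  | n + 1, g => AdNil x n (x * g - g * x)

lemma AdNil.neg {x : R} {n : ℕ} {g : R} (h : AdNil x n g) : AdNil x n (-g) := by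
  induction n generalizing g with
  | zero =>
    have h1 : g = 0 := h
    show -g = 0
    rw [h1, neg_zero]
  | succ n ih =>
    have h1 : AdNil x n (x * g - g * x) := h
    show AdNil x n (x * (-g) - (-g) * x)
    have h2 : x * (-g) - (-g) * x = -(x * g - g * x) := by noncomm_ring
    rw [h2]
    exact ih h1

lemma AdNil.op {x : R} {n : ℕ} {g : R} (h : AdNil x n g) :
    AdNil (MulOpposite.op x) n (MulOpposite.op g) := by
  induction n generalizing g with
  | zero =>
    have h1 : g = 0 := h
    show MulOpposite.op g = 0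
    rw [h1, MulOpposite.op_zero]
  | succ n ih =>
    have h1 : AdNil x n (x * g - g * x) := h
    show AdNil (MulOpposite.op x) n _
    have h2 : MulOpposite.op x * MulOpposite.op g - MulOpposite.op g * MulOpposite.op x =
        MulOpposite.op (-(x * g - g * x)) := by
      rw [← MulOpposite.op_mul, ← MulOpposite.op_mul, ← MulOpposite.op_sub]
      congr 1
      noncomm_ring
    rw [h2]
    exact ih h1.neg

lemma AdNil.sub_central {x z : R} (hz : ∀ g, z * g = g * z) {n : ℕ} {g : R} (h : AdNil x n g) :
    AdNil (x - z) n g := by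
  induction n generalizing g with
  | zero => exact h
  | succ n ih =>
    have h1 : AdNil x n (x * g - g * x) := h
    show AdNil (x - z) n _
    have h2 : (x - z) * g - g * (x - z) = x * g - g * x := by
      rw [sub_mul, mul_sub, hz g]
      abel
    rw [h2]
    exact ih h1

/-- The strong Ore property of `g` with respect to the powers of `u`. -/
def OreProp (u g : R) : Prop := ∀ N : ℕ, ∃ K : ℕ, ∃ s', g * u ^ K = u ^ N * s'

lemma OreProp.mono {u g : R} (h : OreProp u g) (N : ℕ) :
    ∃ K : ℕ, ∀ K' ≥ K, ∃ s', g * u ^ K' = u ^ N * s' := by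
  obtain ⟨K, s', hs⟩ := h N
  refine ⟨K, fun K' hK' => ?_⟩
  obtain ⟨d, rfl⟩ := Nat.exists_eq_add_of_le hK'
  exact ⟨s' * u ^ d, by rw [pow_add, ← mul_assoc, hs, mul_assoc]⟩

lemma OreProp.add {u g g' : R} (h : OreProp u g) (h' : OreProp u g') : OreProp u (g + g') := by
  intro N
  obtain ⟨K, hK⟩ := h.mono N
  obtain ⟨K', hK'⟩ := h'.mono N
  obtain ⟨s, hs⟩ := hK (max K K') (le_max_left _ _)
  obtain ⟨s', hs'⟩ := hK' (max K K') (le_max_right _ _)
  exact ⟨max K K', s + s', by rw [add_mul, hs, hs', mul_add]⟩

lemma OreProp.mul {u g g' : R} (h : OreProp u g) (h' : OreProp u g') : OreProp u (g * g') := by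
  intro N
  obtain ⟨K, s, hs⟩ := h N
  obtain ⟨K', s', hs'⟩ := h' K
  exact ⟨K', s * s', by rw [mul_assoc, hs', ← mul_assoc, hs, mul_assoc]⟩

lemma oreProp_of_comm {u g : R} (h : g * u = u * g) : OreProp u g := by
  intro N
  refine ⟨N, g, ?_⟩
  exact (Commute.pow_right (show Commute g u from h) N)

lemma AdNil.oreProp {u : R} {n : ℕ} {g : R} (h : AdNil u n g) : OreProp u g := by
  induction n generalizing g with
  | zero =>
    have h1 : g = 0 := h
    rw [h1]
    exact oreProp_of_comm (by rw [zero_mul, mul_zero])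
  | succ n ih =>
    have h1 : OreProp u (u * g - g * u) := ih h
    intro N
    induction N with
    | zero => exact ⟨0, g, by simp⟩
    | succ N ihN =>
      obtain ⟨K, s, hs⟩ := ihN
      obtain ⟨K', hK'⟩ := h1.mono (N + 1)
      obtain ⟨s', hs'⟩ := hK' (K + K') (Nat.le_add_left _ _)
      refine ⟨K + K' + 1, s * u ^ K' - s', ?_⟩
      have h2 : g * u ^ (K + K' + 1) =
          u * (g * u ^ K) * u ^ K' - (u * g - g * u) * u ^ (K + K') := by
        rw [pow_succ' u (K + K'), pow_add]
        noncomm_ring
      rw [h2, hs, hs', pow_succ' u N]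
      noncomm_ring

end

section

variable {k : Type u} [Field k] {R : Type u} [Ring R] [Algebra k R]

lemma oreProp_of_adjoin {G : Set R} (hG : Algebra.adjoin k G = ⊤) {x : R}
    (hx : ∀ g ∈ G, ∃ n, AdNil x n g) (α : k) (s : R) : OreProp (x - algebraMap k R α) s := by
  have hs : s ∈ Algebra.adjoin k G := by rw [hG]; trivial
  have hc : ∀ g, algebraMap k R α * g = g * algebraMap k R α := fun g => Algebra.commutes α g
  induction hs using Algebra.adjoin_induction with
  | mem g hg =>
    obtain ⟨n, hn⟩ := hx g hg
    exact (hn.sub_central hc).oreProp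
  | algebraMap c => exact oreProp_of_comm (Algebra.commutes c _)
  | add a b _ _ ha hb => exact ha.add hb
  | mul a b _ _ ha hb => exact ha.mul hb

/-- Generalized eigenvectors form a submodule. -/
lemma genEig_smul {G : Set R} (hG : Algebra.adjoin k G = ⊤) {x : R}
    (hx : ∀ g ∈ G, ∃ n, AdNil x n g) {W : Type u} [AddCommGroup W] [Module R W] (α : k) (s : R)
    (w : W) (hw : ∃ n : ℕ, (x - algebraMap k R α) ^ n • w = 0) :
    ∃ n : ℕ, (x - algebraMap k R α) ^ n • (s • w) = 0 := by
  obtain ⟨n, hn⟩ := hw
  have h := oreProp_of_adjoin hG hx α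
  -- use the opposite Ore property
  have hop : ∀ s : R, ∀ N : ℕ, ∃ K : ℕ, ∃ s', (x - algebraMap k R α) ^ K * s =
      s' * (x - algebraMap k R α) ^ N := by
    intro s N
    have h1 : Algebra.adjoin k (MulOpposite.unop ⁻¹' G) = (⊤ : Subalgebra k Rᵐᵒᵖ) := by
      rw [← Subalgebra.op_adjoin, hG]
      exact Subalgebra.op_top
    obtain ⟨K, s', hs'⟩ := oreProp_of_adjoin (R := Rᵐᵒᵖ) h1 (x := MulOpposite.op x) (by
      intro g hg
      obtain ⟨n, hn⟩ := hx _ hg
      exact ⟨n, hn.op⟩) α (MulOpposite.op s) N
    refine ⟨K, MulOpposite.unop s', ?_⟩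
    have h2 := congrArg MulOpposite.unop hs'
    simpa using h2
  obtain ⟨K, s', hs'⟩ := hop s n
  exact ⟨K, by rw [← mul_smul, hs', mul_smul, hn, smul_zero]⟩

/-- On a noetherian module, a locally ad-nilpotent element has only finitely many eigenvalues. -/
theorem finite_eigenvalues {G : Set R} (hG : Algebra.adjoin k G = ⊤) {x : R}
    (hx : ∀ g ∈ G, ∃ n, AdNil x n g) (W : Type u) [AddCommGroup W] [Module R W]
    [IsNoetherian R W] :
    {α : k | ∃ w : W, w ≠ 0 ∧ (x - algebraMap k R α) • w = 0}.Finite := by
  letI : Module k W := Module.compHom W (algebraMap k R)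
  haveI : IsScalarTower k R W := ⟨fun c s a => by
    show (c • s) • a = algebraMap k R c • (s • a)
    rw [Algebra.smul_def, mul_smul]⟩
  let f : Module.End k W := Module.toModuleEnd k W x
  have hf : ∀ w, f w = x • w := fun w => rfl
  have hfα : ∀ (α : k) (w : W), (f - α • (1 : Module.End k W)) w = (x - algebraMap k R α) • w := by
    intro α w
    rw [LinearMap.sub_apply, hf, LinearMap.smul_apply, Module.End.one_apply, sub_smul,
      algebraMap_smul]
  have hfn : ∀ (α : k) (n : ℕ) (w : W), ((f - α • (1 : Module.End k W)) ^ n) w =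
      (x - algebraMap k R α) ^ n • w := by
    intro α n
    induction n with
    | zero => intro w; simp
    | succ n ih =>
      intro w
      rw [pow_succ, Module.End.mul_apply, hfα, ih, pow_succ, mul_smul]
  let V : k → Submodule R W := fun α =>
    { carrier := {w | ∃ n : ℕ, (x - algebraMap k R α) ^ n • w = 0}
      add_mem' := by
        rintro a b ⟨n, hn⟩ ⟨m, hm⟩
        refine ⟨n + m, ?_⟩
        rw [smul_add, pow_add, mul_smul, mul_smul, hm, smul_zero, add_zero, ← mul_smul, ← pow_add,
          add_comm n m, pow_add, mul_smul, hn, smul_zero]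
      zero_mem' := ⟨0, by simp⟩
      smul_mem' := fun s w hw => genEig_smul hG hx α s w hw }
  have hV : ∀ α, (V α).restrictScalars k = f.maxGenEigenspace α := by
    intro α
    ext w
    rw [Submodule.restrictScalars_mem, Module.End.mem_maxGenEigenspace]
    simp only [hfn]
    rfl
  have hind : iSupIndep V := by
    intro α
    have h := (Module.End.independent_maxGenEigenspace f) α
    rw [disjoint_iff] at h ⊢
    apply Submodule.restrictScalars_injective k
    rw [Submodule.restrictScalars_bot, Submodule.restrictScalars_inf]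
    simp only [Submodule.restrictScalars_iSup, hV]
    exact h
  haveI : WellFoundedGT (Submodule R W) := isNoetherian_iff'.mp inferInstance
  refine (WellFoundedGT.finite_ne_bot_of_iSupIndep hind).subset ?_
  rintro α ⟨w, hw0, hw⟩
  show V α ≠ ⊥
  intro h
  apply hw0
  have h1 : w ∈ V α := ⟨1, by rw [pow_one]; exact hw⟩
  rw [h, Submodule.mem_bot] at h1
  exact h1

end

end Pool.Agent.Work.MP_883c56_al
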