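import Pool.Agent.Work.MP_883c56_al.Trivial

set_option autoImplicit false
set_option linter.unusedSectionVars false
set_option linter.style.haveILetI false

universe u

namespace Pool.Agent.Work.MP_883c56_al

open Finset

/-- A pp formula in `n` free variables. -/
structure PP (S : Type u) (n : ℕ) where
  V : ℕ
  J : ℕ
  A : Fin J → Fin n → S
  B : Fin J → Fin V → S

variable {S : Type u} [Ring S] {n : ℕ}

def PP.Holds (φ : PP S n) (M : Type u) [AddCommGroup M] [Module S M] (x : Fin n → M) : Prop :=
  ∃ y : Fin φ.V → M, ∀ j, ∑ i, φ.A j i • x i + ∑ v, φ.B j v • y v = 0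

lemma exists_PP {V J : Type*} [Fintype V] [Fintype J] (A : J → Fin n → S) (B : J → V → S) :
    ∃ φ : PP S n, ∀ (M : Type u) [AddCommGroup M] [Module S M] (x : Fin n → M),
      φ.Holds M x ↔ ∃ y : V → M, ∀ j, ∑ i, A j i • x i + ∑ v, B j v • y v = 0 := by
  classical
  let e := Fintype.equivFin V
  let f := Fintype.equivFin J
  refine ⟨⟨Fintype.card V, Fintype.card J, fun j => A (f.symm j),
    fun j v => B (f.symm j) (e.symm v)⟩, ?_⟩
  intro M _ _ x
  constructor
  · rintro ⟨y, hy⟩
    refine ⟨fun v => y (e v), fun j => ?_⟩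
    have h := hy (f j)
    simp only [Equiv.symm_apply_apply] at h
    rw [← h]
    congr 1
    exact Fintype.sum_equiv e _ _ (fun v => by simp)
  · rintro ⟨y, hy⟩
    refine ⟨fun v => y (e.symm v), fun j => ?_⟩
    have h := hy (f.symm j)
    rw [← h]
    congr 1
    exact Fintype.sum_equiv e.symm _ _ (fun v => rfl)

lemma PP.Holds.map {φ : PP S n} {M N : Type u} [AddCommGroup M] [Module S M] [AddCommGroup N]
    [Module S N] (f : M →ₗ[S] N) {x : Fin n → M} (h : φ.Holds M x) :
    φ.Holds N (fun i => f (x i)) := by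
  obtain ⟨y, hy⟩ := h
  refine ⟨fun v => f (y v), fun j => ?_⟩
  have := congrArg f (hy j)
  simpa [map_add, map_sum, map_smul] using this

lemma PP.Holds.add {φ : PP S n} {M : Type u} [AddCommGroup M] [Module S M]
    {x x' : Fin n → M} (h : φ.Holds M x) (h' : φ.Holds M x') : φ.Holds M (x + x') := by
  obtain ⟨y, hy⟩ := h
  obtain ⟨y', hy'⟩ := h'
  refine ⟨y + y', fun j => ?_⟩
  have h3 : ∑ i, φ.A j i • (x + x') i + ∑ v, φ.B j v • (y + y') v =
      (∑ i, φ.A j i • x i + ∑ v, φ.B j v • y v) +
      (∑ i, φ.A j i • x' i + ∑ v, φ.B j v • y' v) := by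
    simp only [Pi.add_apply, smul_add, Finset.sum_add_distrib]
    abel
  rw [h3, hy, hy', add_zero]

lemma PP.holds_zero (φ : PP S n) (M : Type u) [AddCommGroup M] [Module S M] :
    φ.Holds M 0 := ⟨0, fun j => by simp⟩

lemma isPure_solve' {A B : Type u} [AddCommGroup A] [Module S A] [AddCommGroup B]
    [Module S B] {f : A →ₗ[S] B} (hf : IsPure f) {ι κ : Type*} [Fintype ι] [Fintype κ]
    (c : κ → A) (b : ι → κ → S)
    (h : ∃ y : ι → B, ∀ j, ∑ i, b i j • y i = f (c j)) :
    ∃ y : ι → A, ∀ j, ∑ i, b i j • y i = c j := by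
  classical
  let e := Fintype.equivFin ι
  let g := Fintype.equivFin κ
  obtain ⟨y, hy⟩ := h
  obtain ⟨z, hz⟩ := hf.2 (Fintype.card ι) (Fintype.card κ) (fun j => c (g.symm j))
    (fun i j => b (e.symm i) (g.symm j)) ⟨fun i => y (e.symm i), fun j => by
      rw [← hy (g.symm j)]
      exact Fintype.sum_equiv e.symm _ _ (fun i => rfl)⟩
  refine ⟨fun i => z (e i), fun j => ?_⟩
  have h := hz (g j)
  simp only [Equiv.symm_apply_apply] at h
  rw [← h]
  exact Fintype.sum_equiv e _ _ (fun i => by simp)

lemma IsPure.holds {φ : PP S n} {A B : Type u} [AddCommGroup A] [Module S A] [AddCommGroup B]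
    [Module S B] {f : A →ₗ[S] B} (hf : IsPure f) {x : Fin n → A}
    (h : φ.Holds B (fun i => f (x i))) : φ.Holds A x := by
  obtain ⟨y, hy⟩ := h
  obtain ⟨z, hz⟩ := isPure_solve' hf (fun j => - ∑ i, φ.A j i • x i) (fun v j => φ.B j v)
    ⟨y, fun j => by
      rw [map_neg, map_sum]
      simp only [map_smul]
      rw [eq_neg_iff_add_eq_zero, add_comm]
      exact hy j⟩
  refine ⟨z, fun j => ?_⟩
  rw [hz j, add_neg_cancel]

/-- If `f` reflects pp formulas, it is pure. -/
lemma isPure_of_reflects {A B : Type u} [AddCommGroup A] [Module S A] [AddCommGroup B]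
    [Module S B] (f : A →ₗ[S] B)
    (h : ∀ (n : ℕ) (φ : PP S n) (x : Fin n → A), φ.Holds B (fun i => f (x i)) → φ.Holds A x) :
    IsPure f := by
  classical
  have key : ∀ (n l : ℕ) (c : Fin l → A) (b : Fin n → Fin l → S),
    (∃ y : Fin n → B, ∀ j, ∑ i, b i j • y i = f (c j)) →
      ∃ y : Fin n → A, ∀ j, ∑ i, b i j • y i = c j := by
    intro n l c b hy
    obtain ⟨y, hy⟩ := hy
    let φ : PP S l := ⟨n, l, fun j i => if i = j then -1 else 0, fun j v => b v j⟩
    have h1 : φ.Holds B (fun i => f (c i)) := by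
      refine ⟨y, fun j => ?_⟩
      rw [Finset.sum_eq_single j]
      · show (if j = j then (-1 : S) else 0) • f (c j) + ∑ v, b v j • y v = 0
        rw [hy j]; simp
      · intro i _ hi
        show (if i = j then (-1 : S) else 0) • f (c i) = 0
        simp [hi]
      · simp
    obtain ⟨z, hz⟩ := h l φ c h1
    refine ⟨z, fun j => ?_⟩
    have h2 := hz j
    rw [Finset.sum_eq_single j] at h2
    · have h3 : (if j = j then (-1 : S) else 0) • c j + ∑ v, b v j • z v = 0 := h2
      simp only [if_true, neg_smul, one_smul] at h3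
      rw [neg_add_eq_zero] at h3
      exact h3.symm
    · intro i _ hi
      show (if i = j then (-1 : S) else 0) • c i = 0
      simp [hi]
    · simp
  refine ⟨?_, key⟩
  rw [injective_iff_map_eq_zero]
  intro a ha
  obtain ⟨y, hy⟩ := key 0 1 (fun _ => a) (fun i => i.elim0) ⟨fun i => i.elim0, fun j => by simp [ha]⟩
  simpa using (hy 0).symm

/-- Algebraically compact modules. -/
def AlgCompact (S N : Type u) [Ring S] [AddCommGroup N] [Module S N] : Prop :=
  ∀ (V J : Type u) (b : J → V →₀ S) (c : J → N),
    (∀ s : Finset J, ∃ y : V → N, ∀ j ∈ s, (b j).sum (fun v r => r • y v) = c j) →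
      ∃ y : V → N, ∀ j, (b j).sum (fun v r => r • y v) = c j

theorem algCompact_of_compact {E : Type u} [AddCommGroup E] [Module S E] [TopologicalSpace E]
    [CompactSpace E] [T2Space E] [ContinuousAdd E] (hs : ∀ s : S, Continuous (fun x : E => s • x)) :
    AlgCompact S E := by
  intro V J b c h
  let F : J → Set (V → E) := fun j => {y | (b j).sum (fun v r => r • y v) = c j}
  have hclosed : ∀ j, IsClosed (F j) := by
    intro j
    refine isClosed_eq ?_ continuous_const
    exact continuous_finsetSum _ (fun v _ => (hs _).comp (continuous_apply v))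
  have h2 := isCompact_univ.inter_iInter_nonempty F hclosed (fun s => by
    obtain ⟨y, hy⟩ := h s
    exact ⟨y, Set.mem_univ _, Set.mem_iInter₂.mpr (fun j hj => hy j hj)⟩)
  obtain ⟨y, _, hy⟩ := h2
  exact ⟨y, fun j => Set.mem_iInter.mp hy j⟩

lemma AlgCompact.of_retract {N N' : Type u} [AddCommGroup N] [Module S N] [AddCommGroup N']
    [Module S N'] (hN : AlgCompact S N) (i : N' →ₗ[S] N) (p : N →ₗ[S] N')
    (h : ∀ x, p (i x) = x) : AlgCompact S N' := by
  intro V J b c hc
  obtain ⟨y, hy⟩ := hN V J b (fun j => i (c j)) (fun s => by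
    obtain ⟨y, hy⟩ := hc s
    refine ⟨fun v => i (y v), fun j hj => ?_⟩
    rw [← hy j hj, map_finsuppSum]
    simp)
  refine ⟨fun v => p (y v), fun j => ?_⟩
  have := congrArg p (hy j)
  rw [map_finsuppSum, h] at this
  simpa using this

/-- Extension of partial homomorphisms into algebraically compact modules. -/
theorem AlgCompact.exists_hom' {N : Type u} [AddCommGroup N] [Module S N] (hN : AlgCompact S N)
    {M : Type u} [AddCommGroup M] [Module S M] {K : Type u} (x : K → M) (y : K → N)
    (h : ∀ (n : ℕ) (t : Fin n → K) (φ : PP S n), φ.Holds M (fun i => x (t i)) →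
      φ.Holds N (fun i => y (t i))) :
    ∃ f : M →ₗ[S] N, ∀ k, f (x k) = y k := by
  classical
  let b : (M × M) ⊕ (S × M) ⊕ K → M →₀ S :=
    Sum.elim (fun p => Finsupp.single p.1 1 + Finsupp.single p.2 1 - Finsupp.single (p.1 + p.2) 1)
      (Sum.elim (fun p => Finsupp.single p.2 p.1 - Finsupp.single (p.1 • p.2) 1)
        (fun k => Finsupp.single (x k) 1))
  let c : ∀ (L : Type u) [Zero L], (K → L) → (M × M) ⊕ (S × M) ⊕ K → L := fun L _ y =>
    Sum.elim (fun _ => 0) (Sum.elim (fun _ => 0) y)
  have hsum : ∀ {L : Type u} [AddCommGroup L] [Module S L] (z : M → L) (b : M →₀ S),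
      b.sum (fun v r => r • z v) = Finsupp.linearCombination S z b := fun z b => rfl
  obtain ⟨f, hf⟩ := hN M _ b (c N y) (fun s => by
    -- the finitely many variables and indices
    let T : Finset M := s.biUnion (fun j => (b j).support)
    let Ks : Finset K := s.biUnion (fun j => Sum.elim (fun _ => ∅) (Sum.elim (fun _ => ∅)
      (fun k => {k})) j)
    let e := Ks.equivFin
    let t : Fin Ks.card → K := fun i => (e.symm i).1
    have ht : ∀ k ∈ Ks, ∃ i, t i = k := fun k hk => ⟨e ⟨k, hk⟩, by simp [t]⟩
    have htinj : Function.Injective t := by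
      intro i i' hii
      exact e.symm.injective (Subtype.ext hii)
    let A : (M × M) ⊕ (S × M) ⊕ K → Fin Ks.card → S :=
      Sum.elim (fun _ _ => 0) (Sum.elim (fun _ _ => 0) (fun k i => if t i = k then -1 else 0))
    have hA : ∀ (L : Type u) [AddCommGroup L] [Module S L] (z : K → L), ∀ j ∈ s,
        ∑ i, A j i • z (t i) = - c L z j := by
      intro L _ _ z j hj
      rcases j with p | p | k
      · simp [A, c]
      · simp [A, c]
      · have hk : k ∈ Ks := by
          rw [Finset.mem_biUnion]
          exact ⟨_, hj, by simp⟩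
        obtain ⟨i, hi⟩ := ht k hk
        simp only [A, c, Sum.elim_inr]
        rw [Finset.sum_eq_single i]
        · simp [hi]
        · intro i' _ hi'
          have : t i' ≠ k := fun h => hi' (htinj (h.trans hi.symm))
          simp [this]
        · simp
    obtain ⟨φ, hφ⟩ := exists_PP (S := S) (n := Ks.card) (V := T) (J := s)
      (fun j i => A j.1 i) (fun j v => b j.1 v.1)
    have hb : ∀ (L : Type u) [AddCommGroup L] [Module S L] (z : M → L), ∀ j ∈ s,
        (b j).sum (fun v r => r • z v) = ∑ v : T, (b j) v.1 • z v.1 := by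
      intro L _ _ z j hj
      rw [Finsupp.sum_of_support_subset (b j) (s := T)]
      · rw [← Finset.sum_coe_sort]
      · exact Finset.subset_biUnion_of_mem (fun j => (b j).support) hj
      · simp
    have hM : φ.Holds M (fun i => x (t i)) := by
      rw [hφ]
      refine ⟨fun v => v.1, fun j => ?_⟩
      rw [hA M x j.1 j.2, ← hb M (fun v => v) j.1 j.2, neg_add_eq_zero]
      obtain ⟨j, hj⟩ := j
      rcases j with p | p | k
      · simp only [b, c, Sum.elim_inl]
        rw [hsum]
        simp
      · simp only [b, c, Sum.elim_inr, Sum.elim_inl]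
        rw [hsum]
        simp
      · simp only [b, c, Sum.elim_inr]
        rw [hsum]
        simp
    have hN := h _ t φ hM
    rw [hφ] at hN
    obtain ⟨z, hz⟩ := hN
    refine ⟨fun m => if hm : m ∈ T then z ⟨m, hm⟩ else 0, fun j hj => ?_⟩
    rw [hb N _ j hj]
    have h1 := hz ⟨j, hj⟩
    rw [hA N y j hj, neg_add_eq_zero] at h1
    rw [h1]
    refine Finset.sum_congr rfl fun v _ => ?_
    simp)
  have hadd : ∀ m m', f (m + m') = f m + f m' := by
    intro m m'
    have h1 := hf (Sum.inl (m, m'))
    simp only [b, c, Sum.elim_inl] at h1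
    rw [hsum] at h1
    simp only [map_add, map_sub, Finsupp.linearCombination_single, one_smul] at h1
    rw [sub_eq_zero] at h1
    exact h1.symm
  have hsmul : ∀ (s : S) m, f (s • m) = s • f m := by
    intro s m
    have h1 := hf (Sum.inr (Sum.inl (s, m)))
    simp only [b, c, Sum.elim_inl, Sum.elim_inr] at h1
    rw [hsum] at h1
    simp only [map_sub, Finsupp.linearCombination_single, one_smul] at h1
    rw [sub_eq_zero] at h1
    exact h1.symm
  refine ⟨{ toFun := f, map_add' := hadd, map_smul' := hsmul }, fun k => ?_⟩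
  have h1 := hf (Sum.inr (Sum.inr k))
  simp only [b, c, Sum.elim_inr] at h1
  rw [hsum] at h1
  simpa using h1

theorem AlgCompact.exists_hom {N : Type u} [AddCommGroup N] [Module S N] (hN : AlgCompact S N)
    {M : Type u} [AddCommGroup M] [Module S M] (x : Fin n → M) (y : Fin n → N)
    (h : ∀ (φ : PP S n), φ.Holds M x → φ.Holds N y) :
    ∃ f : M →ₗ[S] N, ∀ k, f (x k) = y k := by
  classical
  obtain ⟨f, hf⟩ := hN.exists_hom' (K := ULift.{u} (Fin n)) (fun k => x k.down)
    (fun k => y k.down) (by
      intro m t φ hφ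
      -- pull back the formula along t
      obtain ⟨ψ, hψ⟩ := exists_PP (S := S) (n := n) (V := Fin φ.V) (J := Fin φ.J)
        (fun j k => ∑ i, if (t i).down = k then φ.A j i else 0) φ.B
      have key : ∀ (L : Type u) [AddCommGroup L] [Module S L] (z : Fin n → L) (j : Fin φ.J),
          ∑ k, (∑ i, if (t i).down = k then φ.A j i else 0) • z k =
            ∑ i, φ.A j i • z (t i).down := by
        intro L _ _ z j
        simp only [Finset.sum_smul]
        rw [Finset.sum_comm]
        refine Finset.sum_congr rfl fun i _ => ?_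
        rw [Finset.sum_eq_single (t i).down]
        · simp
        · intro k _ hk
          simp [Ne.symm hk]
        · simp
      have h1 : ψ.Holds M x := by
        rw [hψ]
        obtain ⟨z, hz⟩ := hφ
        refine ⟨z, fun j => ?_⟩
        rw [key]
        exact hz j
      have h2 := h ψ h1
      rw [hψ] at h2
      obtain ⟨z, hz⟩ := h2
      refine ⟨z, fun j => ?_⟩
      have h3 := hz j
      rw [key] at h3
      exact h3)
  exact ⟨f, fun k => hf ⟨k⟩⟩

theorem AlgCompact.isPureInjective {N : Type u} [AddCommGroup N] [Module S N]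
    (hN : AlgCompact S N) : IsPureInjective S N := by
  intro A B _ _ _ _ f hf g
  obtain ⟨h, hh⟩ := hN.exists_hom' (K := A) f g (by
    intro m t φ hφ
    exact (hf.holds hφ).map g)
  exact ⟨h, LinearMap.ext hh⟩

end Pool.Agent.Work.MP_883c56_al
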