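import Mathlib

/-!
# The Ziegler spectrum of a ring, and right modules over `U(sl_2(k))`

All modules here are left modules over a ring `S`; right modules over a ring `R` are left modules
over `Rᵐᵒᵖ`.
-/

set_option autoImplicit false

universe u

namespace Pool.Agent.Work.MP_883c56_al

/-- A pp formula in one free variable `x` for modules over `S`:
`∃ y₁ … yₙ, ⋀_j (a_j x + ∑ i, b_{i j} y_i = 0)` (finitely many quantified variables and finitely
many equations). -/
structure PPFormula (S : Type u) where
  /-- the number of quantified variables -/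
  vars : ℕ
  /-- the number of equations -/
  eqs : ℕ
  /-- the coefficients of the free variable -/
  free : Fin eqs → S
  /-- the coefficients of the quantified variables -/
  bound : Fin vars → Fin eqs → S

/-- `φ.Holds M x` says that the element `x` of the module `M` lies in `φ(M)`. -/
def PPFormula.Holds {S : Type u} [Ring S] (φ : PPFormula S) (M : Type u) [AddCommGroup M]
    [Module S M] (x : M) : Prop :=
  ∃ y : Fin φ.vars → M, ∀ j, φ.free j • x + ∑ i, φ.bound i j • y i = 0

/-- `ψ ≤ φ` for pp formulas: `ψ(M) ⊆ φ(M)` for all modules `M`. -/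
def PPFormula.Le {S : Type u} [Ring S] (ψ φ : PPFormula S) : Prop :=
  ∀ (M : Type u) [AddCommGroup M] [Module S M] (x : M), ψ.Holds M x → φ.Holds M x

/-- `f` is a pure embedding: it is injective, and every finite system of linear equations with
constants in `A` that has a solution in `B` has a solution in `A`. -/
def IsPure {S A B : Type u} [Ring S] [AddCommGroup A] [Module S A] [AddCommGroup B] [Module S B]
    (f : A →ₗ[S] B) : Prop :=
  Function.Injective f ∧
  ∀ (n l : ℕ) (c : Fin l → A) (b : Fin n → Fin l → S),
    (∃ y : Fin n → B, ∀ j, ∑ i, b i j • y i = f (c j)) →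
      ∃ y : Fin n → A, ∀ j, ∑ i, b i j • y i = c j

/-- `N` is pure-injective: every homomorphism to `N` extends along every pure embedding. -/
def IsPureInjective (S N : Type u) [Ring S] [AddCommGroup N] [Module S N] : Prop :=
  ∀ (A B : Type u) [AddCommGroup A] [Module S A] [AddCommGroup B] [Module S B] (f : A →ₗ[S] B),
    IsPure f → ∀ g : A →ₗ[S] N, ∃ h : B →ₗ[S] N, h ∘ₗ f = g

/-- `M` is indecomposable: it is nonzero, and has no direct sum decomposition into two nonzero
submodules. -/
def IsIndec (S M : Type u) [Ring S] [AddCommGroup M] [Module S M] : Prop :=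
  Nontrivial M ∧ ∀ p q : Submodule S M, IsCompl p q → p = ⊥ ∨ q = ⊥

/-- `i : M → H` is a pure-injective hull of `M`: it is a pure embedding into a pure-injective
module, and it is pure-essential, i.e. whenever `f ∘ i` is a pure embedding, so is `f`. -/
def IsPureInjectiveHull {S M H : Type u} [Ring S] [AddCommGroup M] [Module S M] [AddCommGroup H]
    [Module S H] (i : M →ₗ[S] H) : Prop :=
  IsPure i ∧ IsPureInjective S H ∧
    ∀ (X : Type u) [AddCommGroup X] [Module S X] (f : H →ₗ[S] X), IsPure (f ∘ₗ i) → IsPure f

/-- An indecomposable pure-injective module over `S`. -/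
structure ZgObj (S : Type u) [Ring S] where
  /-- the underlying type -/
  carrier : Type u
  [addCommGroup : AddCommGroup carrier]
  [module : Module S carrier]
  indec : IsIndec S carrier
  pureInjective : IsPureInjective S carrier

attribute [instance] ZgObj.addCommGroup ZgObj.module

/-- Isomorphism of indecomposable pure-injective modules. -/
def zgSetoid (S : Type u) [Ring S] : Setoid (ZgObj S) where
  r M N := Nonempty (M.carrier ≃ₗ[S] N.carrier)
  iseqv :=
    { refl := fun M => ⟨LinearEquiv.refl S M.carrier⟩
      symm := fun ⟨e⟩ => ⟨e.symm⟩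
      trans := fun ⟨e⟩ ⟨f⟩ => ⟨e.trans f⟩ }

/-- The set of points of the Ziegler spectrum of `S`: isomorphism classes of indecomposable
pure-injective `S`-modules. -/
def Zg (S : Type u) [Ring S] : Type (u + 1) := Quotient (zgSetoid S)

/-- The point of the Ziegler spectrum given by an indecomposable pure-injective module. -/
def Zg.mk {S : Type u} [Ring S] (M : Type u) [AddCommGroup M] [Module S M] (h : IsIndec S M)
    (h' : IsPureInjective S M) : Zg S :=
  Quotient.mk (zgSetoid S) ⟨M, h, h'⟩

/-- The set `(φ/ψ)` of all points `N` of the Ziegler spectrum with `φ(N)` not contained in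
`ψ(N)`. -/
def Zg.basicOpen {S : Type u} [Ring S] (φ ψ : PPFormula S) : Set (Zg S) :=
  {p | ∃ N : ZgObj S, Quotient.mk (zgSetoid S) N = p ∧
    ∃ x : N.carrier, φ.Holds N.carrier x ∧ ¬ ψ.Holds N.carrier x}

/-- The Ziegler topology: it is generated by the sets `(φ/ψ)`, where `ψ ≤ φ`. -/
instance (S : Type u) [Ring S] : TopologicalSpace (Zg S) :=
  TopologicalSpace.generateFrom {O | ∃ φ ψ : PPFormula S, ψ.Le φ ∧ O = Zg.basicOpen φ ψ}

/-- The enveloping algebra `U(sl_2(k))`. -/
abbrev Usl2 (k : Type u) [Field k] : Type u :=
  UniversalEnvelopingAlgebra k (LieAlgebra.SpecialLinear.sl (Fin 2) k)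

end Pool.Agent.Work.MP_883c56_al
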