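import Pool.Agent.Work.MP_883c56_al.AlgCompact

set_option autoImplicit false
set_option linter.unusedSectionVars false
set_option linter.style.haveILetI false

universe u

namespace Pool.Agent.Work.MP_883c56_al

open Finset

/-- The circle group. -/
abbrev TT : Type := AddCircle (1 : ℝ)

lemma extend_char {A B : Type*} [AddCommGroup A] [AddCommGroup B] (p : A →+ B) (g : A →+ TT)
    (h : ∀ a, p a = 0 → g a = 0) : ∃ h : B →+ TT, ∀ a, h (p a) = g a := by
  have hle : p.ker ≤ g.ker := fun a ha => h a ha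
  obtain ⟨k, hk⟩ := (Module.Baer.of_divisible TT).extension_property_addMonoidHom
    (QuotientAddGroup.kerLift p) (QuotientAddGroup.kerLift_injective p)
    (QuotientAddGroup.lift p.ker g hle)
  refine ⟨k, fun a => ?_⟩
  have := DFunLike.congr_fun hk (QuotientAddGroup.mk a)
  exact this

/-- the inclusion of the rational circle in the real circle -/
noncomputable def circleMap : AddCircle (1 : ℚ) →+ TT :=
  QuotientAddGroup.map (AddSubgroup.zmultiples (1 : ℚ)) (AddSubgroup.zmultiples (1 : ℝ))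
    (Rat.castHom ℝ).toAddMonoidHom (by
      rintro _ ⟨m, rfl⟩
      refine ⟨m, ?_⟩
      simp)

lemma circleMap_injective : Function.Injective circleMap := by
  rw [injective_iff_map_eq_zero]
  intro a
  induction a using QuotientAddGroup.induction_on with
  | H q =>
    intro h
    have h1 : ((q : ℝ) : TT) = 0 := h
    rw [AddCircle.coe_eq_zero_iff] at h1
    obtain ⟨n, hn⟩ := h1
    have h2 : ((q : ℚ) : AddCircle (1 : ℚ)) = 0 := by
      rw [AddCircle.coe_eq_zero_iff]
      refine ⟨n, ?_⟩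
      simp only [zsmul_eq_mul, mul_one] at hn ⊢
      exact_mod_cast hn
    exact h2

lemma exists_char_ne_zero {A : Type*} [AddCommGroup A] {a : A} (ha : a ≠ 0) :
    ∃ χ : A →+ TT, χ a ≠ 0 := by
  obtain ⟨c, hc⟩ := CharacterModule.exists_character_apply_ne_zero_of_ne_zero ha
  refine ⟨circleMap.comp c, fun h => hc ?_⟩
  exact circleMap_injective (by rw [map_zero]; exact h)

section

variable {S : Type u} [Ring S] {Z : Type u} [AddCommGroup Z] [Module S Z]

/-- the right action of `S` on the group of characters of a left `S`-module -/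
noncomputable def act (s : S) : (Z →+ TT) →+ (Z →+ TT) where
  toFun χ := χ.comp (DistribSMul.toAddMonoidHom Z s)
  map_zero' := rfl
  map_add' _ _ := rfl

@[simp] lemma act_apply (s : S) (χ : Z →+ TT) (z : Z) : act s χ z = χ (s • z) := rfl

variable (S Z)

/-- The double dual of a module, with its compact topology. -/
def DD (_S Z : Type u) [Ring _S] [AddCommGroup Z] [Module _S Z] : Type u := (Z →+ TT) →+ TT

variable {S Z}

noncomputable instance : AddCommGroup (DD S Z) := inferInstanceAs (AddCommGroup ((Z →+ TT) →+ TT))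

instance : FunLike (DD S Z) (Z →+ TT) TT := inferInstanceAs (FunLike ((Z →+ TT) →+ TT) (Z →+ TT) TT)

instance : AddMonoidHomClass (DD S Z) (Z →+ TT) TT :=
  inferInstanceAs (AddMonoidHomClass ((Z →+ TT) →+ TT) (Z →+ TT) TT)

@[ext] lemma DD.ext {ε ε' : DD S Z} (h : ∀ χ, ε χ = ε' χ) : ε = ε' := DFunLike.ext _ _ h

@[simp] lemma DD.add_apply (ε ε' : DD S Z) (χ : Z →+ TT) : (ε + ε') χ = ε χ + ε' χ := rfl
@[simp] lemma DD.zero_apply (χ : Z →+ TT) : (0 : DD S Z) χ = 0 := rfl

/-- constructor for elements of the double dual -/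
def DD.mk (h : (Z →+ TT) →+ TT) : DD S Z := h

@[simp] lemma DD.mk_apply (h : (Z →+ TT) →+ TT) (χ : Z →+ TT) : (DD.mk h : DD S Z) χ = h χ := rfl

lemma DD.sum_apply {ι : Type*} (s : Finset ι) (f : ι → DD S Z) (χ : Z →+ TT) :
    (∑ i ∈ s, f i) χ = ∑ i ∈ s, f i χ := by
  classical
  induction s using Finset.induction_on with
  | empty => simp
  | insert a s ha ih => rw [Finset.sum_insert ha, Finset.sum_insert ha, DD.add_apply, ih]

noncomputable instance : SMul S (DD S Z) :=
  ⟨fun s ε => DD.mk (AddMonoidHom.comp (ε : (Z →+ TT) →+ TT) (act s))⟩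

@[simp] lemma DD.smul_apply (s : S) (ε : DD S Z) (χ : Z →+ TT) : (s • ε) χ = ε (act s χ) := rfl

noncomputable instance : Module S (DD S Z) where
  one_smul ε := by
    ext χ
    rw [DD.smul_apply]
    congr 1
    ext z
    simp
  mul_smul s t ε := by
    ext χ
    simp only [DD.smul_apply]
    congr 1
    ext z
    simp [mul_smul]
  smul_zero s := by ext χ; simp
  smul_add s ε ε' := by ext χ; simp
  add_smul s t ε := by
    ext χ
    simp only [DD.smul_apply, DD.add_apply]
    rw [← map_add]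
    congr 1
    ext z
    simp [add_smul]
  zero_smul ε := by
    ext χ
    simp only [DD.smul_apply, DD.zero_apply]
    have : act (0 : S) χ = 0 := by
      ext z
      simp
    rw [this, map_zero]

instance : TopologicalSpace (DD S Z) :=
  TopologicalSpace.induced (fun (ε : DD S Z) (χ : Z →+ TT) => ε χ) inferInstance

lemma DD.isEmbedding : Topology.IsEmbedding (fun (ε : DD S Z) (χ : Z →+ TT) => ε χ) :=
  ⟨⟨rfl⟩, fun _ _ h => DD.ext (fun χ => congrFun h χ)⟩

lemma DD.isClosedEmbedding :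
    Topology.IsClosedEmbedding (fun (ε : DD S Z) (χ : Z →+ TT) => ε χ) := by
  refine ⟨DD.isEmbedding, ?_⟩
  have h : Set.range (fun (ε : DD S Z) (χ : Z →+ TT) => ε χ) =
      ⋂ (χ : Z →+ TT) (χ' : Z →+ TT), {f | f (χ + χ') = f χ + f χ'} := by
    ext f
    simp only [Set.mem_range, Set.mem_iInter, Set.mem_ofPred_eq]
    constructor
    · rintro ⟨ε, rfl⟩ χ χ'
      exact map_add ε χ χ'
    · intro hf
      exact ⟨DD.mk (AddMonoidHom.mk' f hf), rfl⟩
  rw [h]
  refine isClosed_iInter fun χ => isClosed_iInter fun χ' => ?_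
  exact isClosed_eq (by fun_prop) (by fun_prop)

instance : CompactSpace (DD S Z) := DD.isClosedEmbedding.compactSpace

instance : T2Space (DD S Z) := DD.isEmbedding.t2Space

lemma DD.continuous_apply (χ : Z →+ TT) : Continuous (fun ε : DD S Z => ε χ) :=
  (_root_.continuous_apply χ).comp DD.isEmbedding.continuous

instance : ContinuousAdd (DD S Z) := ⟨by
  rw [DD.isEmbedding.continuous_iff]
  refine continuous_pi fun χ => ?_
  exact ((DD.continuous_apply χ).comp continuous_fst).add
    ((DD.continuous_apply χ).comp continuous_snd)⟩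

lemma DD.continuous_smul (s : S) : Continuous (fun ε : DD S Z => s • ε) := by
  rw [DD.isEmbedding.continuous_iff]
  exact continuous_pi fun χ => DD.continuous_apply (act s χ)

theorem DD.algCompact : AlgCompact S (DD S Z) := algCompact_of_compact DD.continuous_smul

/-- The embedding of a module in its double dual. -/
noncomputable def ev : Z →ₗ[S] DD S Z where
  toFun z := DD.mk (AddMonoidHom.eval z)
  map_add' z z' := by ext χ; simp
  map_smul' s z := by ext χ; simp

@[simp] lemma ev_apply (z : Z) (χ : Z →+ TT) : (ev z : DD S Z) χ = χ z := rfl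

variable {n : ℕ}

lemma holds_imp (φ : PP S n) (x : Fin n → Z) (h : φ.Holds Z x) (ζ : Fin φ.J → (Z →+ TT))
    (hζ : ∀ v, ∑ j, act (φ.B j v) (ζ j) = 0) :
    ∑ i, (∑ j, act (φ.A j i) (ζ j)) (x i) = 0 := by
  obtain ⟨y, hy⟩ := h
  have h1 : ∑ j, ζ j (∑ i, φ.A j i • x i + ∑ v, φ.B j v • y v) = 0 := by simp [hy]
  have h2 : ∑ v, (∑ j, act (φ.B j v) (ζ j)) (y v) = 0 := by simp [hζ]
  simp only [AddMonoidHom.finsetSum_apply, act_apply] at h2 ⊢
  simp only [map_add, map_sum, Finset.sum_add_distrib] at h1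
  rw [Finset.sum_comm] at h2
  rw [h2, add_zero, Finset.sum_comm] at h1
  exact h1

lemma holds_of (φ : PP S n) (x : Fin n → Z)
    (h : ∀ (ζ : Fin φ.J → (Z →+ TT)), (∀ v, ∑ j, act (φ.B j v) (ζ j) = 0) →
      ∑ i, (∑ j, act (φ.A j i) (ζ j)) (x i) = 0) : φ.Holds Z x := by
  by_contra hne
  let p : (Fin φ.V → Z) →+ (Fin φ.J → Z) :=
    AddMonoidHom.mk' (fun y j => ∑ v, φ.B j v • y v) (fun y y' => by
      ext j
      simp [smul_add, Finset.sum_add_distrib])
  let w : Fin φ.J → Z := fun j => ∑ i, φ.A j i • x i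
  have hw : w ∉ p.range := by
    rintro ⟨y, hy⟩
    apply hne
    refine ⟨fun v => - y v, fun j => ?_⟩
    have h1 := congrFun hy j
    have h2 : ∑ v, φ.B j v • y v = ∑ i, φ.A j i • x i := h1
    simp only [smul_neg, Finset.sum_neg_distrib, h2]
    exact add_neg_cancel _
  have hw' : (QuotientAddGroup.mk w : (Fin φ.J → Z) ⧸ p.range) ≠ 0 := by
    intro h0
    exact hw ((QuotientAddGroup.eq_zero_iff w).mp h0)
  obtain ⟨χ, hχ⟩ := exists_char_ne_zero hw'
  let ζ : Fin φ.J → (Z →+ TT) := fun j =>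
    (χ.comp (QuotientAddGroup.mk' p.range)).comp (AddMonoidHom.single (fun _ => Z) j)
  have hζ : ∀ j z, ζ j z = χ (QuotientAddGroup.mk (Pi.single j z)) := fun j z => rfl
  have hsum : ∀ w : Fin φ.J → Z, ∑ j, ζ j (w j) = χ (QuotientAddGroup.mk w) := by
    intro w
    have h1 : w = ∑ j, Pi.single j (w j) := by
      ext j
      simp [Finset.sum_apply]
    conv_rhs => rw [h1]
    simp only [hζ]
    rw [← map_sum]
    congr 1
    exact (map_sum (QuotientAddGroup.mk' p.range) _ _).symm
  apply hχ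
  have h1 := h ζ (fun v => by
    ext z
    simp only [AddMonoidHom.finsetSum_apply, act_apply, AddMonoidHom.zero_apply]
    rw [hsum (fun j => φ.B j v • z)]
    have h2 : (fun j => φ.B j v • z) = p (Pi.single v z) := by
      ext j
      show _ = ∑ v', φ.B j v' • (Pi.single v z : Fin φ.V → Z) v'
      rw [Finset.sum_eq_single v]
      · simp
      · intro v' _ hv'
        simp [Pi.single_eq_of_ne hv']
      · simp
    have h3 : (QuotientAddGroup.mk (fun j => φ.B j v • z) : (Fin φ.J → Z) ⧸ p.range) = 0 := by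
      rw [QuotientAddGroup.eq_zero_iff, h2]
      exact ⟨_, rfl⟩
    rw [h3, map_zero])
  simp only [AddMonoidHom.finsetSum_apply, act_apply] at h1
  rw [Finset.sum_comm] at h1
  rw [← hsum w, ← h1]
  refine Finset.sum_congr rfl fun j _ => ?_
  rw [map_sum]

lemma dd_holds_imp (φ : PP S n) (x : Fin n → DD S Z) (h : φ.Holds (DD S Z) x)
    (ζ : Fin φ.J → (Z →+ TT)) (hζ : ∀ v, ∑ j, act (φ.B j v) (ζ j) = 0) :
    ∑ i, x i (∑ j, act (φ.A j i) (ζ j)) = 0 := by
  obtain ⟨y, hy⟩ := h
  have h1 : ∑ j, (∑ i, φ.A j i • x i + ∑ v, φ.B j v • y v) (ζ j) = 0 := by simp [hy]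
  have h2 : ∑ v, y v (∑ j, act (φ.B j v) (ζ j)) = 0 := by simp [hζ]
  simp only [DD.add_apply, DD.sum_apply, DD.smul_apply, Finset.sum_add_distrib] at h1
  simp only [map_sum] at h2 ⊢
  rw [Finset.sum_comm] at h2
  rw [h2, add_zero, Finset.sum_comm] at h1
  exact h1

lemma dd_holds_of (φ : PP S n) (x : Fin n → DD S Z)
    (h : ∀ (ζ : Fin φ.J → (Z →+ TT)), (∀ v, ∑ j, act (φ.B j v) (ζ j) = 0) →
      ∑ i, x i (∑ j, act (φ.A j i) (ζ j)) = 0) : φ.Holds (DD S Z) x := by
  let p : (Fin φ.J → (Z →+ TT)) →+ (Fin φ.V → (Z →+ TT)) :=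
    AddMonoidHom.mk' (fun ζ v => ∑ j, act (φ.B j v) (ζ j)) (fun ζ ζ' => by
      ext v : 1
      simp only [Pi.add_apply, map_add, Finset.sum_add_distrib])
  let g : (Fin φ.J → (Z →+ TT)) →+ TT :=
    AddMonoidHom.mk' (fun ζ => - ∑ i, x i (∑ j, act (φ.A j i) (ζ j))) (fun ζ ζ' => by
      simp only [Pi.add_apply, map_add, Finset.sum_add_distrib]
      abel)
  obtain ⟨k, hk⟩ := extend_char p g (by
    intro ζ hζ
    show - ∑ i, x i (∑ j, act (φ.A j i) (ζ j)) = 0
    rw [h ζ (fun v => congrFun hζ v), neg_zero])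
  refine ⟨fun v => DD.mk (k.comp (AddMonoidHom.single (fun _ => (Z →+ TT)) v)), fun j => ?_⟩
  ext χ
  simp only [DD.add_apply, DD.sum_apply, DD.smul_apply, DD.mk_apply, DD.zero_apply]
  have h1 := hk (Pi.single j χ)
  have h2 : p (Pi.single j χ) = fun v => act (φ.B j v) χ := by
    ext v : 1
    show ∑ j', act (φ.B j' v) ((Pi.single j χ : Fin φ.J → (Z →+ TT)) j') = _
    rw [Finset.sum_eq_single j]
    · simp
    · intro j' _ hj'
      simp [Pi.single_eq_of_ne hj']
    · simp
  have h3 : g (Pi.single j χ) = - ∑ i, x i (act (φ.A j i) χ) := by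
    show - ∑ i, x i (∑ j', act (φ.A j' i) ((Pi.single j χ : Fin φ.J → (Z →+ TT)) j')) = _
    congr 1
    refine Finset.sum_congr rfl fun i _ => ?_
    congr 1
    rw [Finset.sum_eq_single j]
    · simp
    · intro j' _ hj'
      simp [Pi.single_eq_of_ne hj']
    · simp
  rw [h3] at h1
  have h4 : ∑ v, (k.comp (AddMonoidHom.single (fun _ => (Z →+ TT)) v)) (act (φ.B j v) χ) =
      k (p (Pi.single j χ)) := by
    rw [h2]
    have h5 : (fun v => act (φ.B j v) χ) =
        ∑ v, (Pi.single v (act (φ.B j v) χ) : Fin φ.V → (Z →+ TT)) := by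
      ext v : 1
      simp [Finset.sum_apply]
    conv_rhs => rw [h5]
    rw [map_sum]
    rfl
  rw [h4, h1, add_neg_cancel]

theorem isPure_ev : IsPure (ev : Z →ₗ[S] DD S Z) := by
  apply isPure_of_reflects
  intro n φ x h
  apply holds_of
  intro ζ hζ
  have := dd_holds_imp φ _ h ζ hζ
  simpa using this

/-- pp pairs closed on `Z` are closed on the double dual. -/
theorem dd_closed {φ ψ : PP S n} (h : ∀ x : Fin n → Z, φ.Holds Z x → ψ.Holds Z x)
    (x : Fin n → DD S Z) (hx : φ.Holds (DD S Z) x) : ψ.Holds (DD S Z) x := by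
  apply dd_holds_of
  intro ζ hζ
  let χ : Fin n → (Z →+ TT) := fun i => ∑ j, act (ψ.A j i) (ζ j)
  let p : (Fin n → Z) × (Fin φ.V → Z) →+ (Fin φ.J → Z) :=
    AddMonoidHom.mk' (fun q j => ∑ i, φ.A j i • q.1 i + ∑ v, φ.B j v • q.2 v) (fun q q' => by
      ext j
      simp only [Prod.fst_add, Prod.snd_add, Pi.add_apply, smul_add, Finset.sum_add_distrib]
      abel)
  let g : (Fin n → Z) × (Fin φ.V → Z) →+ TT :=
    AddMonoidHom.mk' (fun q => ∑ i, χ i (q.1 i)) (fun q q' => by
      simp only [Prod.fst_add, Pi.add_apply, map_add, Finset.sum_add_distrib])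
  obtain ⟨k, hk⟩ := extend_char p g (by
    intro q hq
    have h1 : φ.Holds Z q.1 := ⟨q.2, fun j => congrFun hq j⟩
    exact holds_imp ψ q.1 (h q.1 h1) ζ hζ)
  let ζ' : Fin φ.J → (Z →+ TT) := fun j => k.comp (AddMonoidHom.single (fun _ => Z) j)
  have hsum : ∀ w : Fin φ.J → Z, ∑ j, ζ' j (w j) = k w := by
    intro w
    have h1 : w = ∑ j, Pi.single j (w j) := by
      ext j
      simp [Finset.sum_apply]
    conv_rhs => rw [h1]
    rw [map_sum]
    rfl
  have hB : ∀ v, ∑ j, act (φ.B j v) (ζ' j) = 0 := by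
    intro v
    ext z
    simp only [AddMonoidHom.finsetSum_apply, act_apply, AddMonoidHom.zero_apply]
    rw [hsum (fun j => φ.B j v • z)]
    have h2 : (fun j => φ.B j v • z) = p (0, Pi.single v z) := by
      ext j
      show _ = ∑ i, φ.A j i • (0 : Fin n → Z) i +
        ∑ v', φ.B j v' • (Pi.single v z : Fin φ.V → Z) v'
      rw [Finset.sum_eq_single v]
      · simp
      · intro v' _ hv'
        simp [Pi.single_eq_of_ne hv']
      · simp
    rw [h2, hk]
    show ∑ i, χ i ((0 : Fin n → Z) i) = 0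
    simp
  have hA : ∀ i, ∑ j, act (φ.A j i) (ζ' j) = χ i := by
    intro i
    ext z
    simp only [AddMonoidHom.finsetSum_apply, act_apply]
    rw [hsum (fun j => φ.A j i • z)]
    have h2 : (fun j => φ.A j i • z) = p (Pi.single i z, 0) := by
      ext j
      show _ = ∑ i', φ.A j i' • (Pi.single i z : Fin n → Z) i' +
        ∑ v', φ.B j v' • (0 : Fin φ.V → Z) v'
      rw [Finset.sum_eq_single i]
      · simp
      · intro v' _ hv'
        simp [Pi.single_eq_of_ne hv']
      · simp
    rw [h2, hk]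
    show ∑ i', χ i' ((Pi.single i z : Fin n → Z) i') = _
    rw [Finset.sum_eq_single i]
    · simp
    · intro v' _ hv'
      simp [Pi.single_eq_of_ne hv']
    · simp
  have h3 := dd_holds_imp φ x hx ζ' hB
  simp only [hA] at h3
  exact h3

theorem dd_surj {s : S} (h : ∀ z : Z, ∃ z', s • z' = z) (ε : DD S Z) : ∃ ε', s • ε' = ε := by
  obtain ⟨k, hk⟩ := extend_char (act s : (Z →+ TT) →+ (Z →+ TT)) (ε : (Z →+ TT) →+ TT) (by
    intro χ hχ
    have : χ = 0 := by
      ext z
      obtain ⟨z', rfl⟩ := h z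
      exact DFunLike.congr_fun hχ z'
    rw [this]
    exact map_zero ε)
  exact ⟨DD.mk k, DD.ext fun χ => hk χ⟩

end

end Pool.Agent.Work.MP_883c56_al
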