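import Pool.Agent.Work.MP_883c56_al.Rees

set_option autoImplicit false
set_option linter.unusedSectionVars false
set_option linter.style.haveILetI false

universe u

namespace Pool.Agent.Work.MP_883c56_al

variable {k : Type u} [Field k] {S : Type u} [Ring S] [Algebra k S]
  (T : Type u) [AddCommGroup T] [Module S T] [Module k T] [IsScalarTower k S T]

/-- If `(x - α) T = T` for all but finitely many `α`, then `x` has an eigenvector. -/
theorem exists_eigenvector [IsAlgClosed k] {x h y : S} (hg : IsSl2Gen k x h y)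
    (hT : ∀ p : Submodule S T, p = ⊥ ∨ p = ⊤) {v : T} (hv : v ≠ 0)
    (hfin : {α : k | ¬ ∀ t : T, ∃ t' : T, (x - algebraMap k S α) • t' = t}.Finite) :
    ∃ α : k, ∃ t : T, t ≠ 0 ∧ (x - algebraMap k S α) • t = 0 := by
  classical
  haveI : Infinite k := IsAlgClosed.instInfinite
  set ρ : S →+* Module.End k (ℕ → T) := actEnd T with hρ
  set τ : Module.End k (ℕ → T) := shift T with hτ
  set X : Module.End k (ℕ → T) := ρ x with hXdef
  set Hh : Module.End k (ℕ → T) := τ * ρ h with hHdef
  set Y : Module.End k (ℕ → T) := τ * (τ * ρ y) with hYdef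
  have hτρ : ∀ s, τ * ρ s = ρ s * τ := shift_mul_actEnd T
  have r1 : ρ h * ρ x = ρ x * ρ h + 2 * ρ x := by
    rw [← map_mul, hg.he, map_add, map_mul, map_mul, map_ofNat]
  have r2 : ρ h * ρ y = ρ y * ρ h - 2 * ρ y := by
    rw [← map_mul, hg.hf, map_sub, map_mul, map_mul, map_ofNat]
  have r3 : ρ x * ρ y = ρ y * ρ x + ρ h := by
    rw [← map_mul, hg.ef, map_add, map_mul]
  obtain ⟨c2, c3, hX, hY, hYH, a1, a2, a3, a4⟩ :=
    rees_relations (hτρ x) (hτρ h) (hτρ y) r1 r2 r3
  have c1 : τ * X = X * τ := hτρ x
  -- the Rees algebra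
  set G : Set (Module.End k (ℕ → T)) := {τ, X, Hh, Y} with hG
  set B := Algebra.adjoin k G with hB
  haveI : IsNoetherianRing B := isNoetherianRing_adjoin c1 c2 c3 hX hY hYH
  have hτB : τ ∈ B := Algebra.subset_adjoin (by simp [hG])
  have hXB : X ∈ B := Algebra.subset_adjoin (by simp [hG])
  have hHB : Hh ∈ B := Algebra.subset_adjoin (by simp [hG])
  have hYB : Y ∈ B := Algebra.subset_adjoin (by simp [hG])
  have hcen : ∀ b ∈ B, τ * b = b * τ := by
    intro b hb
    induction hb using Algebra.adjoin_induction with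
    | mem b hb =>
      rcases hb with rfl | rfl | rfl | rfl
      · rfl
      · exact c1
      · exact c2
      · exact c3
    | algebraMap c => exact (Algebra.commutes c _).symm
    | add a b _ _ ha hb => rw [mul_add, add_mul, ha, hb]
    | mul a b _ _ ha hb => rw [← mul_assoc, ha, mul_assoc, hb, mul_assoc]
  -- the graded module
  let δ : ℕ → T → (ℕ → T) := fun n t => Pi.single n t
  let TT : Submodule B (ℕ → T) := Submodule.span B {δ 0 v}
  have hsm : ∀ (b : B) (p : ℕ → T), b • p = (b : Module.End k (ℕ → T)) p := fun b p => rfl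
  have hT1 : ∀ {b : Module.End k (ℕ → T)} (_ : b ∈ B) {p : ℕ → T}, p ∈ TT → b p ∈ TT := by
    intro b hb p hp
    exact TT.smul_mem ⟨b, hb⟩ hp
  have hTk : ∀ (c : k) {p : ℕ → T}, p ∈ TT → c • p ∈ TT := by
    intro c p hp
    have h1 := hT1 (B.algebraMap_mem c) hp
    rwa [Module.algebraMap_end_apply] at h1
  -- induction principle
  have ind : ∀ (Z : Submodule k (ℕ → T)), δ 0 v ∈ Z → (∀ b ∈ G, ∀ p ∈ Z, b p ∈ Z) →
      ∀ p ∈ TT, p ∈ Z := by
    intro Z h0 hZ p hp
    have key : ∀ b ∈ B, ∀ p ∈ Z, b p ∈ Z := by
      intro b hb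
      induction hb using Algebra.adjoin_induction with
      | mem b hb => exact hZ b hb
      | algebraMap c =>
        intro p hp
        rw [Module.algebraMap_end_apply]
        exact Z.smul_mem c hp
      | add a b _ _ ha hb =>
        intro p hp
        rw [LinearMap.add_apply]
        exact Z.add_mem (ha p hp) (hb p hp)
      | mul a b _ _ ha hb =>
        intro p hp
        rw [Module.End.mul_apply]
        exact ha _ (hb p hp)
    obtain ⟨b, rfl⟩ := Submodule.mem_span_singleton.mp hp
    exact key b b.2 _ h0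
  have hδmem : δ 0 v ∈ TT := Submodule.subset_span rfl
  have eτ : ∀ n t, τ (δ n t) = δ (n + 1) t := shift_single T
  have eX : ∀ n t, X (δ n t) = δ n (x • t) := actEnd_single T x
  have eH : ∀ n t, Hh (δ n t) = δ (n + 1) (h • t) := by
    intro n t
    rw [hHdef, Module.End.mul_apply]
    have : (ρ h) (δ n t) = δ n (h • t) := actEnd_single T h n t
    rw [this, eτ]
  have eY : ∀ n t, Y (δ n t) = δ (n + 2) (y • t) := by
    intro n t
    rw [hYdef, Module.End.mul_apply, Module.End.mul_apply]
    have : (ρ y) (δ n t) = δ n (y • t) := actEnd_single T y n t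
    rw [this, eτ, eτ]
  -- (a) degree zero part
  have ha : ∀ p ∈ TT, ∃ q : Polynomial k, p 0 = Polynomial.aeval x q • v := by
    let Z : Submodule k (ℕ → T) :=
      { carrier := {p | ∃ q : Polynomial k, p 0 = Polynomial.aeval x q • v}
        add_mem' := by
          rintro a b ⟨q, hq⟩ ⟨q', hq'⟩
          exact ⟨q + q', by rw [Pi.add_apply, hq, hq', map_add, add_smul]⟩
        zero_mem' := ⟨0, by simp⟩
        smul_mem' := by
          rintro c a ⟨q, hq⟩
          exact ⟨c • q, by rw [Pi.smul_apply, hq, map_smul, smul_assoc]⟩ }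
    have hZ := ind Z ⟨1, by simp [δ]⟩ (by
      rintro b hb p ⟨q, hq⟩
      rcases hb with rfl | rfl | rfl | rfl
      · exact ⟨0, by rw [map_zero, zero_smul]; rfl⟩
      · refine ⟨Polynomial.X * q, ?_⟩
        rw [map_mul, Polynomial.aeval_X, mul_smul, ← hq]
        rfl
      · exact ⟨0, by rw [map_zero, zero_smul]; rfl⟩
      · exact ⟨0, by rw [map_zero, zero_smul]; rfl⟩)
    exact hZ
  -- (b) homogeneous components
  have hb : ∀ p ∈ TT, ∀ n, δ n (p n) ∈ TT := by
    let Z : Submodule k (ℕ → T) :=
      { carrier := {p | ∀ n, δ n (p n) ∈ TT}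
        add_mem' := by
          intro a b ha hb n
          have h1 : δ n ((a + b) n) = δ n (a n) + δ n (b n) := by
            rw [Pi.add_apply]
            exact Pi.single_add n _ _
          rw [h1]
          exact TT.add_mem (ha n) (hb n)
        zero_mem' := by
          intro n
          have h1 : δ n ((0 : ℕ → T) n) = 0 := Pi.single_zero n
          rw [h1]
          exact TT.zero_mem
        smul_mem' := by
          intro c a ha n
          have h1 : δ n ((c • a) n) = c • δ n (a n) := by
            rw [Pi.smul_apply]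
            exact Pi.single_smul n c _
          rw [h1]
          exact hTk c (ha n) }
    have hz0 : ∀ n, δ n (0 : T) ∈ TT := by
      intro n
      have h1 : δ n (0 : T) = 0 := Pi.single_zero n
      rw [h1]
      exact TT.zero_mem
    have hZ := ind Z (by
      intro n
      by_cases hn : n = 0
      · subst hn
        have h1 : (δ 0 v) 0 = v := by simp [δ]
        rw [h1]
        exact hδmem
      · have h1 : (δ 0 v) n = 0 := by simp [δ, hn]
        rw [h1]
        exact hz0 n) (by
      intro b hb p hp n
      have hp' : ∀ n, δ n (p n) ∈ TT := hp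
      rcases hb with rfl | rfl | rfl | rfl
      · cases n with
        | zero => exact hz0 0
        | succ n =>
          have h1 := hT1 hτB (hp' n)
          rw [eτ] at h1
          exact h1
      · have h1 := hT1 hXB (hp' n)
        rw [eX] at h1
        exact h1
      · cases n with
        | zero => exact hz0 0
        | succ n =>
          have h1 := hT1 hHB (hp' n)
          rw [eH] at h1
          exact h1
      · match n with
        | 0 => exact hz0 0
        | 1 => exact hz0 1
        | n + 2 =>
          have h1 := hT1 hYB (hp' n)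
          rw [eY] at h1
          exact h1)
    exact hZ
  -- (c) the union is everything
  have hmono : ∀ n t, δ n t ∈ TT → δ (n + 1) t ∈ TT := by
    intro n t ht
    have h1 := hT1 hτB ht
    rwa [eτ] at h1
  have hmono' : ∀ n m t, n ≤ m → δ n t ∈ TT → δ m t ∈ TT := by
    intro n m t hnm ht
    induction m, hnm using Nat.le_induction with
    | base => exact ht
    | succ m _ ih => exact hmono m t ih
  have hc : ∀ t : T, ∃ n, δ n t ∈ TT := by
    have hadd : ∀ a b : T, (∃ n, δ n a ∈ TT) → (∃ n, δ n b ∈ TT) → ∃ n, δ n (a + b) ∈ TT := by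
      rintro a b ⟨n, hn⟩ ⟨m, hm⟩
      refine ⟨max n m, ?_⟩
      have h1 : δ (max n m) (a + b) = δ (max n m) a + δ (max n m) b := Pi.single_add _ _ _
      rw [h1]
      exact TT.add_mem (hmono' _ _ _ (le_max_left _ _) hn) (hmono' _ _ _ (le_max_right _ _) hm)
    have hS : ∀ s : S, ∀ a : T, (∃ n, δ n a ∈ TT) → ∃ n, δ n (s • a) ∈ TT := by
      intro s
      have hs : s ∈ Algebra.adjoin k ({x, h, y} : Set S) := by rw [hg.adj]; trivial
      induction hs using Algebra.adjoin_induction with
      | mem s hs =>
        rintro a ⟨n, hn⟩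
        rcases hs with rfl | rfl | rfl
        · exact ⟨n, by rw [← eX]; exact hT1 hXB hn⟩
        · exact ⟨n + 1, by rw [← eH]; exact hT1 hHB hn⟩
        · exact ⟨n + 2, by rw [← eY]; exact hT1 hYB hn⟩
      | algebraMap c =>
        rintro a ⟨n, hn⟩
        refine ⟨n, ?_⟩
        rw [algebraMap_smul]
        have h1 : δ n (c • a) = c • δ n a := Pi.single_smul n c _
        rw [h1]
        exact hTk c hn
      | add s s' _ _ hs hs' =>
        intro a ha
        rw [add_smul]
        exact hadd _ _ (hs a ha) (hs' a ha)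
      | mul s s' _ _ hs hs' =>
        intro a ha
        rw [mul_smul]
        exact hs _ (hs' a ha)
    let U : Submodule S T :=
      { carrier := {t | ∃ n, δ n t ∈ TT}
        add_mem' := fun {a b} ha hb => hadd a b ha hb
        zero_mem' := ⟨0, by
          have h1 : δ 0 (0 : T) = 0 := Pi.single_zero 0
          rw [h1]
          exact TT.zero_mem⟩
        smul_mem' := fun s a ha => hS s a ha }
    have hvU : v ∈ U := ⟨0, hδmem⟩
    rcases hT U with h1 | h1
    · exfalso
      rw [h1, Submodule.mem_bot] at hvU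
      exact hv hvU
    · intro t
      have : t ∈ U := by rw [h1]; trivial
      exact this
  -- the quotient
  let τB : B := ⟨τ, hτB⟩
  let XB : B := ⟨X, hXB⟩
  have hadnil : ∀ g ∈ (Subtype.val ⁻¹' G : Set B), ∃ n, AdNil XB n g := by
    intro g hgG
    have h0 : ∃ n, AdNil X n (g : Module.End k (ℕ → T)) := by
      rcases hgG with h1 | h1 | h1 | h1
      · rw [h1]
        exact ⟨1, a1⟩
      · rw [h1]
        exact ⟨1, a2⟩
      · rw [h1]
        exact ⟨2, a3⟩
      · rw [h1]
        exact ⟨3, a4⟩
    obtain ⟨n, hn⟩ := h0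
    exact ⟨n, AdNil.of_injective (B.val : B →+* Module.End k (ℕ → T)) Subtype.val_injective hn⟩
  have hfin2 := finite_eigenvalues_mod' (k := k) (R := B) (G := Subtype.val ⁻¹' G)
    Algebra.adjoin_adjoin_coe_preimage (x := XB) hadnil τB (fun r => Subtype.ext (hcen r r.2))
    (δ 0 v)
  obtain ⟨α, hα⟩ := (hfin.union hfin2).exists_notMem
  rw [Set.mem_union, not_or] at hα
  obtain ⟨hα1, hα2⟩ := hα
  simp only [Set.mem_ofPred_eq, not_not] at hα1
  -- (d)
  have hd : ∀ n t, δ (n + 1) t ∈ TT → δ n ((x - algebraMap k S α) • t) ∈ TT → δ n t ∈ TT := by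
    intro n t ht ht'
    by_contra hcon
    apply hα2
    refine ⟨δ (n + 1) t, ht, ?_, δ n ((x - algebraMap k S α) • t), ht', ?_⟩
    · intro w hw hw'
      have h1 : δ (n + 1) t = τ w := hw'
      have h2 := congrFun h1 (n + 1)
      have h3 : (δ (n + 1) t) (n + 1) = t := by simp [δ]
      have h4 : (τ w) (n + 1) = w n := rfl
      rw [h3, h4] at h2
      apply hcon
      rw [h2]
      exact hb w hw n
    · show (X - algebraMap k (Module.End k (ℕ → T)) α) (δ (n + 1) t) = τ (δ n _)
      rw [LinearMap.sub_apply, eX, Module.algebraMap_end_apply, eτ, sub_smul, algebraMap_smul]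
      have h1 : α • δ (n + 1) t = δ (n + 1) (α • t) := (Pi.single_smul _ _ _).symm
      rw [h1]
      exact (Pi.single_sub _ _ _).symm
  -- (e)
  obtain ⟨t, ht⟩ := hα1 v
  have ht0 : δ 0 t ∈ TT := by
    obtain ⟨n, hn⟩ := hc t
    have key : ∀ n, δ n t ∈ TT → δ 0 t ∈ TT := by
      intro n
      induction n with
      | zero => exact id
      | succ n ih =>
        intro hn
        apply ih
        apply hd n t hn
        rw [ht]
        exact hmono' 0 n v (Nat.zero_le _) hδmem
    exact key n hn
  obtain ⟨q, hq⟩ := ha _ ht0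
  have h1 : (δ 0 t) 0 = t := by simp [δ]
  rw [h1] at hq
  refine exists_eigenvector_of_aeval x hv (1 - (Polynomial.X - Polynomial.C α) * q) ?_ ?_
  · intro h0
    have h2 := congrArg (Polynomial.eval α) h0
    simp at h2
  · rw [map_sub, map_one, map_mul, map_sub, Polynomial.aeval_X, Polynomial.aeval_C, sub_smul,
      one_smul, mul_smul, ← hq, ht, sub_self]

end Pool.Agent.Work.MP_883c56_al
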