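import Pool.Agent.Work.MP_883c56_al.DoubleDual

set_option autoImplicit false
set_option linter.unusedSectionVars false
set_option linter.style.haveILetI false

universe u

namespace Pool.Agent.Work.MP_883c56_al

open Finset

section Semigroup

variable {S E : Type u} [Ring S] [AddCommGroup E] [Module S E] [TopologicalSpace E]
  {n : ℕ} (a : Fin n → E)

local instance : TopologicalSpace (Function.End E) := inferInstanceAs (TopologicalSpace (E → E))

/-- The endomorphisms of `E` fixing the tuple `a`. -/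
def FixSet (S : Type u) {E : Type u} [Ring S] [AddCommGroup E] [Module S E] {n : ℕ}
    (a : Fin n → E) : Set (Function.End E) :=
  {f | (∀ x y, f (x + y) = f x + f y) ∧ (∀ (s : S) x, f (s • x) = s • f x) ∧ ∀ i, f (a i) = a i}

variable [CompactSpace E] [T2Space E] [ContinuousAdd E]
  (hs : ∀ s : S, Continuous (fun x : E => s • x))

include hs in
lemma isClosed_fixSet : IsClosed (FixSet S a) := by
  have h : FixSet S a = (⋂ (x : E) (y : E), {f : Function.End E | f (x + y) = f x + f y}) ∩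
      ((⋂ (s : S) (x : E), {f : Function.End E | f (s • x) = s • f x}) ∩
        ⋂ i, {f : Function.End E | f (a i) = a i}) := by
    ext f
    simp only [FixSet, Set.mem_inter_iff, Set.mem_iInter, Set.mem_ofPred_eq]
  rw [h]
  have hc : ∀ x : E, Continuous (fun f : Function.End E => f x) := fun x => continuous_apply x
  refine IsClosed.inter ?_ (IsClosed.inter ?_ ?_)
  · exact isClosed_iInter fun x => isClosed_iInter fun y =>
      isClosed_eq (hc _) ((hc x).add (hc y))
  · exact isClosed_iInter fun s => isClosed_iInter fun x =>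
      isClosed_eq (hc _) ((hs s).comp (hc x))
  · exact isClosed_iInter fun i => isClosed_eq (hc _) continuous_const

include hs in
theorem exists_minimal_idempotent : ∃ e ∈ FixSet S a, e * e = e ∧
    ∀ g ∈ FixSet S a, ∃ h ∈ FixSet S a, h * (g * e) = e := by
  have hclosed := isClosed_fixSet a hs
  haveI : CompactSpace (Function.End E) := inferInstanceAs (CompactSpace (E → E))
  haveI : T2Space (Function.End E) := inferInstanceAs (T2Space (E → E))
  have hcompact : IsCompact (FixSet S a) := hclosed.isCompact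
  have hone : (1 : Function.End E) ∈ FixSet S a := ⟨fun _ _ => rfl, fun _ _ => rfl, fun _ => rfl⟩
  have hmul : ∀ f ∈ FixSet S a, ∀ g ∈ FixSet S a, f * g ∈ FixSet S a := by
    rintro f ⟨hf1, hf2, hf3⟩ g ⟨hg1, hg2, hg3⟩
    refine ⟨fun x y => ?_, fun s x => ?_, fun i => ?_⟩
    · show f (g (x + y)) = f (g x) + f (g y)
      rw [hg1, hf1]
    · show f (g (s • x)) = s • f (g x)
      rw [hg2, hf2]
    · show f (g (a i)) = a i
      rw [hg3, hf3]
  have hcont : ∀ r : Function.End E, Continuous (fun f : Function.End E => f * r) := by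
    intro r
    exact continuous_pi fun x => continuous_apply (r x)
  let LL : Set (Set (Function.End E)) :=
    {L | L ⊆ FixSet S a ∧ IsClosed L ∧ L.Nonempty ∧ ∀ f ∈ FixSet S a, ∀ g ∈ L, f * g ∈ L}
  obtain ⟨L, -, hL⟩ := zorn_superset_nonempty LL (by
    intro c hc hchain hne
    refine ⟨⋂₀ c, ⟨?_, ?_, ?_, ?_⟩, fun s hs => Set.sInter_subset_of_mem hs⟩
    · obtain ⟨L, hL⟩ := hne
      exact (Set.sInter_subset_of_mem hL).trans (hc hL).1
    · exact isClosed_sInter fun L hL => (hc hL).2.1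
    · haveI : Nonempty c := hne.to_subtype
      refine IsCompact.nonempty_sInter_of_directed_nonempty_isCompact_isClosed ?_
        (fun L hL => (hc hL).2.2.1) (fun L hL => (hc hL).2.1.isCompact) (fun L hL => (hc hL).2.1)
      intro L hL L' hL'
      rcases hchain.total hL hL' with h | h
      · exact ⟨L, hL, subset_rfl, h⟩
      · exact ⟨L', hL', h, subset_rfl⟩
    · intro f hf g hg L hL
      exact (hc hL).2.2.2 f hf g (hg L hL)) (FixSet S a) ⟨subset_rfl, hclosed, ⟨1, hone⟩, hmul⟩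
  obtain ⟨⟨hL1, hL2, hL3, hL4⟩, hmin⟩ := hL
  obtain ⟨e, he, hee⟩ := exists_idempotent_in_compact_subsemigroup hcont L hL3 hL2.isCompact
    (fun x hx y hy => hL4 x (hL1 hx) y hy)
  refine ⟨e, hL1 he, hee, fun g hg => ?_⟩
  have hge : g * e ∈ L := hL4 g hg e he
  have h1 : (fun f => f * (g * e)) '' FixSet S a ∈ LL := by
    refine ⟨?_, ?_, ?_, ?_⟩
    · rintro _ ⟨f, hf, rfl⟩
      exact hL1 (hL4 f hf _ hge)
    · exact (hcompact.image (hcont _)).isClosed
    · exact ⟨_, ⟨1, hone, rfl⟩⟩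
    · rintro f hf _ ⟨f', hf', rfl⟩
      exact ⟨f * f', hmul f hf f' hf', mul_assoc _ _ _⟩
  have h2 : (fun f => f * (g * e)) '' FixSet S a ⊆ L := by
    rintro _ ⟨f, hf, rfl⟩
    exact hL4 f hf _ hge
  have h3 := hmin h1 h2 he
  obtain ⟨h, hh, hhe⟩ := h3
  exact ⟨h, hh, hhe⟩

include hs in
/-- A retraction of `E` with minimal image among those fixing `a`. -/
theorem exists_minimal_retraction : ∃ e : E →ₗ[S] E, (∀ i, e (a i) = a i) ∧
    (∀ x, e (e x) = e x) ∧ ∀ g : E →ₗ[S] E, (∀ i, g (a i) = a i) →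
      ∃ h : E →ₗ[S] E, ∀ x, h (g (e x)) = e x := by
  obtain ⟨e, ⟨he1, he2, he3⟩, hee, H⟩ := exists_minimal_idempotent a hs
  refine ⟨{ toFun := e, map_add' := he1, map_smul' := he2 }, he3, fun x => congrFun hee x, ?_⟩
  intro g hg
  obtain ⟨h, ⟨hh1, hh2, _⟩, hhe⟩ := H (fun x => g x) ⟨map_add g, map_smul g, hg⟩
  exact ⟨{ toFun := h, map_add' := hh1, map_smul' := hh2 }, fun x => congrFun hhe x⟩

end Semigroup

section Types

variable {S : Type u} [Ring S] {n : ℕ}

/-- The complete pp types of `n`-tuples not satisfying `Ψ` in modules on which `s` is surjective. -/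
def Cls (s : S) (Ψ : PP S n) : Set (Set (PP S n)) :=
  {p | ∃ (Z : Type u) (_ : AddCommGroup Z) (_ : Module S Z), (∀ z : Z, ∃ z', s • z' = z) ∧
    ∃ b : Fin n → Z, (∀ φ : PP S n, φ ∈ p ↔ φ.Holds Z b) ∧ Ψ ∉ p}

theorem cls_chain (s : S) (Ψ : PP S n) (c : Set (Set (PP S n))) (hc : c ⊆ Cls s Ψ)
    (hchain : IsChain (· ⊆ ·) c) (hne : c.Nonempty) : ∃ ub ∈ Cls s Ψ, ∀ p ∈ c, p ⊆ ub := by
  classical
  have hc' : ∀ p : c, ∃ (Z : Type u) (_ : AddCommGroup Z) (_ : Module S Z),
    (∀ z : Z, ∃ z', s • z' = z) ∧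
    ∃ b : Fin n → Z, (∀ φ : PP S n, φ ∈ p.1 ↔ φ.Holds Z b) ∧ Ψ ∉ p.1 := fun p => hc p.2
  choose Z hZ1 hZ2 hZ3 b hb hΨ using hc'
  -- the submodule of eventually vanishing families
  let K : Submodule S (∀ p : c, Z p) :=
    { carrier := {z | ∃ p₀ : c, ∀ p : c, p₀.1 ⊆ p.1 → z p = 0}
      add_mem' := by
        rintro z z' ⟨p, hp⟩ ⟨p', hp'⟩
        rcases hchain.total p.2 p'.2 with h | h
        · refine ⟨p', fun q hq => ?_⟩
          rw [Pi.add_apply, hp q (h.trans hq), hp' q hq, add_zero]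
        · refine ⟨p, fun q hq => ?_⟩
          rw [Pi.add_apply, hp q hq, hp' q (h.trans hq), add_zero]
      zero_mem' := by
        obtain ⟨p, hp⟩ := hne
        exact ⟨⟨p, hp⟩, fun q _ => rfl⟩
      smul_mem' := by
        rintro r z ⟨p, hp⟩
        refine ⟨p, fun q hq => ?_⟩
        rw [Pi.smul_apply, hp q hq, smul_zero] }
  have hK : ∀ z : (∀ p : c, Z p), z ∈ K ↔ ∃ p₀ : c, ∀ p : c, p₀.1 ⊆ p.1 → z p = 0 :=
    fun z => Iff.rfl
  let Q := (∀ p : c, Z p) ⧸ K
  let β : Fin n → (∀ p : c, Z p) := fun i p => b p i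
  have key : ∀ φ : PP S n, φ.Holds Q (fun i => Submodule.Quotient.mk (β i)) ↔ ∃ p ∈ c, φ ∈ p := by
    intro φ
    constructor
    · rintro ⟨y, hy⟩
      choose y' hy' using fun v => Submodule.Quotient.mk_surjective K (y v)
      have h1 : ∀ j, ∃ p₀ : c, ∀ p : c, p₀.1 ⊆ p.1 →
          ∑ i, φ.A j i • b p i + ∑ v, φ.B j v • y' v p = 0 := by
        intro j
        have h2 : (∑ i, φ.A j i • β i + ∑ v, φ.B j v • y' v) ∈ K := by
          rw [← Submodule.Quotient.mk_eq_zero K]
          have h3 := hy j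
          simp only [← hy'] at h3
          rw [← h3]
          simp only [← Submodule.mkQ_apply, map_add, map_sum, map_smul]
        rw [hK] at h2
        obtain ⟨p₀, hp₀⟩ := h2
        refine ⟨p₀, fun p hp => ?_⟩
        have h4 := hp₀ p hp
        simpa [Finset.sum_apply, β] using h4
      choose q hq using h1
      -- a common upper bound
      have h5 : ∃ p₁ : c, ∀ j, (q j).1 ⊆ p₁.1 := by
        have h6 : ∀ t : Finset (Fin φ.J), ∃ p₁ : c, ∀ j ∈ t, (q j).1 ⊆ p₁.1 := by
          intro t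
          induction t using Finset.induction_on with
          | empty =>
            obtain ⟨p, hp⟩ := hne
            exact ⟨⟨p, hp⟩, by simp⟩
          | insert j t _ ih =>
            obtain ⟨p₁, hp₁⟩ := ih
            rcases hchain.total (q j).2 p₁.2 with h | h
            · refine ⟨p₁, fun j' hj' => ?_⟩
              rcases Finset.mem_insert.mp hj' with rfl | h7
              · exact h
              · exact hp₁ j' h7
            · refine ⟨q j, fun j' hj' => ?_⟩
              rcases Finset.mem_insert.mp hj' with rfl | h7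
              · exact subset_rfl
              · exact (hp₁ j' h7).trans h
        obtain ⟨p₁, hp₁⟩ := h6 Finset.univ
        exact ⟨p₁, fun j => hp₁ j (Finset.mem_univ j)⟩
      obtain ⟨p₁, hp₁⟩ := h5
      refine ⟨p₁.1, p₁.2, ?_⟩
      rw [hb]
      exact ⟨fun v => y' v p₁, fun j => hq j p₁ (hp₁ j)⟩
    · rintro ⟨p₀, hp₀, hφ⟩
      have h1 : ∀ p : c, p₀ ⊆ p.1 → φ.Holds (Z p) (b p) := fun p hp => (hb p φ).mp (hp hφ)
      let y : Fin φ.V → (∀ p : c, Z p) := fun v p =>
        if hp : p₀ ⊆ p.1 then (h1 p hp).choose v else 0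
      refine ⟨fun v => Submodule.Quotient.mk (y v), fun j => ?_⟩
      have h2 : (∑ i, φ.A j i • β i + ∑ v, φ.B j v • y v) ∈ K := by
        rw [hK]
        refine ⟨⟨p₀, hp₀⟩, fun p hp => ?_⟩
        have h3 := (h1 p hp).choose_spec j
        simp only [Pi.add_apply, Finset.sum_apply, Pi.smul_apply, β]
        refine Eq.trans ?_ h3
        congr 1
        refine Finset.sum_congr rfl fun v _ => ?_
        congr 1
        exact dif_pos (show p₀ ⊆ p.1 from hp)
      rw [← Submodule.Quotient.mk_eq_zero K] at h2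
      rw [← h2]
      simp only [← Submodule.mkQ_apply, map_add, map_sum, map_smul]
  refine ⟨{φ | ∃ p ∈ c, φ ∈ p}, ⟨Q, inferInstance, inferInstance, ?_, _,
    fun φ => (key φ).symm, ?_⟩, fun p hp φ hφ => ⟨p, hp, hφ⟩⟩
  · intro z
    obtain ⟨z, rfl⟩ := Submodule.Quotient.mk_surjective K z
    choose w hw using fun p => hZ3 p (z p)
    refine ⟨Submodule.Quotient.mk w, ?_⟩
    rw [← Submodule.Quotient.mk_smul]
    congr 1
    ext p
    exact hw p
  · rintro ⟨p, hp, h⟩
    exact hΨ ⟨p, hp⟩ h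

/-- Existence of indecomposable pure-injective modules omitting a pp formula. -/
theorem exists_indecomposable (s : S) (Ψ : PP S n) (Y : Type u) [AddCommGroup Y] [Module S Y]
    (hY : ∀ y : Y, ∃ y', s • y' = y) (a₀ : Fin n → Y) (hΨ₀ : ¬ Ψ.Holds Y a₀) :
    ∃ (N : Type u) (_ : AddCommGroup N) (_ : Module S N), IsIndec S N ∧ IsPureInjective S N ∧
      (∀ y : N, ∃ y', s • y' = y) ∧ ∃ b : Fin n → N,
        (∀ φ : PP S n, φ.Holds Y a₀ → φ.Holds N b) ∧ ¬ Ψ.Holds N b := by
  classical
  obtain ⟨p, hp0, hpmax⟩ := zorn_subset_nonempty (Cls s Ψ) (cls_chain s Ψ)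
    {φ | φ.Holds Y a₀} ⟨Y, inferInstance, inferInstance, hY, a₀, fun φ => Iff.rfl, hΨ₀⟩
  obtain ⟨Z, hZ1, hZ2, hZ3, b, hb, hΨp⟩ := hpmax.1
  let E := DD S Z
  let a : Fin n → E := fun i => ev (b i)
  have ha : ∀ φ : PP S n, φ ∈ p ↔ φ.Holds E a := by
    intro φ
    rw [hb]
    exact ⟨fun h => h.map ev, fun h => isPure_ev.holds h⟩
  have hE : ∀ x : E, ∃ x', s • x' = x := dd_surj hZ3
  have hΨE : ¬ Ψ.Holds E a := fun h => hΨp ((ha Ψ).mpr h)
  have hmax : ∀ a' : Fin n → E, (∀ φ : PP S n, φ.Holds E a → φ.Holds E a') → ¬ Ψ.Holds E a' →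
      ∀ φ : PP S n, φ.Holds E a' → φ.Holds E a := by
    intro a' h1 h2 φ hφ
    have h3 : {φ : PP S n | φ.Holds E a'} ∈ Cls s Ψ :=
      ⟨E, inferInstance, inferInstance, hE, a', fun φ => Iff.rfl, h2⟩
    have h4 : p ⊆ {φ : PP S n | φ.Holds E a'} := fun φ hφ => h1 φ ((ha φ).mp hφ)
    exact (ha φ).mp (hpmax.2 h3 h4 hφ)
  obtain ⟨e, hea, hee, hmin⟩ := exists_minimal_retraction a (DD.continuous_smul (S := S) (Z := Z))
  let N := LinearMap.range e
  let r : E →ₗ[S] N := e.rangeRestrict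
  have hr : ∀ x : N, r x.1 = x := by
    rintro ⟨x, y, rfl⟩
    exact Subtype.ext (hee y)
  have hr' : ∀ x : E, ((r x : N) : E) = e x := fun x => rfl
  have hac : AlgCompact S N :=
    (DD.algCompact (S := S) (Z := Z)).of_retract N.subtype r hr
  have hra : ∀ i, ((r (a i) : N) : E) = a i := hea
  refine ⟨N, inferInstance, inferInstance, ⟨?_, ?_⟩, hac.isPureInjective, ?_, fun i => r (a i),
    ?_, ?_⟩
  · -- nontrivial
    by_contra hN
    rw [not_nontrivial_iff_subsingleton] at hN
    apply hΨE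
    have h1 : a = 0 := by
      ext1 i
      rw [← hra i]
      have : r (a i) = 0 := Subsingleton.elim _ _
      rw [this]
      rfl
    rw [h1]
    exact Ψ.holds_zero E
  · -- indecomposable
    have main : ∀ P Q : Submodule S N, ∀ (hPQ : IsCompl P Q),
        ¬ Ψ.Holds E (fun i => (((Submodule.prodEquivOfIsCompl P Q hPQ).symm (r (a i))).1 : N).1) →
        Q = ⊥ := by
      intro P Q hPQ hΨP
      let α : E →ₗ[S] E := N.subtype ∘ₗ P.subtype ∘ₗ (LinearMap.fst S P Q) ∘ₗ
        ((Submodule.prodEquivOfIsCompl P Q hPQ).symm : N →ₗ[S] P × Q) ∘ₗ r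
      have hα : ∀ x, α x = (((Submodule.prodEquivOfIsCompl P Q hPQ).symm (r x)).1 : N).1 :=
        fun x => rfl
      have h1 : ∀ φ : PP S n, φ.Holds E a → φ.Holds E (fun i => α (a i)) := fun φ h => h.map α
      have h2 := hmax (fun i => α (a i)) h1 hΨP
      obtain ⟨g, hg⟩ := (DD.algCompact (S := S) (Z := Z)).exists_hom (fun i => α (a i)) a h2
      obtain ⟨h, hh⟩ := hmin (g ∘ₗ α) hg
      rw [eq_bot_iff]
      intro q hq
      have h3 : α q.1 = 0 := by
        rw [hα, hr]
        have h4 := Submodule.prodEquivOfIsCompl_symm_apply_right P Q hPQ (⟨q, hq⟩ : Q)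
        have h5 : (Submodule.prodEquivOfIsCompl P Q hPQ).symm q = (0, ⟨q, hq⟩) := h4
        rw [h5]
        rfl
      have h6 := hh q.1
      have h7 : e q.1 = q.1 := by
        rw [← hr']
        rw [hr]
      rw [h7, LinearMap.comp_apply, h3, map_zero, map_zero] at h6
      rw [Submodule.mem_bot]
      exact Subtype.ext h6.symm
    intro P Q hPQ
    by_cases hΨP : Ψ.Holds E
        (fun i => (((Submodule.prodEquivOfIsCompl P Q hPQ).symm (r (a i))).1 : N).1)
    · left
      apply main Q P hPQ.symm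
      intro hΨQ
      apply hΨE
      have h1 := hΨP.add hΨQ
      have h2 : a = (fun i => (((Submodule.prodEquivOfIsCompl P Q hPQ).symm (r (a i))).1 : N).1) +
          (fun i => (((Submodule.prodEquivOfIsCompl Q P hPQ.symm).symm (r (a i))).1 : N).1) := by
        ext1 i
        obtain ⟨⟨x, y⟩, hxy⟩ := (Submodule.prodEquivOfIsCompl P Q hPQ).surjective (r (a i))
        have h3 : (Submodule.prodEquivOfIsCompl P Q hPQ).symm (r (a i)) = (x, y) := by
          rw [← hxy, LinearEquiv.symm_apply_apply]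
        have h4 : (Submodule.prodEquivOfIsCompl Q P hPQ.symm).symm (r (a i)) = (y, x) := by
          rw [LinearEquiv.symm_apply_eq, ← hxy]
          simp only [Submodule.coe_prodEquivOfIsCompl']
          exact add_comm _ _
        rw [Pi.add_apply, h3, h4, ← hra i, ← hxy]
        rfl
      rw [h2]
      exact h1
    · right
      exact main P Q hPQ hΨP
  · rintro ⟨x, y, rfl⟩
    obtain ⟨y', hy'⟩ := hE y
    refine ⟨⟨e y', y', rfl⟩, Subtype.ext ?_⟩
    show s • e y' = e y
    rw [← map_smul, hy']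
  · intro φ hφ
    have h1 : φ.Holds E a := (ha φ).mp (hp0 hφ)
    exact h1.map r
  · intro h
    apply hΨE
    have h1 := h.map N.subtype
    have h2 : (fun i => N.subtype (r (a i))) = a := funext hra
    rw [h2] at h1
    exact h1

end Types

end Pool.Agent.Work.MP_883c56_al
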