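import Pool.Agent.Work.MP_883c56_al.Defs

set_option autoImplicit false
set_option linter.unusedSectionVars false
set_option linter.style.haveILetI false

universe u

namespace Pool.Agent.Work.MP_883c56_al

open Finset

/-- A pp formula given by systems indexed by arbitrary finite types. -/
lemma exists_ppFormula {S : Type u} [Ring S] {ι κ : Type} [Fintype ι] [Fintype κ]
    (a : κ → S) (b : ι → κ → S) :
    ∃ φ : PPFormula S, ∀ (M : Type u) [AddCommGroup M] [Module S M] (x : M),
      φ.Holds M x ↔ ∃ y : ι → M, ∀ j, a j • x + ∑ i, b i j • y i = 0 := by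
  classical
  let e := Fintype.equivFin ι
  let f := Fintype.equivFin κ
  refine ⟨⟨Fintype.card ι, Fintype.card κ, fun j => a (f.symm j),
    fun i j => b (e.symm i) (f.symm j)⟩, ?_⟩
  intro M _ _ x
  constructor
  · rintro ⟨y, hy⟩
    refine ⟨fun i => y (e i), fun j => ?_⟩
    have h := hy (f j)
    simp only [Equiv.symm_apply_apply] at h
    rw [← h]
    congr 1
    exact Fintype.sum_equiv e _ _ (fun i => by simp)
  · rintro ⟨y, hy⟩
    refine ⟨fun i => y (e.symm i), fun j => ?_⟩
    have h := hy (f.symm j)
    rw [← h]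
    congr 1
    exact Fintype.sum_equiv e.symm _ _ (fun i => rfl)

lemma isPure_solve {S A B : Type u} [Ring S] [AddCommGroup A] [Module S A] [AddCommGroup B]
    [Module S B] {f : A →ₗ[S] B} (hf : IsPure f) {ι κ : Type} [Fintype ι] [Fintype κ]
    (c : κ → A) (b : ι → κ → S)
    (h : ∃ y : ι → B, ∀ j, ∑ i, b i j • y i = f (c j)) :
    ∃ y : ι → A, ∀ j, ∑ i, b i j • y i = c j := by
  classical
  let e := Fintype.equivFin ι
  let g := Fintype.equivFin κ
  obtain ⟨y, hy⟩ := h
  obtain ⟨z, hz⟩ := hf.2 (Fintype.card ι) (Fintype.card κ) (fun j => c (g.symm j))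
    (fun i j => b (e.symm i) (g.symm j)) ⟨fun i => y (e.symm i), fun j => by
      rw [← hy (g.symm j)]
      exact Fintype.sum_equiv e.symm _ _ (fun i => rfl)⟩
  refine ⟨fun i => z (e i), fun j => ?_⟩
  have h := hz (g j)
  simp only [Equiv.symm_apply_apply] at h
  rw [← h]
  exact Fintype.sum_equiv e _ _ (fun i => by simp)

section

variable {k S : Type u} [Field k] [Ring S] [Algebra k S]
variable {σ : Type} [Fintype σ] [DecidableEq σ] (g : σ → S)
variable {M : Type u} [AddCommGroup M] [Module S M] [Module k M] [IsScalarTower k S M]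
variable {ι : Type} [Fintype ι] [DecidableEq ι] (b : Module.Basis ι k M)

/-- matrix coefficients of the action of the generators -/
noncomputable def coef (t : σ) (i l : ι) : k := b.repr (g t • b i) l

omit [Fintype σ] [DecidableEq σ] [DecidableEq ι] in
lemma smul_basis (t : σ) (i : ι) : g t • b i = ∑ l, coef g b t i l • b l := by
  simp [coef, b.sum_repr]

variable (X : Type u) [AddCommGroup X] [Module S X] [Module k X] [IsScalarTower k S X]

/-- The map whose cokernel is `X ⊗_S M^*`. -/
noncomputable def Zmap : (σ → ι → X) →ₗ[k] (ι → X) where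
  toFun w i := ∑ t, (g t • w t i - ∑ l, coef g b t i l • w t l)
  map_add' w w' := by
    ext i
    simp only [Pi.add_apply, smul_add, Finset.sum_add_distrib, Finset.sum_sub_distrib]
    abel
  map_smul' c w := by
    ext i
    simp only [Pi.smul_apply, RingHom.id_apply, Finset.smul_sum, smul_sub]
    refine Finset.sum_congr rfl fun t _ => ?_
    congr 1
    · rw [smul_algebra_smul_comm]
    · refine Finset.sum_congr rfl fun l _ => ?_
      rw [smul_comm]

variable {X}

lemma Zmap_single (t : σ) (l : ι) (y : X) :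
    Zmap g b X (Pi.single t (Pi.single l y)) =
      Pi.single l (g t • y) - ∑ i, Pi.single i (coef g b t i l • y) := by
  ext i
  simp only [Zmap, LinearMap.coe_mk, AddHom.coe_mk, Pi.sub_apply, Finset.sum_apply]
  rw [Finset.sum_eq_single t]
  · congr 1
    · simp only [Pi.single_eq_same]
      by_cases h : i = l
      · subst h; simp
      · simp [Pi.single_eq_of_ne h]
    · simp only [Pi.single_eq_same]
      rw [Finset.sum_eq_single l, Finset.sum_eq_single i]
      · simp
      · intro j _ hj
        simp [Pi.single_eq_of_ne (Ne.symm hj)]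
      · simp
      · intro j _ hj
        simp [Pi.single_eq_of_ne hj]
      · simp
  · intro t' _ ht'
    simp [Pi.single_eq_of_ne ht']
  · simp

/-- a map that commutes with generators is linear -/
lemma map_smul_of_generators {Y : Type u} [AddCommGroup Y] [Module S Y] [Module k Y]
    [IsScalarTower k S Y] (hg : Algebra.adjoin k (Set.range g) = ⊤) (G : X →ₗ[k] Y)
    (h : ∀ t y, G (g t • y) = g t • G y) (s : S) (y : X) : G (s • y) = s • G y := by
  have hs : s ∈ Algebra.adjoin k (Set.range g) := by rw [hg]; trivial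
  induction hs using Algebra.adjoin_induction generalizing y with
  | mem x hx =>
    obtain ⟨t, rfl⟩ := hx
    exact h t y
  | algebraMap r => simp
  | add x y _ _ hx hy => rw [add_smul, map_add, hx, hy, add_smul]
  | mul x y _ _ hx hy => rw [mul_smul, hx, hy, mul_smul]

/-- The homomorphism `X → M` given by a functional on `X ⊗_S M^*`. -/
lemma exists_hom_of_functional (hg : Algebra.adjoin k (Set.range g) = ⊤)
    (Λ : (ι → X) →ₗ[k] k) (hΛ : Λ ∘ₗ Zmap g b X = 0) :
    ∃ G : X →ₗ[S] M, ∀ y, G y = ∑ i, Λ (Pi.single i y) • b i := by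
  let G₀ : X →ₗ[k] M :=
    { toFun := fun y => ∑ i, Λ (Pi.single i y) • b i
      map_add' := fun x y => by
        simp only [Pi.single_add, map_add, add_smul, Finset.sum_add_distrib]
      map_smul' := fun c x => by
        simp only [Pi.single_smul, map_smul, RingHom.id_apply, Finset.smul_sum, smul_assoc] }
  have h : ∀ t y, G₀ (g t • y) = g t • G₀ y := by
    intro t y
    have h1 : ∀ l, Λ (Pi.single l (g t • y)) = ∑ i, coef g b t i l * Λ (Pi.single i y) := by
      intro l
      have h2 := LinearMap.congr_fun hΛ (Pi.single t (Pi.single l y))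
      rw [LinearMap.comp_apply, Zmap_single, map_sub, map_sum, LinearMap.zero_apply,
        sub_eq_zero] at h2
      rw [h2]
      refine Finset.sum_congr rfl fun i _ => ?_
      rw [Pi.single_smul, map_smul, smul_eq_mul]
    show ∑ i, Λ (Pi.single i (g t • y)) • b i = g t • ∑ i, Λ (Pi.single i y) • b i
    simp only [h1, Finset.sum_smul, Finset.smul_sum]
    rw [Finset.sum_comm]
    refine Finset.sum_congr rfl fun i _ => ?_
    rw [smul_algebra_smul_comm, smul_basis, Finset.smul_sum]
    refine Finset.sum_congr rfl fun l _ => ?_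
    rw [smul_smul, mul_comm]
  exact ⟨{ G₀ with map_smul' := fun s y => map_smul_of_generators g hg G₀ h s y }, fun y => rfl⟩

omit [DecidableEq σ] [DecidableEq ι] in
/-- The functional given by a homomorphism vanishes on the image of `Zmap`. -/
lemma functional_of_hom (G : X →ₗ[S] M) (w : σ → ι → X) :
    ∑ i, b.coord i (G (Zmap g b X w i)) = 0 := by
  have hk : ∀ (c : k) (x : X), G (c • x) = c • G x := by
    intro c x
    rw [← algebraMap_smul S c x, map_smul, algebraMap_smul]
  simp only [Zmap, LinearMap.coe_mk, AddHom.coe_mk, map_sum, map_sub, map_smul, hk]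
  rw [Finset.sum_comm]
  refine Finset.sum_eq_zero fun t _ => ?_
  rw [Finset.sum_sub_distrib, sub_eq_zero]
  have h1 : ∀ i, b.coord i (g t • G (w t i)) = ∑ j, b.coord j (G (w t i)) * coef g b t j i := by
    intro i
    conv_lhs => rw [← b.sum_repr (G (w t i))]
    rw [Finset.smul_sum, map_sum]
    refine Finset.sum_congr rfl fun j _ => ?_
    rw [smul_algebra_smul_comm, map_smul, smul_basis, map_sum, smul_eq_mul]
    congr 1
    rw [Finset.sum_eq_single i]
    · simp
    · intro l _ hl
      simp [hl]
    · simp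
  simp only [h1]
  rw [Finset.sum_comm]
  refine Finset.sum_congr rfl fun j _ => ?_
  refine Finset.sum_congr rfl fun i _ => ?_
  rw [smul_eq_mul, mul_comm]


/-- A finite-dimensional module over a finitely generated algebra is pure-injective. -/
theorem isPureInjective_of_finite_aux (hg : Algebra.adjoin k (Set.range g) = ⊤)
    (b : Module.Basis ι k M) : IsPureInjective S M := by
  intro A B _ _ _ _ f hf g₀
  letI : Module k A := Module.compHom A (algebraMap k S)
  letI : Module k B := Module.compHom B (algebraMap k S)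
  haveI : IsScalarTower k S A := ⟨fun c s a => by
    show (c • s) • a = algebraMap k S c • (s • a)
    rw [Algebra.smul_def, mul_smul]⟩
  haveI : IsScalarTower k S B := ⟨fun c s a => by
    show (c • s) • a = algebraMap k S c • (s • a)
    rw [Algebra.smul_def, mul_smul]⟩
  have hfk : ∀ (c : k) (a : A), f (c • a) = c • f a := by
    intro c a
    rw [← algebraMap_smul S c a, map_smul, algebraMap_smul]
  have hgk : ∀ (c : k) (a : A), g₀ (c • a) = c • g₀ a := by
    intro c a
    rw [← algebraMap_smul S c a, map_smul, algebraMap_smul]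
  -- the functional on A
  let ΛA : (ι → A) →ₗ[k] k :=
    { toFun := fun a => ∑ i, b.coord i (g₀ (a i))
      map_add' := fun x y => by
        simp only [Pi.add_apply, map_add, Finset.sum_add_distrib]
      map_smul' := fun c x => by
        simp only [Pi.smul_apply, hgk, map_smul, RingHom.id_apply, Finset.smul_sum] }
  let F : (ι → A) →ₗ[k] (ι → B) :=
    { toFun := fun a i => f (a i)
      map_add' := fun x y => by ext i; simp
      map_smul' := fun c x => by ext i; simp [hfk] }
  have hΛA : LinearMap.range (Zmap g b A) ≤ LinearMap.ker ΛA := by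
    rintro _ ⟨w, rfl⟩
    exact functional_of_hom g b g₀ w
  have hF : LinearMap.range (Zmap g b A) ≤ (LinearMap.range (Zmap g b B)).comap F := by
    rintro _ ⟨w, rfl⟩
    refine ⟨fun t i => f (w t i), ?_⟩
    ext i
    show (∑ t, (g t • f (w t i) - ∑ l, coef g b t i l • f (w t l))) =
      f (∑ t, (g t • w t i - ∑ l, coef g b t i l • w t l))
    simp only [map_sum, map_sub, map_smul, hfk]
  let Fq := Submodule.mapQ _ _ F hF
  have hinj : LinearMap.ker Fq = ⊥ := by
    rw [LinearMap.ker_eq_bot']
    intro q
    obtain ⟨a, rfl⟩ := Submodule.Quotient.mk_surjective _ q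
    intro hq
    rw [Submodule.mapQ_apply, Submodule.Quotient.mk_eq_zero] at hq
    obtain ⟨w, hw⟩ := hq
    rw [Submodule.Quotient.mk_eq_zero]
    -- use purity
    have hsolve := isPure_solve hf (ι := σ × ι) (κ := ι) a
      (fun p i => (if p.2 = i then g p.1 else 0) - algebraMap k S (coef g b p.1 i p.2))
      ⟨fun p => w p.1 p.2, fun i => by
        have hi := congrFun hw i
        have hi' : (∑ t, (g t • w t i - ∑ l, coef g b t i l • w t l)) = f (a i) := hi
        rw [← hi', Fintype.sum_prod_type]
        refine Finset.sum_congr rfl fun t _ => ?_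
        simp only [sub_smul, Finset.sum_sub_distrib, algebraMap_smul]
        congr 1
        rw [Finset.sum_eq_single i]
        · simp
        · intro j _ hj
          simp [hj]
        · simp⟩
    obtain ⟨y, hy⟩ := hsolve
    refine ⟨fun t i => y (t, i), ?_⟩
    ext i
    rw [← hy i, Fintype.sum_prod_type]
    show (∑ t, (g t • y (t, i) - ∑ l, coef g b t i l • y (t, l))) = _
    refine Finset.sum_congr rfl fun t _ => ?_
    simp only [sub_smul, Finset.sum_sub_distrib, algebraMap_smul]
    congr 1
    rw [Finset.sum_eq_single i]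
    · simp
    · intro j _ hj
      simp [hj]
    · simp
  obtain ⟨L, hL⟩ := Fq.exists_leftInverse_of_injective hinj
  let ΛAq : ((ι → A) ⧸ LinearMap.range (Zmap g b A)) →ₗ[k] k := Submodule.liftQ _ ΛA hΛA
  let ΛB : (ι → B) →ₗ[k] k := ΛAq ∘ₗ L ∘ₗ Submodule.mkQ _
  have hΛB : ΛB ∘ₗ Zmap g b B = 0 := by
    refine LinearMap.ext fun w => ?_
    show ΛAq (L (Submodule.Quotient.mk (Zmap g b B w))) = 0
    have h0 : (Submodule.Quotient.mk (Zmap g b B w) :
        (ι → B) ⧸ LinearMap.range (Zmap g b B)) = 0 :=
      (Submodule.Quotient.mk_eq_zero _).mpr ⟨w, rfl⟩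
    rw [h0, map_zero, map_zero]
  have hΛBF : ∀ a : ι → A, ΛB (F a) = ΛA a := by
    intro a
    have h1 : Fq (Submodule.Quotient.mk a) = Submodule.Quotient.mk (F a) := rfl
    show ΛAq (L (Submodule.Quotient.mk (F a))) = ΛA a
    rw [← h1]
    have h2 := LinearMap.congr_fun hL (Submodule.Quotient.mk a)
    rw [LinearMap.comp_apply, LinearMap.id_apply] at h2
    rw [h2]
    rfl
  obtain ⟨G, hG⟩ := exists_hom_of_functional g b hg ΛB hΛB
  refine ⟨G, ?_⟩
  ext a
  rw [LinearMap.comp_apply, hG]
  have h3 : ∀ i, ΛB (Pi.single i (f a)) = b.coord i (g₀ a) := by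
    intro i
    have h4 : (Pi.single i (f a) : ι → B) = F (Pi.single i a) := by
      ext j
      show _ = f ((Pi.single i a : ι → A) j)
      by_cases hj : j = i
      · subst hj; simp
      · simp [Pi.single_eq_of_ne hj]
    rw [h4, hΛBF]
    show ∑ j, b.coord j (g₀ ((Pi.single i a : ι → A) j)) = _
    rw [Finset.sum_eq_single i]
    · simp
    · intro j _ hj
      simp [Pi.single_eq_of_ne hj]
    · simp
  simp only [h3]
  exact b.sum_repr (g₀ a)

/-- Fitting's lemma for indecomposable finite-dimensional modules. -/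
lemma bijective_or_isNilpotent [Module.Finite k M] (hM : IsIndec S M) (f : M →ₗ[S] M) :
    Function.Bijective f ∨ ∃ n : ℕ, ∀ m : M, (f^[n]) m = 0 := by
  haveI : IsNoetherian S M := isNoetherian_of_tower k inferInstance
  haveI : IsArtinian S M := isArtinian_of_tower k inferInstance
  let F : Module.End S M := f
  obtain ⟨n₀, hn₀⟩ := Filter.eventually_atTop.mp F.eventually_isCompl_ker_pow_range_pow
  have hc := hn₀ (n₀ + 1) (by omega)
  have hpow : ∀ (n : ℕ) (m : M), (F ^ n) m = (f^[n]) m := by
    intro n m
    rw [Module.End.pow_apply]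
  rcases hM.2 _ _ hc with h | h
  · left
    have hinj : Function.Injective F := by
      rw [← LinearMap.ker_eq_bot, LinearMap.ker_eq_bot']
      intro m hm
      have h1 : m ∈ LinearMap.ker (F ^ (n₀ + 1)) := by
        rw [LinearMap.mem_ker, pow_succ, Module.End.mul_apply, hm, map_zero]
      rw [h, Submodule.mem_bot] at h1
      exact h1
    exact IsArtinian.bijective_of_injective_endomorphism F hinj
  · right
    refine ⟨n₀ + 1, fun m => ?_⟩
    have h1 : (F ^ (n₀ + 1)) m ∈ LinearMap.range (F ^ (n₀ + 1)) := ⟨m, rfl⟩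
    rw [h, Submodule.mem_bot, hpow] at h1
    exact h1

/-- A nilpotent endomorphism has trace zero. -/
lemma sum_coord_eq_zero_of_nilpotent (b : Module.Basis ι k M) (f : M →ₗ[S] M) {n : ℕ}
    (hf : ∀ m : M, (f^[n]) m = 0) : ∑ i, b.coord i (f (b i)) = 0 := by
  have hk : ∀ (c : k) (x : M), f (c • x) = c • f x := by
    intro c x
    rw [← algebraMap_smul S c x, map_smul, algebraMap_smul]
  let f₀ : M →ₗ[k] M :=
    { toFun := f
      map_add' := map_add f
      map_smul' := hk }
  have h1 : IsNilpotent f₀ := by
    refine ⟨n, ?_⟩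
    ext m
    rw [Module.End.pow_apply]
    exact hf m
  have h2 : IsNilpotent (LinearMap.trace k M f₀) := LinearMap.isNilpotent_trace_of_isNilpotent h1
  have h3 : LinearMap.trace k M f₀ = 0 := h2.eq_zero
  rw [LinearMap.trace_eq_matrix_trace k b, Matrix.trace] at h3
  rw [← h3]
  refine Finset.sum_congr rfl fun i _ => ?_
  rw [Matrix.diag_apply, LinearMap.toMatrix_apply]
  rfl

/-- An indecomposable finite-dimensional module over a finitely generated algebra over a field of
characteristic zero is isolated by a pp pair among all indecomposable modules. -/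
theorem exists_isolating_pair (hg : Algebra.adjoin k (Set.range g) = ⊤) [CharZero k]
    (hM : IsIndec S M) (b : Module.Basis ι k M) :
    ∃ φ ψ : PPFormula S, ψ.Le φ ∧ (∃ x : M, φ.Holds M x ∧ ¬ ψ.Holds M x) ∧
      ∀ (N : Type u) [AddCommGroup N] [Module S N], IsIndec S N →
        (∃ x : N, φ.Holds N x ∧ ¬ ψ.Holds N x) → Nonempty (N ≃ₗ[S] M) := by
  haveI : Module.Finite k M := Module.Finite.of_basis b
  haveI : Nontrivial M := hM.1
  obtain ⟨i₀⟩ : Nonempty ι := b.index_nonempty
  -- the formulas
  obtain ⟨φ, hφ⟩ := exists_ppFormula (S := S) (ι := ι) (κ := (σ × ι) ⊕ Unit)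
    (Sum.elim (fun _ => 0) (fun _ => 1))
    (fun j => Sum.elim
      (fun p => (if j = p.2 then g p.1 else 0) - algebraMap k S (coef g b p.1 p.2 j))
      (fun _ => if j = i₀ then -1 else 0))
  obtain ⟨ψ, hψ⟩ := exists_ppFormula (S := S) (ι := ι ⊕ (σ × ι)) (κ := ((σ × ι) ⊕ Unit) ⊕ ι)
    (Sum.elim (Sum.elim (fun _ => 0) (fun _ => 1)) (fun _ => 0))
    (Sum.elim
      (fun j => Sum.elim (Sum.elim
        (fun p => (if j = p.2 then g p.1 else 0) - algebraMap k S (coef g b p.1 p.2 j))
        (fun _ => if j = i₀ then -1 else 0)) (fun i => if j = i then -1 else 0))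
      (fun p => Sum.elim (fun _ => 0)
        (fun i => (if p.2 = i then g p.1 else 0) - algebraMap k S (coef g b p.1 i p.2))))
  have key1 : ∀ (N : Type u) [AddCommGroup N] [Module S N] [Module k N] [IsScalarTower k S N]
      (y : ι → N) (t : σ) (i : ι),
      ∑ j, ((if j = i then g t else 0) - algebraMap k S (coef g b t i j)) • y j =
        g t • y i - ∑ l, coef g b t i l • y l := by
    intro N _ _ _ _ y t i
    simp only [sub_smul, Finset.sum_sub_distrib, algebraMap_smul]
    congr 1
    rw [Finset.sum_eq_single i]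
    · simp
    · intro j _ hj
      simp [hj]
    · simp
  have key2 : ∀ (N : Type u) [AddCommGroup N] [Module S N] (y : ι → N) (i : ι),
      ∑ j, (if j = i then (-1 : S) else 0) • y j = - y i := by
    intro N _ _ y i
    rw [Finset.sum_eq_single i]
    · simp
    · intro j _ hj
      simp [hj]
    · simp
  have key3 : ∀ (N : Type u) [AddCommGroup N] [Module S N] [Module k N] [IsScalarTower k S N]
      (y : σ × ι → N) (i : ι),
        ∑ p : σ × ι, ((if p.2 = i then g p.1 else 0) -
          algebraMap k S (coef g b p.1 i p.2)) • y p =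
        Zmap g b N (fun t l => y (t, l)) i := by
    intro N _ _ _ _ y i
    rw [Fintype.sum_prod_type]
    show _ = (∑ t, (g t • y (t, i) - ∑ l, coef g b t i l • y (t, l)))
    refine Finset.sum_congr rfl fun t _ => ?_
    simp only [sub_smul, Finset.sum_sub_distrib, algebraMap_smul]
    congr 1
    rw [Finset.sum_eq_single i]
    · simp
    · intro j _ hj
      simp [hj]
    · simp
  have hφ' : ∀ (N : Type u) [AddCommGroup N] [Module S N] [Module k N] [IsScalarTower k S N]
      (x : N), φ.Holds N x ↔ ∃ y : ι → N, y i₀ = x ∧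
        ∀ t i, g t • y i = ∑ l, coef g b t i l • y l := by
    intro N _ _ _ _ x
    rw [hφ]
    refine exists_congr fun y => ?_
    rw [Sum.forall]
    simp only [Sum.elim_inl, Sum.elim_inr, zero_smul, zero_add, one_smul, Prod.forall, forall_const,
      key1, key2, sub_eq_zero, ← sub_eq_add_neg]
    constructor
    · rintro ⟨h1, h2⟩
      exact ⟨h2.symm, h1⟩
    · rintro ⟨h1, h2⟩
      exact ⟨h2, h1.symm⟩
  have hψ' : ∀ (N : Type u) [AddCommGroup N] [Module S N] [Module k N] [IsScalarTower k S N]
      (x : N), ψ.Holds N x ↔ ∃ y : ι → N, (y i₀ = x ∧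
        ∀ t i, g t • y i = ∑ l, coef g b t i l • y l) ∧ y ∈ LinearMap.range (Zmap g b N) := by
    intro N _ _ _ _ x
    rw [hψ]
    constructor
    · rintro ⟨y, hy⟩
      rw [Sum.forall, Sum.forall] at hy
      simp only [Fintype.sum_sum_type, Sum.elim_inl, Sum.elim_inr, zero_smul, zero_add, one_smul,
        Prod.forall, forall_const, Finset.sum_const_zero, add_zero,
        key1 N (fun j => y (Sum.inl j)), key2 N (fun j => y (Sum.inl j)),
        key3 N (fun j => y (Sum.inr j)), sub_eq_zero, ← sub_eq_add_neg, neg_add_eq_zero] at hy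
      obtain ⟨⟨h1, h2⟩, h3⟩ := hy
      exact ⟨fun j => y (Sum.inl j), ⟨h2.symm, h1⟩, fun t l => y (Sum.inr (t, l)),
        funext fun i => (h3 i).symm⟩
    · rintro ⟨y, ⟨h1, h2⟩, w, hw⟩
      refine ⟨Sum.elim y (fun p => w p.1 p.2), ?_⟩
      rw [Sum.forall, Sum.forall]
      simp only [Fintype.sum_sum_type, Sum.elim_inl, Sum.elim_inr, zero_smul, zero_add, one_smul,
        Prod.forall, forall_const, Finset.sum_const_zero, add_zero,
        key1 N y, key2 N y,
        key3 N (fun p => w p.1 p.2), sub_eq_zero, ← sub_eq_add_neg, neg_add_eq_zero]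
      exact ⟨⟨h2, h1.symm⟩, fun i => (congrFun hw i).symm⟩
  refine ⟨φ, ψ, ?_, ?_, ?_⟩
  · intro N _ _ x hx
    letI : Module k N := Module.compHom N (algebraMap k S)
    haveI : IsScalarTower k S N := ⟨fun c s a => by
      show (c • s) • a = algebraMap k S c • (s • a)
      rw [Algebra.smul_def, mul_smul]⟩
    rw [hψ'] at hx
    rw [hφ']
    obtain ⟨y, hy, _⟩ := hx
    exact ⟨y, hy⟩
  · refine ⟨b i₀, ?_, ?_⟩
    · rw [hφ']
      exact ⟨b, rfl, fun t i => smul_basis g b t i⟩
    · rw [hψ']
      rintro ⟨y, ⟨hy1, hy2⟩, w, hw⟩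
      -- the endomorphism
      let f₀ : M →ₗ[k] M := b.constr k y
      have hf₀ : ∀ i, f₀ (b i) = y i := fun i => b.constr_basis k _ i
      have hcomm : ∀ t (m : M), f₀ (g t • m) = g t • f₀ m := by
        intro t m
        conv_lhs => rw [← b.sum_repr m]
        conv_rhs => rw [← b.sum_repr m]
        simp only [Finset.smul_sum, map_sum, map_smul, smul_algebra_smul_comm, hf₀]
        refine Finset.sum_congr rfl fun i _ => ?_
        congr 1
        rw [smul_basis, map_sum, hy2]
        refine Finset.sum_congr rfl fun l _ => ?_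
        rw [map_smul, hf₀]
      let f : M →ₗ[S] M :=
        { f₀ with map_smul' := fun s m => map_smul_of_generators g hg f₀ hcomm s m }
      have hf : ∀ i, f (b i) = y i := hf₀
      have h1 := functional_of_hom g b (LinearMap.id : M →ₗ[S] M) w
      rw [hw] at h1
      simp only [LinearMap.id_apply, ← hf] at h1
      have hnil : ∃ n : ℕ, ∀ m : M, ((⇑(f - (LinearMap.id : M →ₗ[S] M)))^[n]) m = 0 := by
        rcases bijective_or_isNilpotent (k := k) hM (f - (LinearMap.id : M →ₗ[S] M)) with h | h
        · exfalso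
          have h2 : (f - (LinearMap.id : M →ₗ[S] M)) (b i₀) = 0 := by
            rw [LinearMap.sub_apply, hf, hy1, LinearMap.id_apply, sub_self]
          exact b.ne_zero i₀ (h.1 (by rw [h2, map_zero]))
        · exact h
      obtain ⟨n, hn⟩ := hnil
      have h2 := sum_coord_eq_zero_of_nilpotent b (f - (LinearMap.id : M →ₗ[S] M)) hn
      simp only [LinearMap.sub_apply, LinearMap.id_apply, map_sub, Finset.sum_sub_distrib, h1,
        zero_sub, neg_eq_zero] at h2
      simp only [Module.Basis.coord_apply, Module.Basis.repr_self,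
        Finsupp.single_eq_same, Finset.sum_const, Finset.card_univ, nsmul_eq_mul, mul_one] at h2
      have h3 : (Fintype.card ι : k) ≠ 0 := by
        haveI : Nonempty ι := ⟨i₀⟩
        exact_mod_cast Fintype.card_ne_zero
      exact h3 h2
  · intro N _ _ hN hx
    letI : Module k N := Module.compHom N (algebraMap k S)
    haveI : IsScalarTower k S N := ⟨fun c s a => by
      show (c • s) • a = algebraMap k S c • (s • a)
      rw [Algebra.smul_def, mul_smul]⟩
    obtain ⟨x, hx1, hx2⟩ := hx
    rw [hφ'] at hx1
    obtain ⟨x', hx0, hx1⟩ := hx1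
    have hx3 : x' ∉ LinearMap.range (Zmap g b N) := by
      intro h
      apply hx2
      rw [hψ']
      exact ⟨x', ⟨hx0, hx1⟩, h⟩
    obtain ⟨Λ, hΛ1, hΛ2⟩ := Submodule.exists_le_ker_of_notMem hx3
    have hΛ3 : Λ ∘ₗ Zmap g b N = 0 := by
      refine LinearMap.ext fun w => ?_
      exact hΛ2 ⟨w, rfl⟩
    obtain ⟨G, hG⟩ := exists_hom_of_functional g b hg Λ hΛ3
    -- the homomorphism M → N
    let h₀ : M →ₗ[k] N := b.constr k x'
    have hh₀ : ∀ i, h₀ (b i) = x' i := fun i => b.constr_basis k _ i
    have hcomm : ∀ t (m : M), h₀ (g t • m) = g t • h₀ m := by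
      intro t m
      conv_lhs => rw [← b.sum_repr m]
      conv_rhs => rw [← b.sum_repr m]
      simp only [Finset.smul_sum, map_sum, map_smul, smul_algebra_smul_comm, hh₀]
      refine Finset.sum_congr rfl fun i _ => ?_
      congr 1
      rw [smul_basis, map_sum, hx1]
      refine Finset.sum_congr rfl fun l _ => ?_
      rw [map_smul, hh₀]
    let h : M →ₗ[S] N := { h₀ with map_smul' := fun s m => map_smul_of_generators g hg h₀ hcomm s m }
    have hh : ∀ i, h (b i) = x' i := hh₀
    have hbij : Function.Bijective (G ∘ₗ h) := by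
      rcases bijective_or_isNilpotent (k := k) hM (G ∘ₗ h) with h1 | ⟨n, hn⟩
      · exact h1
      · exfalso
        apply hΛ1
        have h2 := sum_coord_eq_zero_of_nilpotent b (G ∘ₗ h) hn
        have h3 : ∀ i, b.coord i ((G ∘ₗ h) (b i)) = Λ (Pi.single i (x' i)) := by
          intro i
          rw [LinearMap.comp_apply, hh, hG, map_sum, Finset.sum_eq_single i]
          · simp
          · intro j _ hj
            simp [hj]
          · simp
        simp only [h3] at h2
        have h4 : x' = ∑ j, (Pi.single j (x' j) : ι → N) := by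
          ext i
          simp [Finset.sum_apply]
        rw [h4, map_sum]
        exact h2
    have hGsurj : Function.Surjective G := by
      intro m
      obtain ⟨m', hm'⟩ := hbij.2 m
      exact ⟨h m', hm'⟩
    have hcompl : IsCompl (LinearMap.range h) (LinearMap.ker G) := by
      constructor
      · rw [Submodule.disjoint_def]
        rintro _ ⟨m, rfl⟩ hm
        have h1 : (G ∘ₗ h) m = 0 := hm
        have h2 : m = 0 := hbij.1 (by rw [h1, map_zero])
        rw [h2, map_zero]
      · rw [codisjoint_iff, eq_top_iff]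
        intro n _
        obtain ⟨m, hm⟩ := hbij.2 (G n)
        have h1 : n = h m + (n - h m) := by abel
        rw [h1]
        refine Submodule.add_mem_sup ⟨m, rfl⟩ ?_
        rw [LinearMap.mem_ker, map_sub, sub_eq_zero]
        exact hm.symm
    rcases hN.2 _ _ hcompl with h1 | h1
    · exfalso
      have h2 : h (b i₀) ∈ LinearMap.range h := ⟨b i₀, rfl⟩
      rw [h1, Submodule.mem_bot] at h2
      have h3 : (G ∘ₗ h) (b i₀) = (G ∘ₗ h) 0 := by
        rw [LinearMap.comp_apply, h2, map_zero, map_zero]
      exact b.ne_zero i₀ (hbij.1 h3)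
    · exact ⟨LinearEquiv.ofBijective G ⟨LinearMap.ker_eq_bot.mp h1, hGsurj⟩⟩

end

end Pool.Agent.Work.MP_883c56_al
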