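import Pool.Agent.Work.MP_883c56_al.PPSum

set_option autoImplicit false
set_option linter.unusedSectionVars false
set_option linter.style.haveILetI false

universe u

namespace Pool.Agent.Work.MP_883c56_al

open Finset

variable {S : Type u} [Ring S]

lemma PP.exists_and {n : ℕ} (φ ψ : PP S n) : ∃ χ : PP S n, ∀ (M : Type u) [AddCommGroup M]
    [Module S M] (x : Fin n → M), χ.Holds M x ↔ φ.Holds M x ∧ ψ.Holds M x := by
  classical
  obtain ⟨χ, hχ⟩ := exists_PP (S := S) (n := n) (V := Fin φ.V ⊕ Fin ψ.V)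
    (J := Fin φ.J ⊕ Fin ψ.J)
    (Sum.elim φ.A ψ.A)
    (Sum.elim (fun j => Sum.elim (φ.B j) (fun _ => 0))
      (fun j => Sum.elim (fun _ => 0) (ψ.B j)))
  refine ⟨χ, fun M _ _ x => ?_⟩
  rw [hχ]
  constructor
  · rintro ⟨y, hy⟩
    refine ⟨⟨fun v => y (Sum.inl v), fun j => ?_⟩, ⟨fun v => y (Sum.inr v), fun j => ?_⟩⟩
    · have := hy (Sum.inl j)
      simpa using this
    · have := hy (Sum.inr j)
      simpa using this
  · rintro ⟨⟨y, hy⟩, ⟨z, hz⟩⟩
    refine ⟨Sum.elim y z, ?_⟩
    rw [Sum.forall]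
    refine ⟨fun j => ?_, fun j => ?_⟩
    · have := hy j
      simpa using this
    · have := hz j
      simpa using this

lemma PP.exists_subst {n n' : ℕ} (φ : PP S n') (c : Fin n' → Fin n → S) :
    ∃ χ : PP S n, ∀ (M : Type u) [AddCommGroup M] [Module S M] (x : Fin n → M),
      χ.Holds M x ↔ φ.Holds M (fun j => ∑ g, c j g • x g) := by
  classical
  obtain ⟨χ, hχ⟩ := exists_PP (S := S) (n := n) (V := Fin φ.V) (J := Fin φ.J)
    (fun j g => ∑ i, φ.A j i * c i g) φ.B
  refine ⟨χ, fun M _ _ x => ?_⟩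
  rw [hχ]
  have key : ∀ j, ∑ g, (∑ i, φ.A j i * c i g) • x g = ∑ i, φ.A j i • ∑ g, c i g • x g := by
    intro j
    simp only [Finset.sum_smul, Finset.smul_sum, mul_smul]
    exact Finset.sum_comm
  constructor
  · rintro ⟨y, hy⟩
    refine ⟨y, fun j => ?_⟩
    rw [← key]
    exact hy j
  · rintro ⟨y, hy⟩
    refine ⟨y, fun j => ?_⟩
    rw [key]
    exact hy j

/-- The pure-injective hull of an indecomposable module of finite length over a noetherian ring
is indecomposable. -/
theorem isIndec_hull [IsNoetherianRing S] {M H : Type u} [AddCommGroup M] [Module S M]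
    [IsNoetherian S M] [IsArtinian S M] [AddCommGroup H] [Module S H] (hM : IsIndec S M)
    {i : M →ₗ[S] H} (hi : IsPureInjectiveHull i) : IsIndec S H := by
  classical
  haveI := hM.1
  refine ⟨hi.1.1.nontrivial, ?_⟩
  obtain ⟨n, m, hm⟩ := Module.Finite.exists_fin (R := S) (M := M)
  obtain ⟨Θ, hΘ1, hΘ2⟩ := exists_presentation (S := S) m
  -- the main claim
  have main : ∀ (p q : Submodule S H) (hpq : IsCompl p q),
      (∀ ψ : PP S n, ψ.Holds H (fun g => p.projection q hpq (i (m g))) → ψ.Holds M m) →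
      q = ⊥ := by
    intro p q hpq hψ
    have hpure : IsPure ((p.projection q hpq) ∘ₗ i) := by
      apply isPure_of_reflects
      intro n' φ x hx
      have hcoef : ∀ a, ∃ c : Fin n → S, ∑ g, c g • m g = x a := by
        intro a
        have h1 : x a ∈ Submodule.span S (Set.range m) := by rw [hm]; trivial
        exact (Submodule.mem_span_range_iff_exists_fun S).mp h1
      choose c hc using hcoef
      obtain ⟨χ, hχ⟩ := PP.exists_subst φ c
      have h1 : χ.Holds H (fun g => p.projection q hpq (i (m g))) := by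
        rw [hχ]
        have h2 : (fun j => ∑ g, c j g • p.projection q hpq (i (m g))) =
            (fun j => ((p.projection q hpq) ∘ₗ i) (x j)) := by
          funext j
          rw [← hc j, map_sum]
          refine Finset.sum_congr rfl fun g _ => ?_
          rw [map_smul]
          rfl
        rw [h2]
        exact hx
      have h2 := hψ χ h1
      rw [hχ] at h2
      have h3 : (fun j => ∑ g, c j g • m g) = x := funext hc
      rwa [h3] at h2
    have h1 := hi.2.2 H _ hpure
    rw [eq_bot_iff]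
    intro x hx
    rw [Submodule.mem_bot]
    apply h1.1
    rw [map_zero]
    exact Submodule.projection_apply_right hpq ⟨x, hx⟩
  intro p q hpq
  by_cases h1 : ∀ ψ : PP S n, ψ.Holds H (fun g => p.projection q hpq (i (m g))) → ψ.Holds M m
  · exact Or.inr (main p q hpq h1)
  by_cases h2 : ∀ ψ : PP S n, ψ.Holds H (fun g => q.projection p hpq.symm (i (m g))) →
      ψ.Holds M m
  · exact Or.inl (main q p hpq.symm h2)
  exfalso
  push Not at h1 h2
  obtain ⟨ψ1, h11, h12⟩ := h1
  obtain ⟨ψ2, h21, h22⟩ := h2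
  obtain ⟨χ1, hχ1⟩ := PP.exists_and Θ ψ1
  obtain ⟨χ2, hχ2⟩ := PP.exists_and Θ ψ2
  obtain ⟨Ψ, hΨ⟩ := PP.exists_add χ1 χ2
  have h3 : Ψ.Holds H (fun g => i (m g)) := by
    rw [hΨ]
    refine ⟨fun g => p.projection q hpq (i (m g)), ?_, ?_⟩
    · rw [hχ1]
      exact ⟨hΘ1.map ((p.projection q hpq) ∘ₗ i), h11⟩
    · have h4 : (fun g => i (m g)) - (fun g => p.projection q hpq (i (m g))) =
          (fun g => q.projection p hpq.symm (i (m g))) := by
        funext g
        have := Submodule.projection_add_projection_eq_self hpq (i (m g))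
        rw [Pi.sub_apply]
        nth_rewrite 1 [← this]
        abel
      rw [h4, hχ2]
      exact ⟨hΘ1.map ((q.projection p hpq.symm) ∘ₗ i), h21⟩
  have h5 := hi.1.holds h3
  rw [hΨ] at h5
  obtain ⟨x', h6, h7⟩ := h5
  rw [hχ1] at h6
  rw [hχ2] at h7
  obtain ⟨f1, hf1⟩ := exists_hom_of_relations hm x' (hΘ2 M x' h6.1)
  obtain ⟨f2, hf2⟩ := exists_hom_of_relations hm (m - x') (hΘ2 M _ h7.1)
  let F1 : Module.End S M := f1
  let F2 : Module.End S M := f2
  have hsum : F2 = 1 - F1 := by
    apply LinearMap.ext_on hm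
    rintro _ ⟨g, rfl⟩
    rw [LinearMap.sub_apply, Module.End.one_apply]
    show f2 (m g) = m g - f1 (m g)
    rw [hf1, hf2]
    rfl
  have key : ∀ (F : Module.End S M) (x : Fin n → M) (ψ : PP S n), (∀ g, F (m g) = x g) →
      Function.Bijective F → ψ.Holds M x → ψ.Holds M m := by
    intro F x ψ hF hb hψ
    let ε := LinearEquiv.ofBijective F hb
    have h8 := hψ.map (ε.symm : M →ₗ[S] M)
    have h9 : (fun g => (ε.symm : M →ₗ[S] M) (x g)) = m := by
      funext g
      rw [← hF g]
      exact ε.symm_apply_apply (m g)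
    rwa [h9] at h8
  rcases bijective_or_nilpotent' hM F1 with h8 | h8
  · exact h12 (key F1 x' ψ1 hf1 h8 h6.2)
  · have h9 : IsUnit F2 := by
      rw [hsum]
      exact h8.isUnit_one_sub
    rw [isUnit_iff_bijective] at h9
    exact h22 (key F2 _ ψ2 hf2 h9 h7.2)

end Pool.Agent.Work.MP_883c56_al
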