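import Pool.Agent.Work.MP_883c56_al.Eigen

set_option autoImplicit false
set_option linter.unusedSectionVars false
set_option linter.style.haveILetI false

universe u

namespace Pool.Agent.Work.MP_883c56_al

section

variable {k : Type u} [Field k] {S : Type u} [Ring S] [Algebra k S]
  {T : Type u} [AddCommGroup T] [Module S T] [Module k T] [IsScalarTower k S T]
  {ι : Type} [Fintype ι] [DecidableEq ι] (X : ι → S) (v : T)

variable (k) in
/-- The span of the words of length `< m`. -/
def VV (m : ℕ) : Submodule k T :=
  Submodule.span k {t | ∃ l : List ι, l.length < m ∧ t = (l.map X).prod • v}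

lemma VV_finite (m : ℕ) : Module.Finite k (VV k X v m) := by
  apply FiniteDimensional.span_of_finite
  have h : {t : T | ∃ l : List ι, l.length < m ∧ t = (l.map X).prod • v} =
      (fun l : List ι => (l.map X).prod • v) '' {l | l.length < m} := by
    ext t
    constructor
    · rintro ⟨l, hl, rfl⟩
      exact ⟨l, hl, rfl⟩
    · rintro ⟨l, hl, rfl⟩
      exact ⟨l, hl, rfl⟩
  rw [h]
  exact (List.finite_length_lt ι m).image _

lemma VV_mono {n m : ℕ} (h : n ≤ m) : VV k X v n ≤ VV k X v m := by
  apply Submodule.span_mono
  rintro t ⟨l, hl, ht⟩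
  exact ⟨l, hl.trans_le h, ht⟩

lemma smul_VV (i : ι) {m : ℕ} {t : T} (ht : t ∈ VV k X v m) : X i • t ∈ VV k X v (m + 1) := by
  induction ht using Submodule.span_induction with
  | mem t ht =>
    obtain ⟨l, hl, rfl⟩ := ht
    refine Submodule.subset_span ⟨i :: l, by simpa using hl, ?_⟩
    rw [List.map_cons, List.prod_cons, mul_smul]
  | zero => rw [smul_zero]; exact Submodule.zero_mem _
  | add a b _ _ ha hb => rw [smul_add]; exact Submodule.add_mem _ ha hb
  | smul c a _ ha =>
    rw [smul_algebra_smul_comm]
    exact Submodule.smul_mem _ c ha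

lemma list_smul_VV (l : List ι) {m : ℕ} {t : T} (ht : t ∈ VV k X v m) :
    (l.map X).prod • t ∈ VV k X v (m + l.length) := by
  induction l with
  | nil => simpa using ht
  | cons i l ih =>
    rw [List.map_cons, List.prod_cons, mul_smul, List.length_cons, ← add_assoc]
    exact smul_VV X v i ih

lemma span_smul_VV {z : S} (hz : z ∈ Submodule.span k (Set.range X)) {m : ℕ} {t : T}
    (ht : t ∈ VV k X v m) : z • t ∈ VV k X v (m + 1) := by
  induction hz using Submodule.span_induction with
  | mem z hz =>
    obtain ⟨i, rfl⟩ := hz
    exact smul_VV X v i ht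
  | zero => rw [zero_smul]; exact Submodule.zero_mem _
  | add a b _ _ ha hb => rw [add_smul]; exact Submodule.add_mem _ ha hb
  | smul c a _ ha =>
    rw [smul_assoc]
    exact Submodule.smul_mem _ c ha

lemma word_mem (l : List ι) {m : ℕ} (h : l.length < m) : (l.map X).prod • v ∈ VV k X v m :=
  Submodule.subset_span ⟨l, h, rfl⟩

lemma perm_mem (hcomm : ∀ i j, X i * X j - X j * X i ∈ Submodule.span k (Set.range X))
    {l l' : List ι} (h : l.Perm l') :
    (l.map X).prod • v - (l'.map X).prod • v ∈ VV k X v l.length := by
  induction h with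
  | nil => rw [sub_self]; exact Submodule.zero_mem _
  | cons i _ ih =>
    rw [List.map_cons, List.prod_cons, mul_smul, List.map_cons, List.prod_cons, mul_smul,
      ← smul_sub, List.length_cons]
    exact smul_VV X v i ih
  | swap i j l =>
    have e : ((j :: i :: l).map X).prod • v - ((i :: j :: l).map X).prod • v =
        (X j * X i - X i * X j) • ((l.map X).prod • v) := by
      simp only [List.map_cons, List.prod_cons, mul_smul, sub_smul]
    rw [e, List.length_cons, List.length_cons]
    exact span_smul_VV X v (hcomm j i) (word_mem X v l (Nat.lt_succ_self _))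
  | trans h1 _ ih1 ih2 =>
    rename_i l1 l2 l3 _
    have := Submodule.add_mem _ ih1 (h1.length_eq ▸ ih2)
    rwa [sub_add_sub_cancel] at this

lemma pow_mem_of_eig (i : ι) (α : k) (n : ℕ) :
    X i ^ n • v - (X i - algebraMap k S α) ^ n • v ∈ VV k X v n := by
  induction n with
  | zero => rw [pow_zero, pow_zero, sub_self]; exact Submodule.zero_mem _
  | succ n ih =>
    have h1 : X i ^ (n + 1) • v - (X i - algebraMap k S α) ^ (n + 1) • v =
        X i • (X i ^ n • v - (X i - algebraMap k S α) ^ n • v)
        + α • (X i ^ n • v - (X i ^ n • v - (X i - algebraMap k S α) ^ n • v)) := by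
      rw [pow_succ' (X i) n, pow_succ' (X i - algebraMap k S α) n, mul_smul, mul_smul, sub_smul,
        algebraMap_smul]
      simp only [smul_sub]
      abel
    rw [h1]
    have h2 : X i ^ n • v ∈ VV k X v (n + 1) := by
      have := word_mem (k := k) X v (List.replicate n i) (m := n + 1) (by simp)
      rwa [List.map_replicate, List.prod_replicate] at this
    exact Submodule.add_mem _ (smul_VV X v i ih)
      (Submodule.smul_mem _ α (Submodule.sub_mem _ h2 (VV_mono X v (Nat.le_succ n) ih)))

theorem finite_of_locally_finite (hadj : Algebra.adjoin k (Set.range X) = ⊤)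
    (hcomm : ∀ i j, X i * X j - X j * X i ∈ Submodule.span k (Set.range X))
    (hd : ∀ i, ∃ d : ℕ, X i ^ d • v ∈ VV k X v d) (hv : ∀ t : T, ∃ s : S, s • v = t) :
    Module.Finite k T := by
  choose d hd using hd
  set D := ∑ i, d i + 1 with hD
  have hpow : ∀ i c, d i ≤ c → X i ^ c • v ∈ VV k X v c := by
    intro i c hc
    obtain ⟨e, rfl⟩ := Nat.exists_eq_add_of_le hc
    have := list_smul_VV (k := k) X v (List.replicate e i) (hd i)
    rwa [List.map_replicate, List.prod_replicate, ← mul_smul, ← pow_add, List.length_replicate,
      add_comm e] at this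
  have hword : ∀ l : List ι, D ≤ l.length → (l.map X).prod • v ∈ VV k X v l.length := by
    intro l hl
    have h1 : ∃ i, d i ≤ l.count i := by
      by_contra hcon
      push Not at hcon
      have h2 : ∑ i, l.count i = l.length := by
        have := Multiset.sum_count_eq_card (s := Finset.univ) (m := (l : Multiset ι))
          (fun a _ => Finset.mem_univ a)
        simpa using this
      have h3 : ∑ i, l.count i ≤ ∑ i, d i := Finset.sum_le_sum fun i _ => (hcon i).le
      omega
    obtain ⟨i, hi⟩ := h1
    have hperm : l.Perm (l.filter (fun j => ¬ (j = i)) ++ List.replicate (l.count i) i) := by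
      have h2 := List.filter_append_perm (fun j => decide (¬ (j = i))) l
      have h3 : List.filter (fun x => !decide (¬ (x = i))) l = List.replicate (l.count i) i := by
        rw [← List.filter_beq]
        congr 1
        funext j
        by_cases hj : j = i <;> simp [hj]
      rw [h3] at h2
      exact h2.symm
    have h4 := perm_mem (k := k) X v hcomm hperm
    have h5 : ((l.filter (fun j => ¬ (j = i)) ++ List.replicate (l.count i) i).map X).prod • v ∈
        VV k X v l.length := by
      rw [List.map_append, List.prod_append, List.map_replicate, List.prod_replicate, mul_smul]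
      have h6 := list_smul_VV (k := k) X v (l.filter (fun j => ¬ (j = i))) (hpow i _ hi)
      have h7 : l.count i + (l.filter (fun j => ¬ (j = i))).length = l.length := by
        have := hperm.length_eq
        rw [List.length_append, List.length_replicate] at this
        omega
      rwa [h7] at h6
    have := Submodule.add_mem _ h4 h5
    rwa [sub_add_cancel] at this
  have hstep : ∀ m, D ≤ m → VV k X v (m + 1) ≤ VV k X v m := by
    intro m hm
    apply Submodule.span_le.mpr
    rintro t ⟨l, hl, rfl⟩
    by_cases h : l.length < m
    · exact word_mem X v l h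
    · have h1 : l.length = m := by omega
      have := hword l (by omega)
      rwa [h1] at this
  have hstab : ∀ t ∈ VV k X v D, ∀ s : S, s • t ∈ VV k X v D := by
    intro t ht s
    have hs : s ∈ Algebra.adjoin k (Set.range X) := by rw [hadj]; trivial
    induction hs using Algebra.adjoin_induction generalizing t with
    | mem s hs =>
      obtain ⟨i, rfl⟩ := hs
      exact hstep D le_rfl (smul_VV X v i ht)
    | algebraMap c =>
      rw [algebraMap_smul]
      exact Submodule.smul_mem _ c ht
    | add a b _ _ ha hb =>
      rw [add_smul]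
      exact Submodule.add_mem _ (ha t ht) (hb t ht)
    | mul a b _ _ ha hb =>
      rw [mul_smul]
      exact ha _ (hb t ht)
  have hvD : v ∈ VV k X v D := by
    have := word_mem (k := k) X v [] (m := D) (by simp [hD])
    simpa using this
  have htop : VV k X v D = ⊤ := by
    rw [eq_top_iff]
    intro t _
    obtain ⟨s, rfl⟩ := hv t
    exact hstab v hvD s
  haveI := VV_finite (k := k) X v D
  rw [htop] at this
  exact Module.Finite.equiv (Submodule.topEquiv (R := k) (M := T))

end

section

variable {k : Type u} [Field k] {S : Type u} [Ring S] [Algebra k S]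

/-- The set of `α` for which `x - α` is not surjective on `M`. -/
def BadSet (k : Type u) [Field k] {S : Type u} [Ring S] [Algebra k S] (x : S) (M : Type u)
    [AddCommGroup M] [Module S M] : Set k :=
  {α : k | ¬ ∀ t : M, ∃ t' : M, (x - algebraMap k S α) • t' = t}

/-- On a simple module, an element with an eigenvector is locally finite. -/
lemma locally_nilpotent_of_simple {x : S} {G : Set S} (hG : Algebra.adjoin k G = ⊤)
    (hx : ∀ g ∈ G, ∃ n, AdNil x n g) {T : Type u} [AddCommGroup T] [Module S T]
    (hT : ∀ p : Submodule S T, p = ⊥ ∨ p = ⊤) {α : k} {t : T} (ht : t ≠ 0)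
    (h : (x - algebraMap k S α) • t = 0) (v : T) :
    ∃ n : ℕ, (x - algebraMap k S α) ^ n • v = 0 := by
  let V : Submodule S T :=
    { carrier := {w | ∃ n : ℕ, (x - algebraMap k S α) ^ n • w = 0}
      add_mem' := by
        rintro a b ⟨n, hn⟩ ⟨m, hm⟩
        refine ⟨n + m, ?_⟩
        rw [smul_add, pow_add, mul_smul, mul_smul, hm, smul_zero, add_zero, ← mul_smul, ← pow_add,
          add_comm n m, pow_add, mul_smul, hn, smul_zero]
      zero_mem' := ⟨0, by simp⟩
      smul_mem' := fun s w hw => genEig_smul hG hx α s w hw }
  have htV : t ∈ V := ⟨1, by rw [pow_one]; exact h⟩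
  rcases hT V with h1 | h1
  · exfalso
    rw [h1, Submodule.mem_bot] at htV
    exact ht htV
  · have : v ∈ V := by rw [h1]; trivial
    exact this

theorem simple_finite [IsAlgClosed k] {E H F : S} (hg : IsSl2Gen k E H F)
    (T : Type u) [AddCommGroup T] [Module S T] [Module k T] [IsScalarTower k S T]
    (hT : ∀ p : Submodule S T, p = ⊥ ∨ p = ⊤)
    (h1 : (BadSet k E T).Finite) (h2 : (BadSet k F T).Finite)
    (h3 : (BadSet k (F + H - E) T).Finite) : Module.Finite k T := by
  classical
  by_cases hv : ∃ v : T, v ≠ 0
  · obtain ⟨v, hv⟩ := hv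
    obtain ⟨α1, t1, ht1, e1⟩ := exists_eigenvector T hg hT hv h1
    obtain ⟨α2, t2, ht2, e2⟩ := exists_eigenvector T hg.two hT hv h2
    obtain ⟨α3, t3, ht3, e3⟩ := exists_eigenvector T hg.three hT hv h3
    let X : Fin 3 → S := ![E, F, F + H - E]
    have mE : E ∈ Submodule.span k (Set.range X) := Submodule.subset_span ⟨0, rfl⟩
    have mF : F ∈ Submodule.span k (Set.range X) := Submodule.subset_span ⟨1, rfl⟩
    have mX : F + H - E ∈ Submodule.span k (Set.range X) := Submodule.subset_span ⟨2, rfl⟩
    have mH : H ∈ Submodule.span k (Set.range X) := by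
      have h4 := Submodule.add_mem _ (Submodule.sub_mem _ mX mF) mE
      have h5 : F + H - E - F + E = H := by abel
      rwa [h5] at h4
    have m2 : ∀ z ∈ Submodule.span k (Set.range X), 2 * z ∈ Submodule.span k (Set.range X) := by
      intro z hz
      rw [two_mul]
      exact Submodule.add_mem _ hz hz
    have c1 : E * F - F * E = H := by rw [hg.ef]; abel
    have c2 : E * (F + H - E) - (F + H - E) * E = H - 2 * E := by
      have e1 : E * (F + H - E) - (F + H - E) * E = (E * F - F * E) - (H * E - E * H) := by
        noncomm_ring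
      rw [e1, c1, hg.he]
      noncomm_ring
    have c3 : F * (F + H - E) - (F + H - E) * F = 2 * F + H := by
      have e1 : F * (F + H - E) - (F + H - E) * F = (E * F - F * E) - (H * F - F * H) := by
        noncomm_ring
      rw [e1, c1, hg.hf]
      noncomm_ring
    have d1 : H ∈ Submodule.span k (Set.range X) := mH
    have d2 : H - 2 * E ∈ Submodule.span k (Set.range X) :=
      Submodule.sub_mem _ mH (m2 _ mE)
    have d3 : 2 * F + H ∈ Submodule.span k (Set.range X) :=
      Submodule.add_mem _ (m2 _ mF) mH
    refine finite_of_locally_finite (k := k) X v ?_ ?_ ?_ ?_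
    · rw [eq_top_iff, ← hg.adj]
      apply Algebra.adjoin_le
      have hle : ∀ z ∈ Submodule.span k (Set.range X), z ∈ Algebra.adjoin k (Set.range X) :=
        fun z hz => Algebra.span_le_adjoin k _ hz
      rintro z (rfl | rfl | rfl)
      · exact hle _ mE
      · exact hle _ mH
      · exact hle _ mF
    · intro i j
      fin_cases i <;> fin_cases j
      · show E * E - E * E ∈ _
        rw [sub_self]; exact Submodule.zero_mem _
      · show E * F - F * E ∈ _
        rw [c1]; exact d1
      · show E * (F + H - E) - (F + H - E) * E ∈ _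
        rw [c2]; exact d2
      · show F * E - E * F ∈ _
        rw [← neg_sub, c1]; exact Submodule.neg_mem _ d1
      · show F * F - F * F ∈ _
        rw [sub_self]; exact Submodule.zero_mem _
      · show F * (F + H - E) - (F + H - E) * F ∈ _
        rw [c3]; exact d3
      · show (F + H - E) * E - E * (F + H - E) ∈ _
        rw [← neg_sub, c2]; exact Submodule.neg_mem _ d2
      · show (F + H - E) * F - F * (F + H - E) ∈ _
        rw [← neg_sub, c3]; exact Submodule.neg_mem _ d3
      · show (F + H - E) * (F + H - E) - (F + H - E) * (F + H - E) ∈ _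
        rw [sub_self]; exact Submodule.zero_mem _
    · have key : ∀ (i : Fin 3) (α : k), (∃ n : ℕ, (X i - algebraMap k S α) ^ n • v = 0) →
          ∃ d : ℕ, X i ^ d • v ∈ VV k X v d := by
        rintro i α ⟨n, hn⟩
        refine ⟨n, ?_⟩
        have := pow_mem_of_eig X v i α n
        rwa [hn, sub_zero] at this
      intro i
      fin_cases i
      · exact key 0 α1 (locally_nilpotent_of_simple hg.adj hg.adNil hT ht1 e1 v)
      · exact key 1 α2 (locally_nilpotent_of_simple hg.two.adj hg.two.adNil hT ht2 e2 v)
      · exact key 2 α3 (locally_nilpotent_of_simple hg.three.adj hg.three.adNil hT ht3 e3 v)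
    · intro t
      rcases hT (Submodule.span S {v}) with h4 | h4
      · exfalso
        apply hv
        have : v ∈ Submodule.span S {v} := Submodule.subset_span rfl
        rwa [h4, Submodule.mem_bot] at this
      · have : t ∈ Submodule.span S {v} := by rw [h4]; trivial
        exact Submodule.mem_span_singleton.mp this
  · push Not at hv
    haveI : Subsingleton T := ⟨fun a b => by rw [hv a, hv b]⟩
    infer_instance

theorem finite_of_isFiniteLength [IsAlgClosed k] {E H F : S} (hg : IsSl2Gen k E H F)
    (M : Type u) [AddCommGroup M] [Module S M] (hM : IsFiniteLength S M)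
    (i1 : Module k M) (i2 : IsScalarTower k S M)
    (h1 : (BadSet k E M).Finite) (h2 : (BadSet k F M).Finite)
    (h3 : (BadSet k (F + H - E) M).Finite) : Module.Finite k M := by
  induction hM with
  | of_subsingleton => infer_instance
  | of_simple_quotient hN ih =>
    rename_i M _ _ N hs
    haveI : IsNoetherianRing S := hg.isNoetherianRing
    have hT : ∀ p : Submodule S (M ⧸ N), p = ⊥ ∨ p = ⊤ := fun p => eq_bot_or_eq_top p
    have hq : ∀ x : S, BadSet k x (M ⧸ N) ⊆ BadSet k x M := by
      intro x α hα hcon
      apply hα
      intro t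
      obtain ⟨m, rfl⟩ := Submodule.Quotient.mk_surjective N t
      obtain ⟨m', hm'⟩ := hcon m
      exact ⟨Submodule.Quotient.mk m', by rw [← Submodule.Quotient.mk_smul, hm']⟩
    have hs : ∀ x : S, (BadSet k x M).Finite → ∀ G : Set S, Algebra.adjoin k G = ⊤ →
        (∀ g ∈ G, ∃ n, AdNil x n g) → (BadSet k x N).Finite := by
      intro x hx G hG hxG
      refine (hx.union (finite_eigenvalues (k := k) hG hxG (M ⧸ N))).subset ?_
      intro α hα
      by_contra hcon
      rw [Set.mem_union, not_or] at hcon
      obtain ⟨hc1, hc2⟩ := hcon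
      apply hα
      intro t
      have hc1' : ∀ t : M, ∃ t' : M, (x - algebraMap k S α) • t' = t := not_not.mp hc1
      obtain ⟨m, hm⟩ := hc1' t
      have hmN : m ∈ N := by
        by_contra hmN
        apply hc2
        refine ⟨Submodule.Quotient.mk m, ?_, ?_⟩
        · rwa [Ne, Submodule.Quotient.mk_eq_zero]
        · rw [← Submodule.Quotient.mk_smul, Submodule.Quotient.mk_eq_zero, hm]
          exact t.2
      exact ⟨⟨m, hmN⟩, Subtype.ext hm⟩
    have f1 : Module.Finite k (M ⧸ N) := simple_finite hg _ hT (h1.subset (hq _))
      (h2.subset (hq _)) (h3.subset (hq _))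
    have f2 : Module.Finite k N := ih inferInstance inferInstance
      (hs _ h1 _ hg.adj hg.adNil) (hs _ h2 _ hg.two.adj hg.two.adNil)
      (hs _ h3 _ hg.three.adj hg.three.adNil)
    haveI : Module.Finite k (N.restrictScalars k) := f2
    haveI : Module.Finite k (M ⧸ N.restrictScalars k) :=
      Module.Finite.equiv (Submodule.Quotient.restrictScalarsEquiv k N).symm
    exact Module.Finite.of_submodule_quotient (N.restrictScalars k)

end

end Pool.Agent.Work.MP_883c56_al
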