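import Pool.Agent.Work.MP_883c56_al.AlgCompact

set_option autoImplicit false
set_option linter.unusedSectionVars false
set_option linter.style.haveILetI false

universe u

namespace Pool.Agent.Work.MP_883c56_al

open Finset

section formulas

variable {S : Type u} [Ring S] {n : ℕ}

lemma PP.exists_add (φ ψ : PP S n) : ∃ χ : PP S n, ∀ (M : Type u) [AddCommGroup M] [Module S M]
    (x : Fin n → M), χ.Holds M x ↔ ∃ x', φ.Holds M x' ∧ ψ.Holds M (x - x') := by
  classical
  obtain ⟨χ, hχ⟩ := exists_PP (S := S) (n := n) (V := Fin n ⊕ Fin φ.V ⊕ Fin ψ.V)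
    (J := Fin φ.J ⊕ Fin ψ.J)
    (Sum.elim (fun _ _ => 0) ψ.A)
    (Sum.elim (fun j => Sum.elim (φ.A j) (Sum.elim (φ.B j) (fun _ => 0)))
      (fun j => Sum.elim (fun i => -ψ.A j i) (Sum.elim (fun _ => 0) (ψ.B j))))
  refine ⟨χ, fun M _ _ x => ?_⟩
  rw [hχ]
  constructor
  · rintro ⟨y, hy⟩
    refine ⟨fun i => y (Sum.inl i), ⟨fun v => y (Sum.inr (Sum.inl v)), fun j => ?_⟩,
      ⟨fun v => y (Sum.inr (Sum.inr v)), fun j => ?_⟩⟩
    · have := hy (Sum.inl j)
      simpa using this
    · have := hy (Sum.inr j)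
      simp only [Sum.elim_inr, Fintype.sum_sum_type, Sum.elim_inl, zero_smul, neg_smul,
        Finset.sum_neg_distrib, Finset.sum_const_zero, zero_add] at this
      rw [← this]
      simp only [Pi.sub_apply, smul_sub, Finset.sum_sub_distrib]
      abel
  · rintro ⟨x', ⟨y, hy⟩, ⟨z, hz⟩⟩
    refine ⟨Sum.elim x' (Sum.elim y z), ?_⟩
    rw [Sum.forall]
    refine ⟨fun j => ?_, fun j => ?_⟩
    · have := hy j
      simpa using this
    · have := hz j
      simp only [Sum.elim_inr, Fintype.sum_sum_type, Sum.elim_inl, zero_smul, neg_smul,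
        Finset.sum_neg_distrib, Finset.sum_const_zero, zero_add]
      rw [← this]
      simp only [Pi.sub_apply, smul_sub, Finset.sum_sub_distrib]
      abel

lemma PP.exists_conj (Θ : PP S n) (ψ : PPFormula S) (r : Fin n → S) :
    ∃ χ : PP S n, ∀ (M : Type u) [AddCommGroup M] [Module S M]
    (x : Fin n → M), χ.Holds M x ↔ Θ.Holds M x ∧ ψ.Holds M (∑ g, r g • x g) := by
  classical
  obtain ⟨χ, hχ⟩ := exists_PP (S := S) (n := n) (V := Fin Θ.V ⊕ Fin ψ.vars)
    (J := Fin Θ.J ⊕ Fin ψ.eqs)
    (Sum.elim Θ.A (fun j g => ψ.free j * r g))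
    (Sum.elim (fun j => Sum.elim (Θ.B j) (fun _ => 0))
      (fun j => Sum.elim (fun _ => 0) (fun v => ψ.bound v j)))
  refine ⟨χ, fun M _ _ x => ?_⟩
  rw [hχ]
  constructor
  · rintro ⟨y, hy⟩
    refine ⟨⟨fun v => y (Sum.inl v), fun j => ?_⟩, ⟨fun v => y (Sum.inr v), fun j => ?_⟩⟩
    · have := hy (Sum.inl j)
      simpa using this
    · have := hy (Sum.inr j)
      simpa [Finset.smul_sum, mul_smul] using this
  · rintro ⟨⟨y, hy⟩, ⟨z, hz⟩⟩
    refine ⟨Sum.elim y z, ?_⟩
    rw [Sum.forall]
    refine ⟨fun j => ?_, fun j => ?_⟩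
    · have := hy j
      simpa using this
    · have := hz j
      simpa [Finset.smul_sum, mul_smul] using this

lemma PP.exists_zero : ∃ χ : PP S n, ∀ (M : Type u) [AddCommGroup M] [Module S M]
    (x : Fin n → M), χ.Holds M x ↔ x = 0 := by
  classical
  obtain ⟨χ, hχ⟩ := exists_PP (S := S) (n := n) (V := Fin 0)
    (J := Fin n) (fun j i => if i = j then 1 else 0) (fun _ _ => 0)
  refine ⟨χ, fun M _ _ x => ?_⟩
  rw [hχ]
  have key : ∀ j : Fin n, ∑ i, (if i = j then (1 : S) else 0) • x i = x j := by
    intro j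
    rw [Finset.sum_eq_single j]
    · simp
    · intro i _ hi
      simp [hi]
    · simp
  constructor
  · rintro ⟨y, hy⟩
    funext j
    have := hy j
    rw [key] at this
    simpa using this
  · rintro rfl
    exact ⟨fun v => v.elim0, fun j => by simp⟩

lemma PP.exists_sum {ι : Type} (s : Finset ι) (χ : ι → PP S n) : ∃ Ψ : PP S n,
    ∀ (M : Type u) [AddCommGroup M] [Module S M] (x : Fin n → M),
      Ψ.Holds M x ↔ ∃ z : ι → (Fin n → M), (∀ i ∈ s, (χ i).Holds M (z i)) ∧ ∑ i ∈ s, z i = x := by
  classical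
  induction s using Finset.induction_on with
  | empty =>
    obtain ⟨Ψ, hΨ⟩ := PP.exists_zero (S := S) (n := n)
    refine ⟨Ψ, fun M _ _ x => ?_⟩
    rw [hΨ]
    simp [eq_comm]
  | insert i s hi ih =>
    obtain ⟨Ψ, hΨ⟩ := ih
    obtain ⟨Ψ', hΨ'⟩ := PP.exists_add (χ i) Ψ
    refine ⟨Ψ', fun M _ _ x => ?_⟩
    rw [hΨ']
    constructor
    · rintro ⟨x', h1, h2⟩
      rw [hΨ] at h2
      obtain ⟨z, hz1, hz2⟩ := h2
      refine ⟨Function.update z i x', ?_, ?_⟩
      · intro j hj
        rcases Finset.mem_insert.mp hj with rfl | hj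
        · rw [Function.update_self]
          exact h1
        · have hne : j ≠ i := fun h => hi (h ▸ hj)
          rw [Function.update_of_ne hne]
          exact hz1 j hj
      · rw [Finset.sum_insert hi, Function.update_self]
        have h3 : ∑ j ∈ s, Function.update z i x' j = ∑ j ∈ s, z j := by
          refine Finset.sum_congr rfl fun j hj => ?_
          have hne : j ≠ i := fun h => hi (h ▸ hj)
          rw [Function.update_of_ne hne]
        rw [h3, hz2]
        abel
    · rintro ⟨z, hz1, hz2⟩
      refine ⟨z i, hz1 i (Finset.mem_insert_self _ _), ?_⟩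
      rw [hΨ]
      refine ⟨z, fun j hj => hz1 j (Finset.mem_insert_of_mem hj), ?_⟩
      rw [← hz2, Finset.sum_insert hi]
      abel

end formulas

section presentation

variable {S : Type u} [Ring S] {n : ℕ} {M : Type u} [AddCommGroup M] [Module S M]

/-- The relations of a finite tuple, over a noetherian ring. -/
lemma exists_presentation [IsNoetherianRing S] (m : Fin n → M) :
    ∃ Θ : PP S n, Θ.Holds M m ∧ ∀ (N : Type u) [AddCommGroup N] [Module S N] (x : Fin n → N),
      Θ.Holds N x → ∀ s : Fin n → S, ∑ g, s g • m g = 0 → ∑ g, s g • x g = 0 := by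
  classical
  let K : Submodule S (Fin n → S) := LinearMap.ker (Fintype.linearCombination S m)
  obtain ⟨t, ht⟩ := IsNoetherian.noetherian K
  obtain ⟨Θ, hΘ⟩ := exists_PP (S := S) (n := n) (V := Fin 0) (J := t) (fun j i => j.1 i)
    (fun _ _ => 0)
  refine ⟨Θ, ?_, ?_⟩
  · rw [hΘ]
    refine ⟨fun v => v.elim0, fun j => ?_⟩
    have h1 : j.1 ∈ K := by
      rw [← ht]
      exact Submodule.subset_span j.2
    have h2 : ∑ i, j.1 i • m i = 0 := by
      have h3 : Fintype.linearCombination S m j.1 = 0 := h1
      rwa [Fintype.linearCombination_apply] at h3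
    rw [h2]
    simp
  · intro N _ _ x hx
    rw [hΘ] at hx
    obtain ⟨y, hy⟩ := hx
    have h1 : K ≤ LinearMap.ker (Fintype.linearCombination S x) := by
      rw [← ht]
      apply Submodule.span_le.mpr
      intro j hj
      have h2 := hy ⟨j, hj⟩
      show Fintype.linearCombination S x j = 0
      rw [Fintype.linearCombination_apply]
      simpa using h2
    intro s hs
    have h3 : s ∈ K := by
      show Fintype.linearCombination S m s = 0
      rw [Fintype.linearCombination_apply]
      exact hs
    have h4 : Fintype.linearCombination S x s = 0 := h1 h3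
    rwa [Fintype.linearCombination_apply] at h4

lemma exists_hom_of_relations {m : Fin n → M} (hm : Submodule.span S (Set.range m) = ⊤)
    {N : Type u} [AddCommGroup N] [Module S N] (x : Fin n → N)
    (h : ∀ s : Fin n → S, ∑ g, s g • m g = 0 → ∑ g, s g • x g = 0) :
    ∃ f : M →ₗ[S] N, ∀ g, f (m g) = x g := by
  classical
  let P : (Fin n → S) →ₗ[S] M := Fintype.linearCombination S m
  have hP : Function.Surjective P := by
    rw [← LinearMap.range_eq_top, ← hm]
    exact Fintype.range_linearCombination S m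
  let Q : (Fin n → S) →ₗ[S] N := Fintype.linearCombination S x
  have hPQ : LinearMap.ker P ≤ LinearMap.ker Q := by
    intro s hs
    have h1 : Fintype.linearCombination S m s = 0 := hs
    show Fintype.linearCombination S x s = 0
    rw [Fintype.linearCombination_apply] at h1 ⊢
    exact h s h1
  let e := P.quotKerEquivOfSurjective hP
  refine ⟨(Submodule.liftQ _ Q hPQ) ∘ₗ (e.symm : M →ₗ[S] _), fun g => ?_⟩
  have h1 : P (Pi.single g 1) = m g := by
    show Fintype.linearCombination S m (Pi.single g 1) = m g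
    simp
  have h2 : e.symm (m g) = Submodule.Quotient.mk (Pi.single g 1) := by
    rw [LinearEquiv.symm_apply_eq, ← h1]
    rfl
  rw [LinearMap.comp_apply]
  show (Submodule.liftQ _ Q hPQ) (e.symm (m g)) = x g
  rw [h2]
  show Q (Pi.single g 1) = x g
  show Fintype.linearCombination S x (Pi.single g 1) = x g
  simp

end presentation

section fitting

variable {S : Type u} [Ring S] {M : Type u} [AddCommGroup M] [Module S M]

lemma bijective_or_nilpotent' [IsNoetherian S M] [IsArtinian S M] (hM : IsIndec S M)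
    (F : Module.End S M) : Function.Bijective F ∨ IsNilpotent F := by
  obtain ⟨n₀, hn₀⟩ := Filter.eventually_atTop.mp F.eventually_isCompl_ker_pow_range_pow
  have hc := hn₀ (n₀ + 1) (by omega)
  rcases hM.2 _ _ hc with h | h
  · left
    have hinj : Function.Injective F := by
      rw [← LinearMap.ker_eq_bot, LinearMap.ker_eq_bot']
      intro m hm
      have h1 : m ∈ LinearMap.ker (F ^ (n₀ + 1)) := by
        rw [LinearMap.mem_ker, pow_succ, Module.End.mul_apply, hm, map_zero]
      rw [h, Submodule.mem_bot] at h1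
      exact h1
    exact IsArtinian.bijective_of_injective_endomorphism F hinj
  · right
    exact ⟨n₀ + 1, LinearMap.range_eq_bot.mp h⟩

lemma isUnit_iff_bijective (F : Module.End S M) : IsUnit F ↔ Function.Bijective F :=
  Module.End.isUnit_iff F

lemma exists_bijective_of_sum [IsNoetherian S M] [IsArtinian S M] (hM : IsIndec S M) {ι : Type}
    (s : Finset ι) (f : ι → Module.End S M) (h : IsUnit (∑ i ∈ s, f i)) :
    ∃ i ∈ s, Function.Bijective (f i) := by
  classical
  induction s using Finset.induction_on with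
  | empty =>
    exfalso
    haveI := hM.1
    rw [Finset.sum_empty] at h
    exact not_isUnit_zero h
  | insert i s hi ih =>
    rw [Finset.sum_insert hi] at h
    obtain ⟨v, hv⟩ := h
    have h1 : (↑v⁻¹ : Module.End S M) * f i + (↑v⁻¹ : Module.End S M) * ∑ j ∈ s, f j = 1 := by
      rw [← mul_add, ← hv, Units.inv_mul]
    rcases bijective_or_nilpotent' hM ((↑v⁻¹ : Module.End S M) * f i) with h2 | h2
    · refine ⟨i, Finset.mem_insert_self _ _, ?_⟩
      rw [← isUnit_iff_bijective] at h2 ⊢
      have h3 : f i = (v : Module.End S M) * ((↑v⁻¹ : Module.End S M) * f i) := by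
        rw [← mul_assoc, Units.mul_inv, one_mul]
      rw [h3]
      exact v.isUnit.mul h2
    · have h3 : IsUnit (1 - (↑v⁻¹ : Module.End S M) * f i) := h2.isUnit_one_sub
      have h4 : 1 - (↑v⁻¹ : Module.End S M) * f i =
          (↑v⁻¹ : Module.End S M) * ∑ j ∈ s, f j := by
        rw [← h1]
        abel
      rw [h4] at h3
      have h5 : IsUnit (∑ j ∈ s, f j) := by
        have h6 : ∑ j ∈ s, f j = (v : Module.End S M) *
            ((↑v⁻¹ : Module.End S M) * ∑ j ∈ s, f j) := by
          rw [← mul_assoc, Units.mul_inv, one_mul]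
        rw [h6]
        exact v.isUnit.mul h3
      obtain ⟨j, hj, hj'⟩ := ih h5
      exact ⟨j, Finset.mem_insert_of_mem hj, hj'⟩

end fitting

end Pool.Agent.Work.MP_883c56_al
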