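import Pool.Agent.Work.MP_883c56_al.Tower
import Pool.Agent.Work.MP_883c56_al.LocFin
import Pool.Agent.Work.MP_883c56_al.Existence
import Pool.Agent.Work.MP_883c56_al.PPSum

set_option autoImplicit false
set_option linter.unusedSectionVars false
set_option linter.style.haveILetI false

universe u

namespace Pool.Agent.Work.MP_883c56_al

open Finset

section transfer

variable {S : Type u} [Ring S]

/-- Conversion of formulas. -/
def PPFormula.toPP (φ : PPFormula S) : PP S 1 := ⟨φ.vars, φ.eqs, fun j _ => φ.free j,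
  fun j v => φ.bound v j⟩

lemma PPFormula.toPP_holds (φ : PPFormula S) (M : Type u) [AddCommGroup M] [Module S M]
    (x : Fin 1 → M) : φ.toPP.Holds M x ↔ φ.Holds M (x 0) := by
  constructor
  · rintro ⟨y, hy⟩
    refine ⟨y, fun j => ?_⟩
    have := hy j
    rw [Fin.sum_univ_one] at this
    exact this
  · rintro ⟨y, hy⟩
    refine ⟨y, fun j => ?_⟩
    rw [Fin.sum_univ_one]
    exact hy j

lemma PPFormula.Holds.map {φ : PPFormula S} {M N : Type u} [AddCommGroup M] [Module S M]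
    [AddCommGroup N] [Module S N] (f : M →ₗ[S] N) {x : M} (h : φ.Holds M x) :
    φ.Holds N (f x) := by
  have h1 := (φ.toPP_holds M (fun _ => x)).mpr h
  exact (φ.toPP_holds N _).mp (h1.map f)

/-- pp pairs closed on `M` are closed on the hull of `M`. -/
lemma closed_hull {M H : Type u} [AddCommGroup M] [Module S M] [AddCommGroup H] [Module S H]
    {i : M →ₗ[S] H} (hi : IsPureInjectiveHull i) {φ ψ : PPFormula S}
    (h : ∀ x : M, φ.Holds M x → ψ.Holds M x) (x : H) (hx : φ.Holds H x) : ψ.Holds H x := by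
  have hDD : IsPureInjective S (DD S M) := DD.algCompact.isPureInjective
  obtain ⟨f, hf⟩ := hDD M H i hi.1 ev
  have hfp : IsPure f := hi.2.2 _ f (by rw [hf]; exact isPure_ev)
  obtain ⟨g, hg⟩ := hi.2.1 H (DD S M) f hfp LinearMap.id
  have h1 : φ.toPP.Holds (DD S M) (fun _ => f x) := (φ.toPP_holds _ _).mpr (hx.map f)
  have h2 : ψ.toPP.Holds (DD S M) (fun _ => f x) :=
    dd_closed (φ := φ.toPP) (ψ := ψ.toPP) (fun x hx => by
      rw [PPFormula.toPP_holds] at hx ⊢
      exact h _ hx) _ h1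
  have h3 : ψ.Holds (DD S M) (f x) := (ψ.toPP_holds _ _).mp h2
  have h4 := h3.map g
  have h5 : g (f x) = x := LinearMap.congr_fun hg x
  rwa [h5] at h4

end transfer

section opposite

variable {k : Type u} [Field k] {S : Type u} [Ring S] [Algebra k S]

lemma finite_bad_right {x h y : S} (hg : IsSl2Gen k x h y) {n : ℕ} (Ψ : PP S n) :
    {α : k | ¬ ∀ t : Fin Ψ.J → S,
      (∃ s : Fin Ψ.V → S, ∀ j, t j * (x - algebraMap k S α) = ∑ v, Ψ.B j v * s v) →
      ∃ s : Fin Ψ.V → S, ∀ j, t j = ∑ v, Ψ.B j v * s v}.Finite := by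
  classical
  haveI : IsNoetherianRing Sᵐᵒᵖ := hg.op.isNoetherianRing
  let W0 : Submodule Sᵐᵒᵖ (Fin Ψ.J → S) :=
    { carrier := {t | ∃ s : Fin Ψ.V → S, ∀ j, t j = ∑ v, Ψ.B j v * s v}
      add_mem' := by
        rintro a b ⟨s, hs⟩ ⟨s', hs'⟩
        refine ⟨s + s', fun j => ?_⟩
        rw [Pi.add_apply, hs, hs', ← Finset.sum_add_distrib]
        simp only [Pi.add_apply, mul_add]
      zero_mem' := ⟨0, fun j => by simp⟩
      smul_mem' := by
        rintro c a ⟨s, hs⟩
        refine ⟨fun v => s v * c.unop, fun j => ?_⟩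
        rw [Pi.smul_apply, hs]
        show (∑ v, Ψ.B j v * s v) * c.unop = _
        rw [Finset.sum_mul]
        simp only [mul_assoc] }
  haveI hfin1 : Module.Finite Sᵐᵒᵖ S := by
    refine ⟨⟨{1}, ?_⟩⟩
    rw [eq_top_iff]
    intro s _
    rw [Finset.coe_singleton, Submodule.mem_span_singleton]
    exact ⟨MulOpposite.op s, by
      show 1 * s = s
      rw [one_mul]⟩
  haveI : IsNoetherian Sᵐᵒᵖ (Fin Ψ.J → S) := isNoetherian_of_isNoetherianRing_of_finite _ _
  have hG : Algebra.adjoin k (MulOpposite.unop ⁻¹' ({x, h, y} : Set S)) =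
      (⊤ : Subalgebra k Sᵐᵒᵖ) := by
    rw [← Subalgebra.op_adjoin, hg.adj]
    exact Subalgebra.op_top
  have h1 := finite_eigenvalues (k := k) hG (x := MulOpposite.op x) (by
    intro g hg'
    obtain ⟨n, hn⟩ := hg.adNil _ hg'
    exact ⟨n, hn.op⟩) ((Fin Ψ.J → S) ⧸ W0)
  refine h1.subset ?_
  intro α hα
  by_contra hcon
  apply hα
  intro t ht
  by_contra ht0
  apply hcon
  refine ⟨Submodule.Quotient.mk t, ?_, ?_⟩
  · rw [Ne, Submodule.Quotient.mk_eq_zero]
    exact ht0
  · rw [← Submodule.Quotient.mk_smul, Submodule.Quotient.mk_eq_zero]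
    exact ht

end opposite

/-- Hulls of infinite-dimensional modules of finite length are not isolated. -/
theorem not_isOpen_of_infinite {k S : Type u} [Field k] [IsAlgClosed k] [Ring S] [Algebra k S]
    {E H F : S} (hg : IsSl2Gen k E H F) {M : Type u} [AddCommGroup M] [Module S M] [Module k M]
    [IsScalarTower k S M] (hfl : IsFiniteLength S M) (hM : IsIndec S M)
    (hinf : ¬ Module.Finite k M) {Hu : Type u} [AddCommGroup Hu] [Module S Hu] (i : M →ₗ[S] Hu)
    (hi : IsPureInjectiveHull i) (h : IsIndec S Hu) (h' : IsPureInjective S Hu) :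
    ¬ IsOpen ({Zg.mk Hu h h'} : Set (Zg S)) := by
  classical
  intro hopen
  haveI : IsNoetherianRing S := hg.isNoetherianRing
  obtain ⟨hN, hA⟩ := isFiniteLength_iff_isNoetherian_isArtinian.mp hfl
  -- finitely many pp pairs
  have hbasis := TopologicalSpace.isTopologicalBasis_of_subbasis
    (t := (inferInstance : TopologicalSpace (Zg S)))
    (s := {O | ∃ φ ψ : PPFormula S, ψ.Le φ ∧ O = Zg.basicOpen φ ψ}) rfl
  obtain ⟨v, ⟨f, ⟨hf, hfs⟩, rfl⟩, hpv, hvsub⟩ :=
    hbasis.exists_subset_of_mem_open (Set.mem_singleton (Zg.mk Hu h h')) hopen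
  haveI : Finite f := hf.to_subtype
  obtain ⟨r, ⟨e⟩⟩ := Finite.exists_equiv_fin f
  choose φ ψ hle hOp using fun a : Fin r => hfs (e.symm a).2
  have hpO : ∀ a, ∃ x : Hu, (φ a).Holds Hu x ∧ ¬ (ψ a).Holds Hu x := by
    intro a
    have h1 : Zg.mk Hu h h' ∈ Zg.basicOpen (φ a) (ψ a) := by
      rw [← hOp a]
      exact Set.mem_sInter.mp hpv _ (e.symm a).2
    obtain ⟨N, hN, x, hx1, hx2⟩ := h1
    obtain ⟨ε⟩ := Quotient.exact hN
    have ε' : N.carrier ≃ₗ[S] Hu := ε
    refine ⟨ε' x, hx1.map (ε' : N.carrier →ₗ[S] Hu), fun hcon => hx2 ?_⟩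
    have := hcon.map (ε'.symm : Hu →ₗ[S] N.carrier)
    simpa using this
  have hM0 : ∀ a, ∃ x : M, (φ a).Holds M x ∧ ¬ (ψ a).Holds M x := by
    intro a
    by_contra hcon
    push Not at hcon
    obtain ⟨x, hx1, hx2⟩ := hpO a
    exact hx2 (closed_hull hi hcon x hx1)
  choose mm hmm1 hmm2 using hM0
  haveI : Module.Finite S M := inferInstance
  obtain ⟨n, m, hm⟩ := Module.Finite.exists_fin (R := S) (M := M)
  have hcoef : ∀ a, ∃ c : Fin n → S, ∑ g, c g • m g = mm a := by
    intro a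
    have h1 : mm a ∈ Submodule.span S (Set.range m) := by rw [hm]; trivial
    exact (Submodule.mem_span_range_iff_exists_fun S).mp h1
  choose c hc using hcoef
  obtain ⟨Θ, hΘ1, hΘ2⟩ := exists_presentation (S := S) m
  choose χ hχ using fun a => PP.exists_conj Θ (ψ a) (c a)
  choose χ' hχ' using fun a => PP.exists_conj Θ (φ a) (c a)
  obtain ⟨Ψ, hΨ⟩ := PP.exists_sum (Finset.univ : Finset (Fin r)) χ
  have hΨM : ¬ Ψ.Holds M m := by
    intro hcon
    rw [hΨ] at hcon
    obtain ⟨z, hz1, hz2⟩ := hcon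
    have hz3 : ∀ a, Θ.Holds M (z a) ∧ (ψ a).Holds M (∑ g, c a g • z a g) := by
      intro a
      have := hz1 a (Finset.mem_univ a)
      rwa [hχ] at this
    have hex : ∀ a, ∃ F : M →ₗ[S] M, ∀ g, F (m g) = z a g := fun a =>
      exists_hom_of_relations hm (z a) (hΘ2 M (z a) (hz3 a).1)
    choose FF hFF using hex
    let FE : Fin r → Module.End S M := FF
    have hsum : ∑ a, FE a = 1 := by
      apply LinearMap.ext_on hm
      rintro _ ⟨g, rfl⟩
      rw [LinearMap.sum_apply, Module.End.one_apply]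
      have h1 : ∑ a, z a g = m g := by rw [← hz2, Finset.sum_apply]
      refine Eq.trans ?_ h1
      exact Finset.sum_congr rfl fun a _ => hFF a g
    obtain ⟨a, _, ha⟩ := exists_bijective_of_sum hM Finset.univ FE (by rw [hsum]; exact isUnit_one)
    apply hmm2 a
    have h1 := (hz3 a).2
    have h2 : ∑ g, c a g • z a g = FF a (mm a) := by
      rw [← hc a, map_sum]
      refine Finset.sum_congr rfl fun g _ => ?_
      rw [map_smul, hFF]
    rw [h2] at h1
    let ε := LinearEquiv.ofBijective (FF a) ha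
    have h3 := h1.map (ε.symm : M →ₗ[S] M)
    have h4 : (ε.symm : M →ₗ[S] M) (FF a (mm a)) = mm a := ε.symm_apply_apply (mm a)
    rwa [h4] at h3
  -- the ad-nilpotent element
  obtain ⟨x, hh, y, hgx, hbad⟩ : ∃ x hh y : S, IsSl2Gen k x hh y ∧ (BadSet k x M).Infinite := by
    by_contra hcon
    push Not at hcon
    apply hinf
    refine finite_of_isFiniteLength hg M hfl inferInstance inferInstance ?_ ?_ ?_
    · exact hcon _ _ _ hg
    · exact hcon _ _ _ hg.two
    · exact hcon _ _ _ hg.three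
  obtain ⟨α, hα1, hα2⟩ := hbad.exists_notMem_finite (finite_bad_right hgx Ψ)
  have hinj := not_not.mp hα2
  set u : S := x - algebraMap k S α with hu
  have hO : ∀ s : S, ∃ (K : ℕ) (s' : S), s * u ^ K = u * s' := by
    intro s
    obtain ⟨K, s', hs⟩ := oreProp_of_adjoin hgx.adj hgx.adNil α s 1
    exact ⟨K, s', by rw [pow_one] at hs; exact hs⟩
  have hY := Tower.surj u m hm hO
  have hΨY : ¬ Ψ.Holds (Tower u m) (fun g => Tower.ofM u m (m g)) :=
    fun hcon => hΨM (Tower.holds u m hinj hcon)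
  obtain ⟨N, _, _, hN1, hN2, hN3, b, hb1, hb2⟩ := exists_indecomposable u Ψ (Tower u m) hY _ hΨY
  have hNmem : Zg.mk N hN1 hN2 ∈ ⋂₀ f := by
    rw [Set.mem_sInter]
    intro O hOf
    obtain ⟨a, ha⟩ : ∃ a, (e.symm a).1 = O := ⟨e ⟨O, hOf⟩, by simp⟩
    rw [← ha, hOp a]
    refine ⟨⟨N, hN1, hN2⟩, rfl, ∑ g, c a g • b g, ?_, ?_⟩
    · have h1 : (χ' a).Holds M m := by
        rw [hχ']
        refine ⟨hΘ1, ?_⟩
        rw [hc]
        exact hmm1 a
      have h2 := hb1 _ (h1.map (Tower.ofM u m))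
      rw [hχ'] at h2
      exact h2.2
    · intro hcon
      apply hb2
      rw [hΨ]
      refine ⟨Pi.single a b, fun a' _ => ?_, ?_⟩
      · by_cases haa : a' = a
        · subst haa
          rw [Pi.single_eq_same, hχ]
          exact ⟨hb1 _ (hΘ1.map (Tower.ofM u m)), hcon⟩
        · rw [Pi.single_eq_of_ne haa]
          exact PP.holds_zero _ _
      · rw [Finset.sum_pi_single']
        simp
  have h1 := hvsub hNmem
  rw [Set.mem_singleton_iff] at h1
  obtain ⟨ε⟩ := Quotient.exact h1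
  have ε' : N ≃ₗ[S] Hu := ε
  apply hα1
  intro t
  obtain ⟨w, hw⟩ := hN3 (ε'.symm (i t))
  have h2 : u • ε' w = i t := by
    rw [← map_smul, hw, LinearEquiv.apply_symm_apply]
  obtain ⟨y', hy'⟩ := isPure_solve' hi.1 (ι := Fin 1) (κ := Fin 1) (fun _ => t) (fun _ _ => u)
    ⟨fun _ => ε' w, fun _ => by rw [Fin.sum_univ_one]; exact h2⟩
  refine ⟨y' 0, ?_⟩
  have h3 := hy' 0
  rw [Fin.sum_univ_one] at h3
  exact h3

end Pool.Agent.Work.MP_883c56_al
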