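import Pool.Agent.Work.MP_883c56_al.Trivial
import Pool.Agent.Work.MP_883c56_al.NonIsolated
import Pool.Agent.Work.MP_883c56_al.HullIndec

set_option autoImplicit false
set_option linter.unusedSectionVars false
set_option linter.style.haveILetI false

universe u

namespace Pool.Agent.Work.MP_883c56_al

attribute [local instance 100] LieRing.ofAssociativeRing

/-- Finite-dimensional indecomposable modules are their own hulls, and isolated. -/
theorem finiteDim_isolated (k : Type u) [Field k] [IsAlgClosed k] [CharZero k]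
    (M : Type u) [AddCommGroup M] [Module (Usl2 k)ᵐᵒᵖ M] [Module k M]
    [IsScalarTower k (Usl2 k)ᵐᵒᵖ M] (hfd : FiniteDimensional k M)
    (hM : IsIndec (Usl2 k)ᵐᵒᵖ M) :
      IsPureInjectiveHull (LinearMap.id : M →ₗ[(Usl2 k)ᵐᵒᵖ] M) ∧
      ∀ (H : Type u) [AddCommGroup H] [Module (Usl2 k)ᵐᵒᵖ H] (i : M →ₗ[(Usl2 k)ᵐᵒᵖ] H),
        IsPureInjectiveHull i →
          ∃ (h : IsIndec (Usl2 k)ᵐᵒᵖ H) (h' : IsPureInjective (Usl2 k)ᵐᵒᵖ H),
            IsOpen ({Zg.mk H h h'} : Set (Zg (Usl2 k)ᵐᵒᵖ)) := by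
  set L := LieAlgebra.SpecialLinear.sl (Fin 2) k with hL
  let b := Module.finBasis k L
  have hg := adjoin_range_op k L b
  have hpi : IsPureInjective (Usl2 k)ᵐᵒᵖ M :=
    isPureInjective_of_finite_aux _ hg (Module.finBasis k M)
  refine ⟨isPureInjectiveHull_id hpi, ?_⟩
  intro H _ _ i hi
  have hbij := bijective_of_hull hpi hi
  let e : M ≃ₗ[(Usl2 k)ᵐᵒᵖ] H := LinearEquiv.ofBijective i hbij
  refine ⟨isIndec_congr e hM, isPureInjective_congr e hpi, ?_⟩
  have h1 : Zg.mk H (isIndec_congr e hM) (isPureInjective_congr e hpi) = Zg.mk M hM hpi :=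
    Quotient.sound ⟨e.symm⟩
  rw [h1]
  exact isOpen_singleton_of_finite _ hg hM hpi

section sl2

variable (k : Type u) [Field k]

/-- The matrix `e`. -/
def slE : LieAlgebra.SpecialLinear.sl (Fin 2) k :=
  ⟨!![0, 1; 0, 0], by
    show Matrix.trace (!![0, 1; 0, 0] : Matrix (Fin 2) (Fin 2) k) = 0
    simp [Matrix.trace_fin_two]⟩

/-- The matrix `h`. -/
def slH : LieAlgebra.SpecialLinear.sl (Fin 2) k :=
  ⟨!![1, 0; 0, -1], by
    show Matrix.trace (!![1, 0; 0, -1] : Matrix (Fin 2) (Fin 2) k) = 0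
    simp [Matrix.trace_fin_two]⟩

/-- The matrix `f`. -/
def slF : LieAlgebra.SpecialLinear.sl (Fin 2) k :=
  ⟨!![0, 0; 1, 0], by
    show Matrix.trace (!![0, 0; 1, 0] : Matrix (Fin 2) (Fin 2) k) = 0
    simp [Matrix.trace_fin_two]⟩

lemma sl_he : ⁅slH k, slE k⁆ = slE k + slE k := by
  apply Subtype.ext
  rw [LieSubalgebra.coe_bracket, Ring.lie_def]
  show (!![1, 0; 0, -1] : Matrix (Fin 2) (Fin 2) k) * !![0, 1; 0, 0] -
    !![0, 1; 0, 0] * !![1, 0; 0, -1] = !![0, 1; 0, 0] + !![0, 1; 0, 0]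
  ext i j
  fin_cases i <;> fin_cases j <;> simp

lemma sl_hf : ⁅slH k, slF k⁆ = -(slF k + slF k) := by
  apply Subtype.ext
  rw [LieSubalgebra.coe_bracket, Ring.lie_def]
  show (!![1, 0; 0, -1] : Matrix (Fin 2) (Fin 2) k) * !![0, 0; 1, 0] -
    !![0, 0; 1, 0] * !![1, 0; 0, -1] = -(!![0, 0; 1, 0] + !![0, 0; 1, 0])
  ext i j
  fin_cases i <;> fin_cases j <;> simp
  ring

lemma sl_ef : ⁅slE k, slF k⁆ = slH k := by
  apply Subtype.ext
  rw [LieSubalgebra.coe_bracket, Ring.lie_def]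
  show (!![0, 1; 0, 0] : Matrix (Fin 2) (Fin 2) k) * !![0, 0; 1, 0] -
    !![0, 0; 1, 0] * !![0, 1; 0, 0] = !![1, 0; 0, -1]
  ext i j
  fin_cases i <;> fin_cases j <;> simp

lemma sl_span (x : LieAlgebra.SpecialLinear.sl (Fin 2) k) :
    x = (x : Matrix (Fin 2) (Fin 2) k) 0 1 • slE k + (x : Matrix (Fin 2) (Fin 2) k) 0 0 • slH k +
      (x : Matrix (Fin 2) (Fin 2) k) 1 0 • slF k := by
  have htr : Matrix.trace (x : Matrix (Fin 2) (Fin 2) k) = 0 := x.2
  rw [Matrix.trace_fin_two] at htr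
  apply Subtype.ext
  show (x : Matrix (Fin 2) (Fin 2) k) =
    (x : Matrix (Fin 2) (Fin 2) k) 0 1 • !![0, 1; 0, 0] +
    (x : Matrix (Fin 2) (Fin 2) k) 0 0 • !![1, 0; 0, -1] +
    (x : Matrix (Fin 2) (Fin 2) k) 1 0 • !![0, 0; 1, 0]
  ext i j
  fin_cases i <;> fin_cases j <;> simp
  linear_combination htr

lemma isSl2Gen_U : IsSl2Gen k (UniversalEnvelopingAlgebra.ι k (slE k) : Usl2 k)
    (UniversalEnvelopingAlgebra.ι k (slH k)) (UniversalEnvelopingAlgebra.ι k (slF k)) where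
  he := by
    have h := congrArg (UniversalEnvelopingAlgebra.ι k) (sl_he k)
    rw [LieHom.map_lie, Ring.lie_def, map_add, sub_eq_iff_eq_add] at h
    rw [h, two_mul]
    abel
  hf := by
    have h := congrArg (UniversalEnvelopingAlgebra.ι k) (sl_hf k)
    rw [LieHom.map_lie, Ring.lie_def, map_neg, map_add, sub_eq_iff_eq_add] at h
    rw [h, two_mul]
    abel
  ef := by
    have h := congrArg (UniversalEnvelopingAlgebra.ι k) (sl_ef k)
    rw [LieHom.map_lie, Ring.lie_def, sub_eq_iff_eq_add] at h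
    rw [h]
    abel
  adj := by
    rw [eq_top_iff, ← adjoin_range_ι k (LieAlgebra.SpecialLinear.sl (Fin 2) k)]
    apply Algebra.adjoin_le
    rintro _ ⟨x, rfl⟩
    rw [sl_span k x, map_add, map_add, map_smul, map_smul, map_smul]
    refine Subalgebra.add_mem _ (Subalgebra.add_mem _ ?_ ?_) ?_
    · exact Subalgebra.smul_mem _ (Algebra.subset_adjoin (by simp)) _
    · exact Subalgebra.smul_mem _ (Algebra.subset_adjoin (by simp)) _
    · exact Subalgebra.smul_mem _ (Algebra.subset_adjoin (by simp)) _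

end sl2

/-- The characterization of isolated hulls. -/
theorem isOpen_iff (k : Type u) [Field k] [IsAlgClosed k] [CharZero k]
    (M : Type u) [AddCommGroup M] [Module (Usl2 k)ᵐᵒᵖ M] [Module k M]
    [IsScalarTower k (Usl2 k)ᵐᵒᵖ M] (hfl : IsFiniteLength (Usl2 k)ᵐᵒᵖ M)
    (hM : IsIndec (Usl2 k)ᵐᵒᵖ M) (H : Type u) [AddCommGroup H] [Module (Usl2 k)ᵐᵒᵖ H]
    (i : M →ₗ[(Usl2 k)ᵐᵒᵖ] H) (hi : IsPureInjectiveHull i) :
      ∃ (h : IsIndec (Usl2 k)ᵐᵒᵖ H) (h' : IsPureInjective (Usl2 k)ᵐᵒᵖ H),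
        (IsOpen ({Zg.mk H h h'} : Set (Zg (Usl2 k)ᵐᵒᵖ)) ↔ FiniteDimensional k M) := by
  have hgen := (isSl2Gen_U k).op
  haveI : IsNoetherianRing (Usl2 k)ᵐᵒᵖ := hgen.isNoetherianRing
  obtain ⟨hN, hA⟩ := isFiniteLength_iff_isNoetherian_isArtinian.mp hfl
  refine ⟨isIndec_hull hM hi, hi.2.1, ?_⟩
  constructor
  · intro hopen
    by_contra hinf
    exact not_isOpen_of_infinite hgen hfl hM hinf i hi _ _ hopen
  · intro hfd
    obtain ⟨h, h', hop⟩ := (finiteDim_isolated k M hfd hM).2 H i hi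
    exact hop

end Pool.Agent.Work.MP_883c56_al
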