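import Mathlib

set_option autoImplicit false
set_option linter.unusedSectionVars false
set_option linter.style.haveILetI false

universe u

/-!
A noncommutative Hilbert basis theorem: if `A` is left noetherian and `B` is generated by `A` and
`x` with `x A + A = A x + A`, then `B` is left noetherian.
-/

namespace Pool.Agent.Work.MP_883c56_al.Ore

variable {B : Type u} [Ring B] (A : Subring B) (x : B)

/-- `Fil n = ∑_{i < n} x^i A`. -/
def Fil : ℕ → AddSubgroup B
  | 0 => ⊥
  | n + 1 => (A.toAddSubgroup.map (AddMonoidHom.mulLeft (x ^ n))) ⊔ Fil n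

lemma mem_fil_succ {n : ℕ} {b : B} :
    b ∈ Fil A x (n + 1) ↔ ∃ a ∈ A, ∃ z ∈ Fil A x n, b = x ^ n * a + z := by
  rw [Fil, AddSubgroup.mem_sup]
  constructor
  · rintro ⟨_, ⟨a, ha, rfl⟩, z, hz, rfl⟩
    exact ⟨a, ha, z, hz, rfl⟩
  · rintro ⟨a, ha, z, hz, rfl⟩
    exact ⟨_, ⟨a, ha, rfl⟩, z, hz, rfl⟩

lemma fil_mono_succ (n : ℕ) : Fil A x n ≤ Fil A x (n + 1) := by
  intro b hb
  rw [mem_fil_succ]
  exact ⟨0, A.zero_mem, b, hb, by simp⟩

lemma fil_mono {n m : ℕ} (h : n ≤ m) : Fil A x n ≤ Fil A x m := by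
  induction m, h using Nat.le_induction with
  | base => exact le_rfl
  | succ m _ ih => exact ih.trans (fil_mono_succ A x m)

lemma fil_mul {n : ℕ} {b a : B} (hb : b ∈ Fil A x n) (ha : a ∈ A) : b * a ∈ Fil A x n := by
  induction n generalizing b with
  | zero =>
    have : b = 0 := hb
    rw [this, zero_mul]
    exact (Fil A x 0).zero_mem
  | succ n ih =>
    rw [mem_fil_succ] at hb ⊢
    obtain ⟨c, hc, z, hz, rfl⟩ := hb
    exact ⟨c * a, A.mul_mem hc ha, z * a, ih hz, by rw [add_mul, mul_assoc]⟩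

lemma x_mul_fil {n : ℕ} {b : B} (hb : b ∈ Fil A x n) : x * b ∈ Fil A x (n + 1) := by
  induction n generalizing b with
  | zero =>
    have : b = 0 := hb
    rw [this, mul_zero]
    exact (Fil A x _).zero_mem
  | succ n ih =>
    rw [mem_fil_succ] at hb ⊢
    obtain ⟨c, hc, z, hz, rfl⟩ := hb
    exact ⟨c, hc, x * z, ih hz, by rw [mul_add, pow_succ' x n, mul_assoc]⟩

variable {A x}
variable (h2 : ∀ a ∈ A, ∃ a' ∈ A, ∃ a'' ∈ A, a * x = x * a' + a'')

include h2 in
lemma fil_mul_x {n : ℕ} {b : B} (hb : b ∈ Fil A x n) : b * x ∈ Fil A x (n + 1) := by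
  induction n generalizing b with
  | zero =>
    have : b = 0 := hb
    rw [this, zero_mul]
    exact (Fil A x _).zero_mem
  | succ n ih =>
    rw [mem_fil_succ] at hb ⊢
    obtain ⟨c, hc, z, hz, rfl⟩ := hb
    obtain ⟨a', ha', a'', ha'', h⟩ := h2 c hc
    refine ⟨a', ha', x ^ n * a'' + z * x, ?_, ?_⟩
    · refine (Fil A x (n + 1)).add_mem ?_ (ih hz)
      rw [mem_fil_succ]
      exact ⟨a'', ha'', 0, (Fil A x n).zero_mem, by simp⟩
    · rw [add_mul, mul_assoc, h, mul_add, ← mul_assoc, ← pow_succ, add_assoc]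

include h2 in
lemma comm_right (n : ℕ) {b : B} (hb : b ∈ A) : ∃ b' ∈ A, b * x ^ n - x ^ n * b' ∈ Fil A x n := by
  induction n with
  | zero => exact ⟨b, hb, by simp [(Fil A x 0).zero_mem]⟩
  | succ n ih =>
    obtain ⟨b', hb', hz⟩ := ih
    obtain ⟨a', ha', a'', ha'', h⟩ := h2 b' hb'
    refine ⟨a', ha', ?_⟩
    have h3 : b * x ^ (n + 1) - x ^ (n + 1) * a' = x ^ n * a'' + (b * x ^ n - x ^ n * b') * x := by
      rw [sub_mul, mul_assoc (x ^ n) b' x, h, pow_succ, mul_add]
      simp only [mul_assoc]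
      abel
    rw [h3]
    refine (Fil A x (n + 1)).add_mem ?_ (fil_mul_x h2 hz)
    rw [mem_fil_succ]
    exact ⟨a'', ha'', 0, (Fil A x n).zero_mem, by simp⟩

include h2 in
lemma mul_fil {n : ℕ} {a b : B} (ha : a ∈ A) (hb : b ∈ Fil A x n) : a * b ∈ Fil A x n := by
  induction n generalizing b with
  | zero =>
    have : b = 0 := hb
    rw [this, mul_zero]
    exact (Fil A x _).zero_mem
  | succ n ih =>
    rw [mem_fil_succ] at hb
    obtain ⟨c, hc, z, hz, rfl⟩ := hb
    obtain ⟨b', hb', hw⟩ := comm_right h2 n ha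
    rw [mem_fil_succ]
    refine ⟨b' * c, A.mul_mem hb' hc, (a * x ^ n - x ^ n * b') * c + a * z,
      (Fil A x n).add_mem (fil_mul A x hw hc) (ih hz), ?_⟩
    rw [sub_mul, mul_add]
    simp only [mul_assoc]
    abel

variable (h1 : ∀ a ∈ A, ∃ a' ∈ A, ∃ a'' ∈ A, x * a = a' * x + a'')

include h1 h2 in
lemma comm_left (n : ℕ) {b : B} (hb : b ∈ A) : ∃ b' ∈ A, x ^ n * b - b' * x ^ n ∈ Fil A x n := by
  induction n with
  | zero => exact ⟨b, hb, by simp [(Fil A x 0).zero_mem]⟩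
  | succ n ih =>
    obtain ⟨b', hb', hz⟩ := ih
    obtain ⟨a', ha', a'', ha'', h⟩ := h1 b' hb'
    refine ⟨a', ha', ?_⟩
    have h3 : x ^ (n + 1) * b - a' * x ^ (n + 1) = a'' * x ^ n + x * (x ^ n * b - b' * x ^ n) := by
      rw [mul_sub, ← mul_assoc x b', h, pow_succ' x n, add_mul]
      simp only [mul_assoc]
      abel
    rw [h3]
    refine (Fil A x (n + 1)).add_mem ?_ (x_mul_fil A x hz)
    obtain ⟨c, hc, hw⟩ := comm_right h2 n ha''
    rw [mem_fil_succ]
    exact ⟨c, hc, _, hw, by abel⟩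

/-- leading coefficients of the elements of `I` -/
def lead (A : Subring B) (x : B) (I : AddSubgroup B) (n : ℕ) : Set B :=
  {a | a ∈ A ∧ ∃ z ∈ Fil A x n, x ^ n * a + z ∈ I}

/-- The ideal of leading coefficients. -/
def leadIdeal (h2 : ∀ a ∈ A, ∃ a' ∈ A, ∃ a'' ∈ A, a * x = x * a' + a'')
    (h1 : ∀ a ∈ A, ∃ a' ∈ A, ∃ a'' ∈ A, x * a = a' * x + a'')
    (I : AddSubgroup B) (hI : ∀ a ∈ A, ∀ b ∈ I, a * b ∈ I) (n : ℕ) : Submodule A A where
  carrier := {a | (a : B) ∈ lead A x I n}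
  zero_mem' := ⟨A.zero_mem, 0, (Fil A x n).zero_mem, by simp [I.zero_mem]⟩
  add_mem' := by
    rintro a b ⟨_, z, hz, ha⟩ ⟨_, w, hw, hb⟩
    refine ⟨(a + b).2, z + w, (Fil A x n).add_mem hz hw, ?_⟩
    have h : x ^ n * ((a + b : A) : B) + (z + w) = (x ^ n * a + z) + (x ^ n * b + w) := by
      push_cast
      rw [mul_add]
      abel
    rw [h]
    exact I.add_mem ha hb
  smul_mem' := by
    rintro c a ⟨_, z, hz, ha⟩
    obtain ⟨b', hb', hw⟩ := comm_left h2 h1 n c.2
    refine ⟨(c • a).2, (b' * x ^ n - x ^ n * c) * a + b' * z, ?_, ?_⟩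
    · refine (Fil A x n).add_mem (fil_mul A x ?_ a.2) (mul_fil h2 hb' hz)
      rw [← neg_sub]
      exact (Fil A x n).neg_mem hw
    · have h : x ^ n * ((c • a : A) : B) + ((b' * x ^ n - x ^ n * c) * a + b' * z) =
          b' * (x ^ n * a + z) := by
        rw [smul_eq_mul]
        push_cast
        rw [sub_mul, mul_add]
        simp only [mul_assoc]
        abel
      rw [h]
      exact hI _ hb' _ ha

lemma mem_leadIdeal (I : AddSubgroup B) (hI : ∀ a ∈ A, ∀ b ∈ I, a * b ∈ I) (n : ℕ) (a : A) :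
    a ∈ leadIdeal h2 h1 I hI n ↔ ∃ z ∈ Fil A x n, x ^ n * a + z ∈ I :=
  ⟨fun h => h.2, fun h => ⟨a.2, h⟩⟩

include h1 h2 in
/-- The Hilbert basis theorem. -/
theorem isNoetherianRing_of_step (hA : IsNoetherianRing A) (C : Subring B) (hAC : A ≤ C)
    (hx : x ∈ C) (hC : ∀ c ∈ C, ∃ n, c ∈ Fil A x n) : IsNoetherianRing C := by
  rw [isNoetherianRing_iff, ← monotone_stabilizes_iff_noetherian]
  intro f
  -- the additive subgroups of B
  let I : ℕ → AddSubgroup B := fun k => (f k).toAddSubgroup.map C.subtype.toAddMonoidHom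
  have hImem : ∀ k b, b ∈ I k ↔ ∃ h : b ∈ C, (⟨b, h⟩ : C) ∈ f k := by
    intro k b
    constructor
    · rintro ⟨c, hc, rfl⟩
      exact ⟨c.2, hc⟩
    · rintro ⟨h, hb⟩
      exact ⟨⟨b, h⟩, hb, rfl⟩
  have hIC : ∀ k, ∀ c ∈ C, ∀ b ∈ I k, c * b ∈ I k := by
    intro k c hc b hb
    rw [hImem] at hb ⊢
    obtain ⟨h, hb⟩ := hb
    exact ⟨C.mul_mem hc h, (f k).smul_mem ⟨c, hc⟩ hb⟩
  have hIA : ∀ k, ∀ a ∈ A, ∀ b ∈ I k, a * b ∈ I k := fun k a ha => hIC k a (hAC ha)
  have hImono : ∀ k l, k ≤ l → I k ≤ I l := by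
    intro k l hkl b hb
    rw [hImem] at hb ⊢
    obtain ⟨h, hb⟩ := hb
    exact ⟨h, f.monotone hkl hb⟩
  let L : ℕ → ℕ → Submodule A A := fun n k => leadIdeal h2 h1 (I k) (hIA k) n
  have hLmem : ∀ n k (a : A), a ∈ L n k ↔ ∃ z ∈ Fil A x n, x ^ n * a + z ∈ I k :=
    fun n k a => mem_leadIdeal h2 h1 (I k) (hIA k) n a
  have hL1 : ∀ n k l, k ≤ l → L n k ≤ L n l := by
    intro n k l hkl a ha
    rw [hLmem] at ha ⊢
    obtain ⟨z, hz, h⟩ := ha
    exact ⟨z, hz, hImono k l hkl h⟩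
  have hL2' : ∀ n k, L n k ≤ L (n + 1) k := by
    intro n k a ha
    rw [hLmem] at ha ⊢
    obtain ⟨z, hz, h⟩ := ha
    refine ⟨x * z, x_mul_fil A x hz, ?_⟩
    have h3 : x ^ (n + 1) * (a : B) + x * z = x * (x ^ n * a + z) := by
      rw [mul_add, pow_succ' x n, mul_assoc]
    rw [h3]
    exact hIC k x hx _ h
  have hL2 : ∀ n m k, n ≤ m → L n k ≤ L m k := by
    intro n m k hnm
    induction m, hnm using Nat.le_induction with
    | base => exact le_rfl
    | succ m _ ih => exact ih.trans (hL2' m k)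
  have hmono : ∀ n m k l, n ≤ m → k ≤ l → L n k ≤ L m l :=
    fun n m k l h h' => (hL2 n m k h).trans (hL1 m k l h')
  have hnoeth := monotone_stabilizes_iff_noetherian.mpr ((isNoetherianRing_iff).mp hA)
  obtain ⟨N, hN⟩ := hnoeth ⟨fun m => L m m, fun m m' h => hmono m m' m m' h h⟩
  have hN' : ∀ n k, N ≤ n → N ≤ k → L n k = L N N := by
    intro n k hn hk
    apply le_antisymm
    · have h3 : L (max n k) (max n k) = L N N := (hN (max n k) (hn.trans (le_max_left _ _))).symm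
      rw [← h3]
      exact hmono _ _ _ _ (le_max_left _ _) (le_max_right _ _)
    · exact hmono _ _ _ _ hn hk
  have hstab : ∀ n, ∃ K, ∀ k, K ≤ k → L n K = L n k := fun n =>
    hnoeth ⟨fun k => L n k, fun k l h => hL1 n k l h⟩
  choose K hK using hstab
  let M := max N ((Finset.range N).sup K)
  have hM : ∀ n k, M ≤ k → L n M = L n k := by
    intro n k hk
    have hNM : N ≤ M := le_max_left _ _
    by_cases hn : N ≤ n
    · rw [hN' n M hn hNM, hN' n k hn (hNM.trans hk)]
    · have h3 : K n ≤ M :=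
        (Finset.le_sup (Finset.mem_range.mpr (not_le.mp hn))).trans (le_max_right _ _)
      rw [← hK n M h3, ← hK n k (h3.trans hk)]
  refine ⟨M, fun k hk => ?_⟩
  -- equality of the ideals
  have key : ∀ n, ∀ b ∈ Fil A x n, b ∈ I k → b ∈ I M := by
    intro n
    induction n with
    | zero =>
      intro b hb _
      have : b = 0 := hb
      rw [this]
      exact (I M).zero_mem
    | succ n ih =>
      intro b hb hbk
      rw [mem_fil_succ] at hb
      obtain ⟨a, ha, z, hz, rfl⟩ := hb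
      have h3 : (⟨a, ha⟩ : A) ∈ L n k := (hLmem _ _ _).mpr ⟨z, hz, hbk⟩
      rw [← hM n k hk, hLmem] at h3
      obtain ⟨w, hw, h4⟩ := h3
      have h5 : z - w ∈ I k := by
        have h6 : z - w = (x ^ n * a + z) - (x ^ n * a + w) := by abel
        rw [h6]
        exact (I k).sub_mem hbk (hImono M k hk h4)
      have h7 := ih (z - w) ((Fil A x n).sub_mem hz hw) h5
      have h8 : x ^ n * a + z = (x ^ n * a + w) + (z - w) := by abel
      rw [h8]
      exact (I M).add_mem h4 h7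
  apply le_antisymm (f.monotone hk)
  intro c hc
  obtain ⟨n, hn⟩ := hC c c.2
  have h3 : (c : B) ∈ I k := (hImem _ _).mpr ⟨c.2, hc⟩
  have h4 := key n c hn h3
  rw [hImem] at h4
  exact h4.2

/-- Version with generators. -/
theorem isNoetherianRing_closure_insert (G : Set B) (x : B)
    (hN : IsNoetherianRing (Subring.closure G))
    (h1 : ∀ g ∈ G, ∃ a' ∈ Subring.closure G, ∃ a'' ∈ Subring.closure G, x * g = a' * x + a'')
    (h2 : ∀ g ∈ G, ∃ a' ∈ Subring.closure G, ∃ a'' ∈ Subring.closure G, g * x = x * a' + a'') :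
    IsNoetherianRing (Subring.closure (insert x G)) := by
  set A := Subring.closure G with hA
  have H1 : ∀ a ∈ A, ∃ a' ∈ A, ∃ a'' ∈ A, x * a = a' * x + a'' := by
    intro a ha
    induction ha using Subring.closure_induction with
    | mem g hg => exact h1 g hg
    | zero => exact ⟨0, A.zero_mem, 0, A.zero_mem, by simp⟩
    | one => exact ⟨1, A.one_mem, 0, A.zero_mem, by simp⟩
    | add a b _ _ iha ihb =>
      obtain ⟨a', ha', a'', ha'', h⟩ := iha
      obtain ⟨b', hb', b'', hb'', h'⟩ := ihb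
      exact ⟨a' + b', A.add_mem ha' hb', a'' + b'', A.add_mem ha'' hb'', by
        rw [mul_add, h, h', add_mul]; abel⟩
    | neg a _ iha =>
      obtain ⟨a', ha', a'', ha'', h⟩ := iha
      exact ⟨-a', A.neg_mem ha', -a'', A.neg_mem ha'', by rw [mul_neg, h, neg_mul]; abel⟩
    | mul a b ha0 hb0 iha ihb =>
      obtain ⟨a', ha', a'', ha'', h⟩ := iha
      obtain ⟨b', hb', b'', hb'', h'⟩ := ihb
      refine ⟨a' * b', A.mul_mem ha' hb', a' * b'' + a'' * b,
        A.add_mem (A.mul_mem ha' hb'') (A.mul_mem ha'' hb0), ?_⟩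
      rw [← mul_assoc, h, add_mul, mul_assoc, h', mul_add, mul_assoc]
      abel
  have H2 : ∀ a ∈ A, ∃ a' ∈ A, ∃ a'' ∈ A, a * x = x * a' + a'' := by
    intro a ha
    induction ha using Subring.closure_induction with
    | mem g hg => exact h2 g hg
    | zero => exact ⟨0, A.zero_mem, 0, A.zero_mem, by simp⟩
    | one => exact ⟨1, A.one_mem, 0, A.zero_mem, by simp⟩
    | add a b _ _ iha ihb =>
      obtain ⟨a', ha', a'', ha'', h⟩ := iha
      obtain ⟨b', hb', b'', hb'', h'⟩ := ihb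
      exact ⟨a' + b', A.add_mem ha' hb', a'' + b'', A.add_mem ha'' hb'', by
        rw [add_mul, h, h', mul_add]; abel⟩
    | neg a _ iha =>
      obtain ⟨a', ha', a'', ha'', h⟩ := iha
      exact ⟨-a', A.neg_mem ha', -a'', A.neg_mem ha'', by rw [neg_mul, h, mul_neg]; abel⟩
    | mul a b ha0 hb0 iha ihb =>
      obtain ⟨a', ha', a'', ha'', h⟩ := iha
      obtain ⟨b', hb', b'', hb'', h'⟩ := ihb
      refine ⟨a' * b', A.mul_mem ha' hb', a'' * b' + a * b'',
        A.add_mem (A.mul_mem ha'' hb') (A.mul_mem ha0 hb''), ?_⟩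
      rw [mul_assoc, h', mul_add, ← mul_assoc a x b', h, add_mul, mul_assoc]
      abel
  have hAC : A ≤ Subring.closure (insert x G) :=
    Subring.closure_mono (Set.subset_insert x G)
  have hx : x ∈ Subring.closure (insert x G) := Subring.subset_closure (Set.mem_insert x G)
  refine isNoetherianRing_of_step H2 H1 hN (Subring.closure (insert x G)) hAC hx ?_
  -- left multiplication preserves the union of the filtration
  have key : ∀ c ∈ Subring.closure (insert x G), ∀ g, (∃ n, g ∈ Fil A x n) →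
      ∃ n, c * g ∈ Fil A x n := by
    intro c hc
    induction hc using Subring.closure_induction with
    | mem c hc =>
      rintro g ⟨n, hn⟩
      rcases Set.mem_insert_iff.mp hc with rfl | hc
      · exact ⟨n + 1, x_mul_fil A c hn⟩
      · exact ⟨n, mul_fil H2 (Subring.subset_closure hc) hn⟩
    | zero => exact fun g _ => ⟨0, by rw [zero_mul]; exact (Fil A x 0).zero_mem⟩
    | one => exact fun g hg => by rw [one_mul]; exact hg
    | add a b _ _ iha ihb =>
      intro g hg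
      obtain ⟨n, hn⟩ := iha g hg
      obtain ⟨m, hm⟩ := ihb g hg
      refine ⟨max n m, ?_⟩
      rw [add_mul]
      exact (Fil A x _).add_mem (fil_mono A x (le_max_left _ _) hn)
        (fil_mono A x (le_max_right _ _) hm)
    | neg a _ iha =>
      intro g hg
      obtain ⟨n, hn⟩ := iha g hg
      exact ⟨n, by rw [neg_mul]; exact (Fil A x n).neg_mem hn⟩
    | mul a b _ _ iha ihb =>
      intro g hg
      rw [mul_assoc]
      exact iha _ (ihb g hg)
  intro c hc
  obtain ⟨n, hn⟩ := key c hc 1 ⟨1, by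
    rw [mem_fil_succ]
    exact ⟨1, A.one_mem, 0, (Fil A x 0).zero_mem, by simp⟩⟩
  exact ⟨n, by rwa [mul_one] at hn⟩

end Pool.Agent.Work.MP_883c56_al.Ore
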