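import Pool.Agent.Work.MP_883c56_al.Sl2Gen

set_option autoImplicit false
set_option linter.unusedSectionVars false
set_option linter.style.haveILetI false

universe u

namespace Pool.Agent.Work.MP_883c56_al

section

variable {k : Type u} [Field k]

lemma AdNil.of_injective {R R' : Type u} [Ring R] [Ring R'] (f : R →+* R')
    (hf : Function.Injective f) {x : R} {n : ℕ} {g : R} (h : AdNil (f x) n (f g)) :
    AdNil x n g := by
  induction n generalizing g with
  | zero =>
    have h1 : f g = 0 := h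
    show g = 0
    exact hf (by rw [h1, map_zero])
  | succ n ih =>
    have h1 : AdNil (f x) n (f x * f g - f g * f x) := h
    show AdNil x n _
    apply ih
    rw [map_sub, map_mul, map_mul]
    exact h1

variable {B : Type u} [Ring B] [Algebra k B]

theorem isNoetherianRing_adjoin {τ X Hh Y : B} (c1 : τ * X = X * τ) (c2 : τ * Hh = Hh * τ)
    (c3 : τ * Y = Y * τ) (hX : Hh * X = X * Hh + 2 * τ * X) (hY : Y * X = X * Y - τ * Hh)
    (hYH : Y * Hh = Hh * Y + 2 * τ * Y) :
    IsNoetherianRing (Algebra.adjoin k ({τ, X, Hh, Y} : Set B)) := by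
  set G0 : Set B := Set.range (algebraMap k B) with hG0
  have n0 : IsNoetherianRing (Subring.closure G0) := isNoetherianRing_closure_range
  have hsc : ∀ (G : Set B) (x : B) (c : k), G0 ⊆ G →
      ∃ a' ∈ Subring.closure G, ∃ a'' ∈ Subring.closure G, x * algebraMap k B c = a' * x + a'' := by
    intro G x c hG
    exact ⟨_, Subring.subset_closure (hG ⟨c, rfl⟩), 0, Subring.zero_mem _, by
        rw [Algebra.commutes, add_zero]⟩
  have hsc' : ∀ (G : Set B) (x : B) (c : k), G0 ⊆ G →
      ∃ a' ∈ Subring.closure G, ∃ a'' ∈ Subring.closure G, algebraMap k B c * x = x * a' + a'' := by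
    intro G x c hG
    exact ⟨_, Subring.subset_closure (hG ⟨c, rfl⟩), 0, Subring.zero_mem _, by
        rw [Algebra.commutes, add_zero]⟩
  have hcm : ∀ (G : Set B) (x g : B), g ∈ G → x * g = g * x →
      ∃ a' ∈ Subring.closure G, ∃ a'' ∈ Subring.closure G, x * g = a' * x + a'' := by
    intro G x g hg h
    exact ⟨_, Subring.subset_closure hg, 0, Subring.zero_mem _, by rw [h, add_zero]⟩
  have hcm' : ∀ (G : Set B) (x g : B), g ∈ G → x * g = g * x →
      ∃ a' ∈ Subring.closure G, ∃ a'' ∈ Subring.closure G, g * x = x * a' + a'' := by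
    intro G x g hg h
    exact ⟨_, Subring.subset_closure hg, 0, Subring.zero_mem _, by rw [h, add_zero]⟩
  -- add τ
  set G1 : Set B := insert τ G0 with hG1
  have hs01 : G0 ⊆ G1 := Set.subset_insert _ _
  have n1 : IsNoetherianRing (Subring.closure G1) := by
    apply Ore.isNoetherianRing_closure_insert G0 τ n0
    · rintro _ ⟨c, rfl⟩
      exact hsc G0 τ c subset_rfl
    · rintro _ ⟨c, rfl⟩
      exact hsc' G0 τ c subset_rfl
  -- add X
  set G2 : Set B := insert X G1 with hG2
  have hs12 : G1 ⊆ G2 := Set.subset_insert _ _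
  have n2 : IsNoetherianRing (Subring.closure G2) := by
    apply Ore.isNoetherianRing_closure_insert G1 X n1
    · rintro g (rfl | ⟨c, rfl⟩)
      · exact hcm G1 X g (Set.mem_insert _ _) c1.symm
      · exact hsc G1 X c hs01
    · rintro g (rfl | ⟨c, rfl⟩)
      · exact hcm' G1 X g (Set.mem_insert _ _) c1.symm
      · exact hsc' G1 X c hs01
  -- add Hh
  have hτ2 : τ ∈ Subring.closure G2 := Subring.subset_closure (by simp [hG2, hG1])
  have hX2 : X ∈ Subring.closure G2 := Subring.subset_closure (by simp [hG2])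
  have h22 : (2 : B) ∈ Subring.closure G2 := by
    have := Subring.add_mem (Subring.closure G2) (Subring.one_mem _) (Subring.one_mem _)
    rwa [one_add_one_eq_two] at this
  have hτX : 2 * τ * X ∈ Subring.closure G2 := Subring.mul_mem _ (Subring.mul_mem _ h22 hτ2) hX2
  set G3 : Set B := insert Hh G2 with hG3
  have hs23 : G2 ⊆ G3 := Set.subset_insert _ _
  have n3 : IsNoetherianRing (Subring.closure G3) := by
    apply Ore.isNoetherianRing_closure_insert G2 Hh n2
    · rintro g (rfl | rfl | ⟨c, rfl⟩)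
      · exact ⟨g, hX2, 2 * τ * g, hτX, hX⟩
      · exact hcm G2 Hh g (by simp [hG2, hG1]) c2.symm
      · exact hsc G2 Hh c (hs01.trans hs12)
    · rintro g (rfl | rfl | ⟨c, rfl⟩)
      · exact ⟨g, hX2, -(2 * τ * g), Subring.neg_mem _ hτX, by rw [hX]; abel⟩
      · exact hcm' G2 Hh g (by simp [hG2, hG1]) c2.symm
      · exact hsc' G2 Hh c (hs01.trans hs12)
  -- add Y
  have hle : Subring.closure G2 ≤ Subring.closure G3 := Subring.closure_mono hs23
  have hH3 : Hh ∈ Subring.closure G3 := Subring.subset_closure (by simp [hG3])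
  set G4 : Set B := insert Y G3 with hG4
  have n4 : IsNoetherianRing (Subring.closure G4) := by
    apply Ore.isNoetherianRing_closure_insert G3 Y n3
    · rintro g (rfl | rfl | rfl | ⟨c, rfl⟩)
      · exact ⟨g + 2 * τ, Subring.add_mem _ hH3 (Subring.mul_mem _ (hle h22) (hle hτ2)), 0,
          Subring.zero_mem _, by rw [hYH, add_mul, add_zero]⟩
      · exact ⟨g, hle hX2, -(τ * Hh), Subring.neg_mem _ (Subring.mul_mem _ (hle hτ2) hH3), by
          rw [hY]; abel⟩
      · exact hcm G3 Y g (by simp [hG3, hG2, hG1]) c3.symm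
      · exact hsc G3 Y c ((hs01.trans hs12).trans hs23)
    · rintro g (rfl | rfl | rfl | ⟨c, rfl⟩)
      · refine ⟨g - 2 * τ, Subring.sub_mem _ hH3 (Subring.mul_mem _ (hle h22) (hle hτ2)), 0,
          Subring.zero_mem _, ?_⟩
        rw [mul_sub, hYH]
        have e1 : Y * (2 * τ) = 2 * (Y * τ) := by noncomm_ring
        rw [e1, ← c3]
        noncomm_ring
      · exact ⟨g, hle hX2, τ * Hh, Subring.mul_mem _ (hle hτ2) hH3, by
          rw [hY]; abel⟩
      · exact hcm' G3 Y g (by simp [hG3, hG2, hG1]) c3.symm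
      · exact hsc' G3 Y c ((hs01.trans hs12).trans hs23)
  have h1 := Algebra.adjoin_eq_ring_closure (R := k) ({τ, X, Hh, Y} : Set B)
  have h2 : Set.range (algebraMap k B) ∪ {τ, X, Hh, Y} = G4 := by
    ext z
    simp only [hG4, hG3, hG2, hG1, Set.mem_union, Set.mem_insert_iff, Set.mem_singleton_iff]
    tauto
  rw [h2] at h1
  have e : Subring.closure G4 ≃+* (Algebra.adjoin k ({τ, X, Hh, Y} : Set B)).toSubring :=
    RingEquiv.subringCongr h1.symm
  exact isNoetherianRing_of_ringEquiv _ e

lemma rees_relations {B : Type u} [Ring B] {τ a b c : B} (ca : τ * a = a * τ) (cb : τ * b = b * τ)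
    (cc : τ * c = c * τ) (r1 : b * a = a * b + 2 * a) (r2 : b * c = c * b - 2 * c)
    (r3 : a * c = c * a + b) :
    τ * (τ * b) = τ * b * τ ∧ τ * (τ * (τ * c)) = τ * (τ * c) * τ ∧
    (τ * b) * a = a * (τ * b) + 2 * τ * a ∧
    (τ * (τ * c)) * a = a * (τ * (τ * c)) - τ * (τ * b) ∧
    (τ * (τ * c)) * (τ * b) = (τ * b) * (τ * (τ * c)) + 2 * τ * (τ * (τ * c)) ∧
    AdNil a 1 τ ∧ AdNil a 1 a ∧ AdNil a 2 (τ * b) ∧ AdNil a 3 (τ * (τ * c)) := by
  have e1 : a * (τ * b) = τ * (a * b) := by rw [← mul_assoc, ← ca, mul_assoc]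
  have e2 : a * (τ * (τ * c)) = τ * (τ * (a * c)) := by
    rw [← mul_assoc, ← ca, mul_assoc, ← mul_assoc a, ← ca, mul_assoc]
  have e3 : c * (τ * b) = τ * (c * b) := by rw [← mul_assoc, ← cc, mul_assoc]
  have e4 : b * (τ * (τ * c)) = τ * (τ * (b * c)) := by
    rw [← mul_assoc, ← cb, mul_assoc, ← mul_assoc b, ← cb, mul_assoc]
  have e5 : a * (τ * a) = τ * (a * a) := by rw [← mul_assoc, ← ca, mul_assoc]
  have e6 : a * (τ * (τ * a)) = τ * (τ * (a * a)) := by
    rw [← mul_assoc, ← ca, mul_assoc, ← mul_assoc a, ← ca, mul_assoc]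
  have e7 : a * (τ * (τ * b)) = τ * (τ * (a * b)) := by
    rw [← mul_assoc, ← ca, mul_assoc, ← mul_assoc a, ← ca, mul_assoc]
  refine ⟨?_, ?_, ?_, ?_, ?_, ?_, ?_, ?_, ?_⟩
  · rw [mul_assoc, cb]
  · rw [mul_assoc, mul_assoc, cc]
  · rw [mul_assoc, r1, e1]
    noncomm_ring
  · rw [e2, r3]
    noncomm_ring
  · rw [mul_assoc τ b, e4, r2, mul_assoc τ, mul_assoc τ c, e3]
    noncomm_ring
  · show a * τ - τ * a = 0
    rw [ca, sub_self]
  · show a * a - a * a = 0
    rw [sub_self]
  · show a * (a * (τ * b) - τ * b * a) - (a * (τ * b) - τ * b * a) * a = 0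
    have h1 : a * (τ * b) - τ * b * a = -(τ * a + τ * a) := by
      rw [e1, mul_assoc, r1]
      noncomm_ring
    rw [h1, mul_neg, mul_add, e5]
    noncomm_ring
  · show a * (a * (a * (τ * (τ * c)) - τ * (τ * c) * a) -
      (a * (τ * (τ * c)) - τ * (τ * c) * a) * a) -
      (a * (a * (τ * (τ * c)) - τ * (τ * c) * a) -
      (a * (τ * (τ * c)) - τ * (τ * c) * a) * a) * a = 0
    have h1 : a * (τ * (τ * c)) - τ * (τ * c) * a = τ * (τ * b) := by
      rw [e2, r3]
      noncomm_ring
    have h2 : a * (τ * (τ * b)) - τ * (τ * b) * a = -(τ * (τ * a) + τ * (τ * a)) := by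
      rw [e7, mul_assoc, mul_assoc, r1]
      noncomm_ring
    rw [h1, h2, mul_neg, mul_add, e6]
    noncomm_ring

/-- The variant of `finite_eigenvalues` for the quotient of a noetherian submodule by a central
element. -/
theorem finite_eigenvalues_mod {R : Type u} [Ring R] [Algebra k R] {G : Set R}
    (hG : Algebra.adjoin k G = ⊤) {x : R} (hx : ∀ g ∈ G, ∃ n, AdNil x n g) (τ : R)
    (hτ : ∀ r, τ * r = r * τ) {P : Type u} [AddCommGroup P] [Module R P] (W : Submodule R P)
    [IsNoetherian R W] :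
    {α : k | ∃ w ∈ W, (∀ w' ∈ W, w ≠ τ • w') ∧
      ∃ w' ∈ W, (x - algebraMap k R α) • w = τ • w'}.Finite := by
  let N : Submodule R W :=
    { carrier := {w | ∃ w' : W, w = τ • w'}
      add_mem' := by
        rintro a b ⟨a', rfl⟩ ⟨b', rfl⟩
        exact ⟨a' + b', by rw [smul_add]⟩
      zero_mem' := ⟨0, by rw [smul_zero]⟩
      smul_mem' := by
        rintro c a ⟨a', rfl⟩
        refine ⟨c • a', ?_⟩
        rw [← mul_smul, ← mul_smul, hτ] }
  refine (finite_eigenvalues (k := k) hG hx (W ⧸ N)).subset ?_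
  rintro α ⟨w, hw, h1, w', hw', h2⟩
  refine ⟨Submodule.Quotient.mk ⟨w, hw⟩, ?_, ?_⟩
  · intro h0
    rw [Submodule.Quotient.mk_eq_zero] at h0
    obtain ⟨w'', hw''⟩ := h0
    exact h1 w'' w''.2 (congrArg Subtype.val hw'')
  · rw [← Submodule.Quotient.mk_smul, Submodule.Quotient.mk_eq_zero]
    exact ⟨⟨w', hw'⟩, Subtype.ext h2⟩

theorem finite_eigenvalues_mod' {R : Type u} [Ring R] [Algebra k R] [IsNoetherianRing R]
    {G : Set R} (hG : Algebra.adjoin k G = ⊤) {x : R} (hx : ∀ g ∈ G, ∃ n, AdNil x n g) (τ : R)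
    (hτ : ∀ r, τ * r = r * τ) {P : Type u} [AddCommGroup P] [Module R P] (v : P) :
    {α : k | ∃ w ∈ Submodule.span R {v}, (∀ w' ∈ Submodule.span R {v}, w ≠ τ • w') ∧
      ∃ w' ∈ Submodule.span R {v}, (x - algebraMap k R α) • w = τ • w'}.Finite := by
  haveI : Module.Finite R (Submodule.span R {v}) := Module.Finite.span_singleton R v
  haveI : IsNoetherian R (Submodule.span R {v}) := isNoetherian_of_isNoetherianRing_of_finite R _
  exact finite_eigenvalues_mod hG hx τ hτ _

end

section

variable {k : Type u} [Field k] {S : Type u} [Ring S] [Algebra k S]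
  (T : Type u) [AddCommGroup T] [Module S T] [Module k T] [IsScalarTower k S T]

/-- The shift. -/
def shift : Module.End k (ℕ → T) where
  toFun p n := match n with
    | 0 => 0
    | n + 1 => p n
  map_add' p q := by
    funext n
    cases n with
    | zero => simp
    | succ n => rfl
  map_smul' c p := by
    funext n
    cases n with
    | zero => simp
    | succ n => rfl

/-- The componentwise action. -/
def actEnd : S →+* Module.End k (ℕ → T) := Module.toModuleEnd k (ℕ → T)

@[simp] lemma shift_zero (p : ℕ → T) : (shift T : Module.End k (ℕ → T)) p 0 = 0 := rfl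
@[simp] lemma shift_succ (p : ℕ → T) (n : ℕ) :
    (shift T : Module.End k (ℕ → T)) p (n + 1) = p n := rfl

@[simp] lemma actEnd_apply (s : S) (p : ℕ → T) (n : ℕ) :
    (actEnd (k := k) T s) p n = s • p n := rfl

lemma shift_mul_actEnd (s : S) : (shift T : Module.End k (ℕ → T)) * actEnd T s =
    actEnd T s * shift T := by
  ext p n
  cases n with
  | zero => simp
  | succ n => simp

lemma shift_single (n : ℕ) (t : T) : (shift T : Module.End k (ℕ → T)) (Pi.single n t) =
    Pi.single (n + 1) t := by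
  funext m
  cases m with
  | zero => simp
  | succ m =>
    rw [shift_succ]
    simp only [Pi.single_apply, Nat.add_right_cancel_iff]

lemma actEnd_single (s : S) (n : ℕ) (t : T) : (actEnd (k := k) T s) (Pi.single n t) =
    Pi.single n (s • t) := by
  funext m
  rw [actEnd_apply]
  simp only [Pi.single_apply, smul_ite, smul_zero]

lemma exists_eigenvector_of_aeval [IsAlgClosed k] {T : Type u} [AddCommGroup T] [Module S T]
    (x : S) {v : T} (hv : v ≠ 0) (P : Polynomial k) (hP : P ≠ 0)
    (h : Polynomial.aeval x P • v = 0) :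
    ∃ α : k, ∃ t : T, t ≠ 0 ∧ (x - algebraMap k S α) • t = 0 := by
  induction hn : P.natDegree using Nat.strong_induction_on generalizing P with
  | _ n ih =>
    by_cases hdeg : P.degree = 0
    · exfalso
      rw [Polynomial.eq_C_of_degree_eq_zero hdeg] at h hP
      rw [Polynomial.aeval_C] at h
      have hc : P.coeff 0 ≠ 0 := by
        intro h0
        apply hP
        rw [h0, Polynomial.C_0]
      apply hv
      have h2 : algebraMap k S (P.coeff 0)⁻¹ • (algebraMap k S (P.coeff 0) • v) = v := by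
        rw [← mul_smul, ← map_mul, inv_mul_cancel₀ hc, map_one, one_smul]
      rw [← h2, h, smul_zero]
    · obtain ⟨α, hα⟩ := IsAlgClosed.exists_root P hdeg
      obtain ⟨P', hP'⟩ := Polynomial.dvd_iff_isRoot.mpr hα
      have hP'0 : P' ≠ 0 := by
        rintro rfl
        exact hP (by rw [hP', mul_zero])
      have hdeg' : P'.natDegree < n := by
        rw [← hn, hP', Polynomial.natDegree_mul (Polynomial.X_sub_C_ne_zero α) hP'0,
          Polynomial.natDegree_X_sub_C]
        omega
      by_cases h1 : Polynomial.aeval x P' • v = 0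
      · exact ih _ hdeg' P' hP'0 h1 rfl
      · refine ⟨α, _, h1, ?_⟩
        rw [← mul_smul]
        rw [hP', map_mul, map_sub, Polynomial.aeval_X, Polynomial.aeval_C] at h
        exact h

end

end Pool.Agent.Work.MP_883c56_al
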