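import Pool.Agent.Work.MP_883c56_al.AdNil
import Pool.Agent.Work.MP_883c56_al.Ore

set_option autoImplicit false
set_option linter.unusedSectionVars false
set_option linter.style.haveILetI false

universe u

namespace Pool.Agent.Work.MP_883c56_al

section

variable (k : Type u) {S : Type u} [Field k] [Ring S] [Algebra k S]

/-- `S` is generated by `E, H, F` with the relations of `sl_2`. -/
structure IsSl2Gen (E H F : S) : Prop where
  he : H * E = E * H + 2 * E
  hf : H * F = F * H - 2 * F
  ef : E * F = F * E + H
  adj : Algebra.adjoin k {E, H, F} = (⊤ : Subalgebra k S)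

variable {k}

lemma IsSl2Gen.op {E H F : S} (h : IsSl2Gen k E H F) :
    IsSl2Gen k (-MulOpposite.op E) (-MulOpposite.op H) (-MulOpposite.op F) where
  he := by
    apply MulOpposite.unop_injective
    simp only [MulOpposite.unop_mul, MulOpposite.unop_neg, MulOpposite.unop_op,
      MulOpposite.unop_add, MulOpposite.unop_ofNat]
    have := h.he
    rw [neg_mul_neg, neg_mul_neg, this]
    noncomm_ring
  hf := by
    apply MulOpposite.unop_injective
    simp only [MulOpposite.unop_mul, MulOpposite.unop_neg, MulOpposite.unop_op,
      MulOpposite.unop_sub, MulOpposite.unop_ofNat]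
    have := h.hf
    rw [neg_mul_neg, neg_mul_neg, this]
    noncomm_ring
  ef := by
    apply MulOpposite.unop_injective
    simp only [MulOpposite.unop_mul, MulOpposite.unop_neg, MulOpposite.unop_op,
      MulOpposite.unop_add]
    have := h.ef
    rw [neg_mul_neg, neg_mul_neg, this]
    abel
  adj := by
    have h1 : Algebra.adjoin k ({MulOpposite.op E, MulOpposite.op H, MulOpposite.op F} :
        Set Sᵐᵒᵖ) = ⊤ := by
      have h2 := congrArg Subalgebra.op h.adj
      rw [Subalgebra.op_adjoin, Subalgebra.op_top] at h2
      rw [← h2]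
      congr 1
      ext z
      simp only [Set.mem_insert_iff, Set.mem_singleton_iff, Set.mem_preimage,
        ← MulOpposite.unop_inj, MulOpposite.unop_op]
    rw [eq_top_iff, ← h1]
    apply Algebra.adjoin_le
    intro z hz
    simp only [Set.mem_insert_iff, Set.mem_singleton_iff] at hz
    have hneg : ∀ y ∈ ({-MulOpposite.op E, -MulOpposite.op H, -MulOpposite.op F} : Set Sᵐᵒᵖ),
        -y ∈ Algebra.adjoin k
          ({-MulOpposite.op E, -MulOpposite.op H, -MulOpposite.op F} : Set Sᵐᵒᵖ) := by
      intro y hy
      exact Subalgebra.neg_mem _ (Algebra.subset_adjoin hy)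
    rcases hz with rfl | rfl | rfl
    · have := hneg (-MulOpposite.op E) (by simp)
      rwa [neg_neg] at this
    · have := hneg (-MulOpposite.op H) (by simp)
      rwa [neg_neg] at this
    · have := hneg (-MulOpposite.op F) (by simp)
      rwa [neg_neg] at this

lemma IsSl2Gen.two {E H F : S} (h : IsSl2Gen k E H F) : IsSl2Gen k F (-H) E where
  he := by
    have := h.hf
    rw [neg_mul, this]
    noncomm_ring
  hf := by
    have := h.he
    rw [neg_mul, this]
    noncomm_ring
  ef := by
    have := h.ef
    rw [this]
    abel
  adj := by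
    rw [eq_top_iff, ← h.adj]
    apply Algebra.adjoin_le
    intro z hz
    simp only [Set.mem_insert_iff, Set.mem_singleton_iff] at hz
    rcases hz with rfl | rfl | rfl
    · exact Algebra.subset_adjoin (by simp)
    · have h1 : -z ∈ Algebra.adjoin k ({F, -z, E} : Set S) := Algebra.subset_adjoin (by simp)
      have h2 := Subalgebra.neg_mem _ h1
      rwa [neg_neg] at h2
    · exact Algebra.subset_adjoin (by simp)

lemma IsSl2Gen.three {E H F : S} (h : IsSl2Gen k E H F) :
    IsSl2Gen k (F + H - E) (2 * E - H) E where
  he := by
    have h1 := h.he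
    have h2 := h.hf
    have h3 := h.ef
    have e1 : (2 * E - H) * (F + H - E) =
      2 * (E * F) + 2 * (E * H) - 2 * (E * E) - H * F - H * H + H * E := by noncomm_ring
    have e2 : (F + H - E) * (2 * E - H) =
      2 * (F * E) + 2 * (H * E) - 2 * (E * E) - F * H - H * H + E * H := by noncomm_ring
    rw [e1, e2, h1, h2, h3]
    noncomm_ring
  hf := by
    have h1 := h.he
    have e1 : (2 * E - H) * E = 2 * (E * E) - H * E := by noncomm_ring
    rw [e1, h1]
    noncomm_ring
  ef := by
    have h1 := h.he
    have h3 := h.ef
    have e1 : (F + H - E) * E = F * E + H * E - E * E := by noncomm_ring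
    have e2 : E * (F + H - E) = E * F + E * H - E * E := by noncomm_ring
    rw [e1, e2, h1, h3]
    noncomm_ring
  adj := by
    rw [eq_top_iff, ← h.adj]
    apply Algebra.adjoin_le
    have hE : E ∈ Algebra.adjoin k ({F + H - E, 2 * E - H, E} : Set S) :=
      Algebra.subset_adjoin (by simp)
    have h1 : 2 * E - H ∈ Algebra.adjoin k ({F + H - E, 2 * E - H, E} : Set S) :=
      Algebra.subset_adjoin (by simp)
    have h2 : F + H - E ∈ Algebra.adjoin k ({F + H - E, 2 * E - H, E} : Set S) :=
      Algebra.subset_adjoin (by simp)
    have hH : H ∈ Algebra.adjoin k ({F + H - E, 2 * E - H, E} : Set S) := by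
      have h3 : H = (E + E) - (2 * E - H) := by noncomm_ring
      have h4 := Subalgebra.sub_mem _ (Subalgebra.add_mem _ hE hE) h1
      rwa [← h3] at h4
    have hF : F ∈ Algebra.adjoin k ({F + H - E, 2 * E - H, E} : Set S) := by
      have h3 : F = (F + H - E) - H + E := by noncomm_ring
      have h4 := Subalgebra.add_mem _ (Subalgebra.sub_mem _ h2 hH) hE
      rwa [← h3] at h4
    intro z hz
    simp only [Set.mem_insert_iff, Set.mem_singleton_iff] at hz
    rcases hz with rfl | rfl | rfl
    · exact hE
    · exact hH
    · exact hF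

lemma IsSl2Gen.adNil {E H F : S} (h : IsSl2Gen k E H F) :
    ∀ g ∈ ({E, H, F} : Set S), ∃ n, AdNil E n g := by
  intro g hg
  simp only [Set.mem_insert_iff, Set.mem_singleton_iff] at hg
  have h1 := h.he
  have h3 := h.ef
  rcases hg with rfl | rfl | rfl
  · refine ⟨1, ?_⟩
    show g * g - g * g = 0
    rw [sub_self]
  · refine ⟨2, ?_⟩
    show E * (E * g - g * E) - (E * g - g * E) * E = 0
    rw [h1]
    noncomm_ring
  · refine ⟨3, ?_⟩
    show E * (E * (E * g - g * E) - (E * g - g * E) * E) -
      (E * (E * g - g * E) - (E * g - g * E) * E) * E = 0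
    rw [h3]
    have e1 : g * E + H - g * E = H := by abel
    rw [e1, h1]
    noncomm_ring

lemma isNoetherianRing_of_closure_eq_top {B : Type u} [Ring B] {G : Set B}
    (h : IsNoetherianRing (Subring.closure G)) (hG : Subring.closure G = ⊤) :
    IsNoetherianRing B := by
  have e : Subring.closure G ≃+* B :=
    (RingEquiv.subringCongr hG).trans Subring.topEquiv
  exact isNoetherianRing_of_ringEquiv _ e

lemma isNoetherianRing_closure_range : IsNoetherianRing
    (Subring.closure (Set.range (algebraMap k S))) := by
  have h1 : Subring.closure (Set.range (algebraMap k S)) = (algebraMap k S).range := by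
    have h2 : Set.range (algebraMap k S) = ((algebraMap k S).range : Set S) := by
      rw [RingHom.coe_range]
    rw [h2, Subring.closure_eq]
  rw [h1]
  exact isNoetherianRing_of_surjective k _ (algebraMap k S).rangeRestrict
    (algebraMap k S).rangeRestrict_surjective

theorem IsSl2Gen.isNoetherianRing {E H F : S} (h : IsSl2Gen k E H F) : IsNoetherianRing S := by
  have hE := h.he
  have hF := h.hf
  have hEF := h.ef
  set G0 : Set S := Set.range (algebraMap k S) with hG0
  have n0 : IsNoetherianRing (Subring.closure G0) := isNoetherianRing_closure_range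
  have n1 : IsNoetherianRing (Subring.closure (insert E G0)) := by
    apply Ore.isNoetherianRing_closure_insert G0 E n0
    · rintro _ ⟨c, rfl⟩
      exact ⟨_, Subring.subset_closure ⟨c, rfl⟩, 0, Subring.zero_mem _, by
        rw [Algebra.commutes, add_zero]⟩
    · rintro _ ⟨c, rfl⟩
      exact ⟨_, Subring.subset_closure ⟨c, rfl⟩, 0, Subring.zero_mem _, by
        rw [Algebra.commutes, add_zero]⟩
  have n2 : IsNoetherianRing (Subring.closure (insert H (insert E G0))) := by
    have hEm : E ∈ Subring.closure (insert E G0) := Subring.subset_closure (by simp)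
    apply Ore.isNoetherianRing_closure_insert (insert E G0) H n1
    · rintro g (rfl | ⟨c, rfl⟩)
      · exact ⟨g, hEm, 2 * g, by rw [two_mul]; exact Subring.add_mem _ hEm hEm, by
          rw [hE]⟩
      · exact ⟨_, Subring.subset_closure (Or.inr ⟨c, rfl⟩), 0, Subring.zero_mem _, by
          rw [Algebra.commutes, add_zero]⟩
    · rintro g (rfl | ⟨c, rfl⟩)
      · exact ⟨g, hEm, -(2 * g), by
          rw [two_mul]; exact Subring.neg_mem _ (Subring.add_mem _ hEm hEm), by
          rw [hE]
          noncomm_ring⟩
      · exact ⟨_, Subring.subset_closure (Or.inr ⟨c, rfl⟩), 0, Subring.zero_mem _, by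
          rw [Algebra.commutes, add_zero]⟩
  have n3 : IsNoetherianRing (Subring.closure (insert F (insert H (insert E G0)))) := by
    have hEm : E ∈ Subring.closure (insert H (insert E G0)) := Subring.subset_closure (by simp)
    have hHm : H ∈ Subring.closure (insert H (insert E G0)) := Subring.subset_closure (by simp)
    have h2m : (2 : S) ∈ Subring.closure (insert H (insert E G0)) := by
      have := Subring.add_mem (Subring.closure (insert H (insert E G0)))
        (Subring.one_mem _) (Subring.one_mem _)
      rwa [one_add_one_eq_two] at this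
    apply Ore.isNoetherianRing_closure_insert (insert H (insert E G0)) F n2
    · rintro g (rfl | rfl | ⟨c, rfl⟩)
      · exact ⟨g + 2, Subring.add_mem _ hHm h2m, 0, Subring.zero_mem _, by
          rw [add_mul, hF]
          noncomm_ring⟩
      · exact ⟨g, hEm, -H, Subring.neg_mem _ hHm, by
          rw [hEF]
          abel⟩
      · exact ⟨_, Subring.subset_closure (Or.inr (Or.inr ⟨c, rfl⟩)), 0, Subring.zero_mem _, by
          rw [Algebra.commutes, add_zero]⟩
    · rintro g (rfl | rfl | ⟨c, rfl⟩)
      · exact ⟨g - 2, Subring.sub_mem _ hHm h2m, 0, Subring.zero_mem _, by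
          rw [hF]
          noncomm_ring⟩
      · exact ⟨g, hEm, H, hHm, by
          rw [hEF]⟩
      · exact ⟨_, Subring.subset_closure (Or.inr (Or.inr ⟨c, rfl⟩)), 0, Subring.zero_mem _, by
          rw [Algebra.commutes, add_zero]⟩
  refine isNoetherianRing_of_closure_eq_top n3 ?_
  have h1 := Algebra.adjoin_eq_ring_closure (R := k) ({E, H, F} : Set S)
  rw [h.adj] at h1
  have h2 : (⊤ : Subalgebra k S).toSubring = ⊤ := Algebra.top_toSubring
  rw [eq_top_iff, ← h2, h1]
  apply Subring.closure_mono
  intro z hz
  rcases hz with hz | rfl | rfl | rfl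
  · exact Or.inr (Or.inr (Or.inr hz))
  · simp
  · simp
  · simp

end

end Pool.Agent.Work.MP_883c56_al
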