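import Pool.Agent.Work.MP_883c56_al.AlgCompact

set_option autoImplicit false
set_option linter.unusedSectionVars false
set_option linter.style.haveILetI false

universe u

/-!
The tower `Y`: the generators of `M` are made infinitely `u`-divisible.
-/

namespace Pool.Agent.Work.MP_883c56_al

open Finset

variable {S : Type u} [Ring S] {n : ℕ} {M : Type u} [AddCommGroup M] [Module S M]
  (u : S) (m : Fin n → M)

/-- The relations of the tower. -/
noncomputable def towerRel : Submodule S (M × ((Fin n × ℕ) →₀ S)) :=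
  Submodule.span S
    (Set.range (fun g : Fin n => (m g, -Finsupp.single (g, 0) (1 : S))) ∪
     Set.range (fun p : Fin n × ℕ =>
      ((0 : M), Finsupp.single p (1 : S) - Finsupp.single (p.1, p.2 + 1) u)))

/-- The tower. -/
abbrev Tower : Type u := (M × ((Fin n × ℕ) →₀ S)) ⧸ towerRel u m

/-- The map from `M` to the tower. -/
noncomputable def Tower.ofM : M →ₗ[S] Tower u m :=
  (towerRel u m).mkQ ∘ₗ LinearMap.inl S M ((Fin n × ℕ) →₀ S)

/-- The new elements. -/
noncomputable def Tower.w (p : Fin n × ℕ) : Tower u m := (towerRel u m).mkQ (0, Finsupp.single p 1)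

lemma Tower.ofM_gen (g : Fin n) : Tower.ofM u m (m g) = Tower.w u m (g, 0) := by
  show (towerRel u m).mkQ (m g, 0) = (towerRel u m).mkQ (0, Finsupp.single (g, 0) 1)
  rw [← sub_eq_zero, ← map_sub, Submodule.mkQ_apply, Submodule.Quotient.mk_eq_zero]
  apply Submodule.subset_span
  left
  refine ⟨g, ?_⟩
  ext <;> simp

lemma Tower.w_eq (p : Fin n × ℕ) : Tower.w u m p = u • Tower.w u m (p.1, p.2 + 1) := by
  show (towerRel u m).mkQ (0, Finsupp.single p 1) =
    u • (towerRel u m).mkQ (0, Finsupp.single (p.1, p.2 + 1) 1)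
  rw [← map_smul, ← sub_eq_zero, ← map_sub, Submodule.mkQ_apply, Submodule.Quotient.mk_eq_zero]
  apply Submodule.subset_span
  right
  refine ⟨p, ?_⟩
  simp

lemma Tower.w_eq_pow (p : Fin n × ℕ) (K : ℕ) :
    Tower.w u m p = u ^ K • Tower.w u m (p.1, p.2 + K) := by
  induction K with
  | zero => simp
  | succ K ih =>
    rw [ih, pow_succ, mul_smul, Tower.w_eq u m (p.1, p.2 + K)]
    rfl

/-- `u` acts surjectively on the tower. -/
theorem Tower.surj (hm : Submodule.span S (Set.range m) = ⊤)
    (hO : ∀ s : S, ∃ (K : ℕ) (s' : S), s * u ^ K = u * s') (y : Tower u m) :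
    ∃ y' : Tower u m, u • y' = y := by
  have hadd : ∀ a b : Tower u m, (∃ a', u • a' = a) → (∃ b', u • b' = b) →
      ∃ c, u • c = a + b := by
    rintro a b ⟨a', ha⟩ ⟨b', hb⟩
    exact ⟨a' + b', by rw [smul_add, ha, hb]⟩
  have hw : ∀ (s : S) (p : Fin n × ℕ), ∃ y', u • y' = s • Tower.w u m p := by
    intro s p
    obtain ⟨K, s', hs⟩ := hO s
    refine ⟨s' • Tower.w u m (p.1, p.2 + K), ?_⟩
    rw [← mul_smul, ← hs, mul_smul, ← Tower.w_eq_pow]
  obtain ⟨⟨a, f⟩, rfl⟩ := (towerRel u m).mkQ_surjective y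
  have h1 : (towerRel u m).mkQ (a, f) = Tower.ofM u m a + (towerRel u m).mkQ (0, f) := by
    show _ = (towerRel u m).mkQ (a, 0) + _
    rw [← map_add]
    simp
  rw [h1]
  apply hadd
  · have ha : a ∈ Submodule.span S (Set.range m) := by rw [hm]; trivial
    obtain ⟨c, hc⟩ := (Submodule.mem_span_range_iff_exists_fun S).mp ha
    rw [← hc, map_sum]
    have h2 : ∀ s : Finset (Fin n), ∃ y', u • y' = ∑ i ∈ s, Tower.ofM u m (c i • m i) := by
      intro s
      induction s using Finset.induction_on with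
      | empty => exact ⟨0, by simp⟩
      | insert i s hi ih =>
        rw [Finset.sum_insert hi]
        apply hadd _ _ _ ih
        rw [map_smul, Tower.ofM_gen]
        exact hw _ _
    exact h2 _
  · induction f using Finsupp.induction_linear with
    | zero => exact ⟨0, by rw [smul_zero, ← Prod.zero_eq_mk, map_zero]⟩
    | add f g hf hg =>
      have h2 : (towerRel u m).mkQ ((0 : M), f + g) =
          (towerRel u m).mkQ (0, f) + (towerRel u m).mkQ (0, g) := by
        rw [← map_add]
        simp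
      rw [h2]
      exact hadd _ _ (hf (by
        show _ = (towerRel u m).mkQ (a, 0) + _
        rw [← map_add]
        simp)) (hg (by
        show _ = (towerRel u m).mkQ (a, 0) + _
        rw [← map_add]
        simp))
    | single p s =>
      have h2 : (towerRel u m).mkQ ((0 : M), Finsupp.single p s) = s • Tower.w u m p := by
        show _ = s • (towerRel u m).mkQ (0, Finsupp.single p 1)
        rw [← map_smul]
        simp
      rw [h2]
      exact hw s p

/-- The reduction maps. -/
noncomputable def towerRed (I : ℕ) : (M × ((Fin n × ℕ) →₀ S)) →ₗ[S] (M × (Fin n → S)) :=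
  LinearMap.prodMap LinearMap.id
    (Finsupp.linearCombination S (fun p : Fin n × ℕ => (Pi.single p.1 (u ^ (I - p.2)) : Fin n → S)))

lemma towerRed_rel {r : M × ((Fin n × ℕ) →₀ S)} (hr : r ∈ towerRel u m) :
    ∃ I₀ : ℕ, ∀ I ≥ I₀, ∃ t : Fin n → S,
      towerRed u I r = (∑ g, t g • m g, fun g => -(t g * u ^ I)) := by
  classical
  induction hr using Submodule.span_induction with
  | mem r hr =>
    rcases hr with ⟨g, rfl⟩ | ⟨p, rfl⟩
    · refine ⟨0, fun I _ => ⟨Pi.single g 1, ?_⟩⟩
      ext g'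
      · show m g = _
        rw [Finset.sum_eq_single g]
        · simp
        · intro b _ hb
          simp [hb]
        · simp
      · show (Finsupp.linearCombination S (fun p : Fin n × ℕ =>
          (Pi.single p.1 (u ^ (I - p.2)) : Fin n → S)) (-Finsupp.single (g, 0) (1 : S))) g' = _
        rw [map_neg, Finsupp.linearCombination_single]
        by_cases h : g' = g
        · subst h
          simp
        · simp [h]
    · refine ⟨p.2 + 1, fun I hI => ⟨0, ?_⟩⟩
      ext g'
      · show (0 : M) = _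
        simp
      · show (Finsupp.linearCombination S (fun p : Fin n × ℕ =>
          (Pi.single p.1 (u ^ (I - p.2)) : Fin n → S))
            (Finsupp.single p (1 : S) - Finsupp.single (p.1, p.2 + 1) u)) g' = _
        rw [map_sub, Finsupp.linearCombination_single, Finsupp.linearCombination_single]
        have h1 : I - p.2 = (I - (p.2 + 1)) + 1 := by omega
        by_cases h : g' = p.1
        · subst h
          simp [h1, pow_succ']
        · simp [h]
  | zero => exact ⟨0, fun I _ => ⟨0, by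
      rw [map_zero]
      ext <;> simp⟩⟩
  | add a b _ _ ha hb =>
    obtain ⟨I₁, h1⟩ := ha
    obtain ⟨I₂, h2⟩ := hb
    refine ⟨max I₁ I₂, fun I hI => ?_⟩
    obtain ⟨t₁, ht₁⟩ := h1 I (le_trans (le_max_left _ _) hI)
    obtain ⟨t₂, ht₂⟩ := h2 I (le_trans (le_max_right _ _) hI)
    refine ⟨t₁ + t₂, ?_⟩
    rw [map_add, ht₁, ht₂]
    ext g
    · simp [add_smul, Finset.sum_add_distrib]
    · simp [add_mul]
      abel
  | smul s a _ ha =>
    obtain ⟨I₁, h1⟩ := ha
    refine ⟨I₁, fun I hI => ?_⟩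
    obtain ⟨t₁, ht₁⟩ := h1 I hI
    refine ⟨s • t₁, ?_⟩
    rw [map_smul, ht₁]
    ext g
    · simp [mul_smul, Finset.smul_sum]
    · simp [mul_assoc]

/-- The pp formula does not become true in the tower. -/
theorem Tower.holds {Ψ : PP S n}
    (hinj : ∀ t : Fin Ψ.J → S, (∃ s : Fin Ψ.V → S, ∀ j, t j * u = ∑ v, Ψ.B j v * s v) →
      ∃ s : Fin Ψ.V → S, ∀ j, t j = ∑ v, Ψ.B j v * s v)
    (h : Ψ.Holds (Tower u m) (fun g => Tower.ofM u m (m g))) : Ψ.Holds M m := by
  classical
  have hinj' : ∀ (I : ℕ) (t : Fin Ψ.J → S),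
      (∃ s : Fin Ψ.V → S, ∀ j, t j * u ^ I = ∑ v, Ψ.B j v * s v) →
      ∃ s : Fin Ψ.V → S, ∀ j, t j = ∑ v, Ψ.B j v * s v := by
    intro I
    induction I with
    | zero =>
      rintro t ⟨s, hs⟩
      exact ⟨s, fun j => by rw [← hs j, pow_zero, mul_one]⟩
    | succ I ih =>
      rintro t ⟨s, hs⟩
      apply ih
      apply hinj
      exact ⟨s, fun j => by rw [mul_assoc, ← pow_succ]; exact hs j⟩
  obtain ⟨y, hy⟩ := h
  choose y' hy' using fun v => (towerRel u m).mkQ_surjective (y v)
  have hrel : ∀ j, (∑ i, Ψ.A j i • ((m i, 0) : M × ((Fin n × ℕ) →₀ S)) +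
      ∑ v, Ψ.B j v • y' v) ∈ towerRel u m := by
    intro j
    rw [← Submodule.Quotient.mk_eq_zero, ← Submodule.mkQ_apply, ← hy j, map_add, map_sum, map_sum]
    congr 1
    refine Finset.sum_congr rfl fun v _ => ?_
    rw [map_smul, hy']
  choose I₀ hI₀ using fun j => towerRed_rel u m (hrel j)
  set I := ∑ j, I₀ j with hI
  have hle : ∀ j, I₀ j ≤ I := fun j =>
    Finset.single_le_sum (f := I₀) (fun _ _ => Nat.zero_le _) (Finset.mem_univ j)
  choose t ht using fun j => hI₀ j I (hle j)
  have e1 : ∀ j, ∑ i, Ψ.A j i • m i + ∑ v, Ψ.B j v • (y' v).1 = ∑ g, t j g • m g := by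
    intro j
    have := congrArg Prod.fst (ht j)
    dsimp only at this
    rw [← this]
    show _ = (∑ i, Ψ.A j i • ((m i, 0) : M × ((Fin n × ℕ) →₀ S)) + ∑ v, Ψ.B j v • y' v).1
    rw [Prod.fst_add, Prod.fst_sum, Prod.fst_sum]
    rfl
  have e2 : ∀ j g, ∑ v, Ψ.B j v * (towerRed u I (y' v)).2 g = -(t j g * u ^ I) := by
    intro j g
    have h1 := congrArg Prod.snd (ht j)
    have h2 := congrFun h1 g
    dsimp only at h2
    rw [← h2, map_add, map_sum, map_sum, Prod.snd_add, Prod.snd_sum, Prod.snd_sum]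
    have h3 : ∑ c, (towerRed u I (Ψ.A j c • ((m c, 0) : M × ((Fin n × ℕ) →₀ S)))).2 = 0 := by
      apply Finset.sum_eq_zero
      intro c _
      show (Finsupp.linearCombination S (fun p : Fin n × ℕ =>
        (Pi.single p.1 (u ^ (I - p.2)) : Fin n → S))) (Ψ.A j c • (0 : (Fin n × ℕ) →₀ S)) = 0
      rw [smul_zero, map_zero]
    rw [h3, zero_add, Finset.sum_apply]
    refine Finset.sum_congr rfl fun v _ => ?_
    rw [map_smul]
    rfl
  have e3 : ∀ g, ∃ s : Fin Ψ.V → S, ∀ j, t j g = ∑ v, Ψ.B j v * s v := by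
    intro g
    apply hinj' I
    refine ⟨fun v => -(towerRed u I (y' v)).2 g, fun j => ?_⟩
    simp only [mul_neg, Finset.sum_neg_distrib]
    rw [e2, neg_neg]
  choose r hr using e3
  refine ⟨fun v => (y' v).1 - ∑ g, r g v • m g, fun j => ?_⟩
  simp only [smul_sub, Finset.sum_sub_distrib]
  rw [← add_sub_assoc, e1 j, sub_eq_zero]
  simp only [Finset.smul_sum]
  rw [Finset.sum_comm]
  refine Finset.sum_congr rfl fun g _ => ?_
  rw [hr g j, Finset.sum_smul]
  refine Finset.sum_congr rfl fun v _ => ?_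
  rw [mul_smul]

end Pool.Agent.Work.MP_883c56_al
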