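import Pool.Agent.Work.MP_883c56_al.FiniteDim

set_option autoImplicit false
set_option linter.unusedSectionVars false
set_option linter.style.haveILetI false

universe u

namespace Pool.Agent.Work.MP_883c56_al

attribute [local instance 100] LieRing.ofAssociativeRing

/-- The enveloping algebra is generated by the Lie algebra. -/
lemma adjoin_range_ι (k L : Type u) [Field k] [LieRing L] [LieAlgebra k L] :
    Algebra.adjoin k (Set.range (UniversalEnvelopingAlgebra.ι k : L → UniversalEnvelopingAlgebra k L)) =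
      ⊤ := by
  let A := Algebra.adjoin k
    (Set.range (UniversalEnvelopingAlgebra.ι k : L → UniversalEnvelopingAlgebra k L))
  let f : L →ₗ⁅k⁆ A :=
    { toFun := fun x => ⟨UniversalEnvelopingAlgebra.ι k x, Algebra.subset_adjoin ⟨x, rfl⟩⟩
      map_add' := fun x y => Subtype.ext (map_add _ x y)
      map_smul' := fun c x => Subtype.ext (map_smul _ c x)
      map_lie' := by
        intro x y
        apply Subtype.ext
        show UniversalEnvelopingAlgebra.ι k ⁅x, y⁆ = _
        rw [LieHom.map_lie]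
        rfl }
  have h : (A.val.comp (UniversalEnvelopingAlgebra.lift k f)) = AlgHom.id k _ := by
    ext x
    show ((UniversalEnvelopingAlgebra.lift k f (UniversalEnvelopingAlgebra.ι k x) : A) :
      UniversalEnvelopingAlgebra k L) = UniversalEnvelopingAlgebra.ι k x
    rw [UniversalEnvelopingAlgebra.lift_ι_apply]
    rfl
  rw [eq_top_iff]
  intro u _
  have h1 := AlgHom.congr_fun h u
  rw [AlgHom.id_apply] at h1
  rw [← h1]
  exact (UniversalEnvelopingAlgebra.lift k f u).2

/-- Generators of `U(L)ᵐᵒᵖ` for a finite-dimensional Lie algebra `L`. -/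
lemma adjoin_range_op (k L : Type u) [Field k] [LieRing L] [LieAlgebra k L]
    {n : ℕ} (b : Module.Basis (Fin n) k L) :
    Algebra.adjoin k (Set.range (fun i => MulOpposite.op (UniversalEnvelopingAlgebra.ι k (b i)) :
      Fin n → (UniversalEnvelopingAlgebra k L)ᵐᵒᵖ)) = ⊤ := by
  have h1 : Algebra.adjoin k (Set.range (fun i => UniversalEnvelopingAlgebra.ι k (b i))) =
      (⊤ : Subalgebra k (UniversalEnvelopingAlgebra k L)) := by
    rw [eq_top_iff, ← adjoin_range_ι k L]
    apply Algebra.adjoin_le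
    rintro _ ⟨x, rfl⟩
    rw [← b.sum_repr x]
    rw [map_sum]
    refine Subalgebra.sum_mem _ fun i _ => ?_
    rw [map_smul]
    have h2 : UniversalEnvelopingAlgebra.ι k (b i) ∈
        Algebra.adjoin k (Set.range (fun i => UniversalEnvelopingAlgebra.ι k (b i))) :=
      Algebra.subset_adjoin ⟨i, rfl⟩
    exact Subalgebra.smul_mem _ h2 _
  have h2 := congrArg Subalgebra.op h1
  rw [Subalgebra.op_adjoin, Subalgebra.op_top] at h2
  rw [← h2]
  congr 1
  ext x
  constructor
  · rintro ⟨i, rfl⟩
    exact ⟨i, rfl⟩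
  · rintro ⟨i, hi⟩
    exact ⟨i, by rw [show x = MulOpposite.op x.unop from rfl, ← hi]⟩

section hull

variable {S M H : Type u} [Ring S] [AddCommGroup M] [Module S M] [AddCommGroup H] [Module S H]

lemma isPure_id : IsPure (LinearMap.id : M →ₗ[S] M) :=
  ⟨fun _ _ h => h, fun _ _ _ _ ⟨y, hy⟩ => ⟨y, hy⟩⟩

lemma isPureInjectiveHull_id (h : IsPureInjective S M) :
    IsPureInjectiveHull (LinearMap.id : M →ₗ[S] M) :=
  ⟨isPure_id, h, fun _ _ _ _ hf => hf⟩

/-- A pure-injective hull of a pure-injective module is an isomorphism. -/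
lemma bijective_of_hull (h : IsPureInjective S M) {i : M →ₗ[S] H} (hi : IsPureInjectiveHull i) :
    Function.Bijective i := by
  obtain ⟨r, hr⟩ := h M H i hi.1 LinearMap.id
  have h1 : IsPure r := hi.2.2 M r (by rw [hr]; exact isPure_id)
  refine ⟨hi.1.1, fun y => ⟨r y, h1.1 ?_⟩⟩
  exact LinearMap.congr_fun hr (r y)

lemma isIndec_congr (e : M ≃ₗ[S] H) (h : IsIndec S M) : IsIndec S H := by
  obtain ⟨h1, h2⟩ := h
  refine ⟨e.symm.toEquiv.nontrivial, fun p q hpq => ?_⟩
  have h3 : IsCompl (p.comap (e : M →ₗ[S] H)) (q.comap (e : M →ₗ[S] H)) := by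
    constructor
    · rw [Submodule.disjoint_def]
      intro x hx hy
      have := Submodule.disjoint_def.mp hpq.1 (e x) hx hy
      simpa using this
    · rw [codisjoint_iff, eq_top_iff]
      intro x _
      have h4 : e x ∈ p ⊔ q := by rw [codisjoint_iff.mp hpq.2]; trivial
      obtain ⟨y, hy, z, hz, hyz⟩ := Submodule.mem_sup.mp h4
      rw [Submodule.mem_sup]
      refine ⟨e.symm y, ?_, e.symm z, ?_, ?_⟩
      · rw [Submodule.mem_comap]; simpa using hy
      · rw [Submodule.mem_comap]; simpa using hz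
      · rw [← map_add, hyz]; simp
  have h5 : ∀ p : Submodule S H, p.comap (e : M →ₗ[S] H) = ⊥ → p = ⊥ := by
    intro p hp
    rw [eq_bot_iff]
    intro x hx
    have h6 : e.symm x ∈ p.comap (e : M →ₗ[S] H) := by
      rw [Submodule.mem_comap]; simpa using hx
    rw [hp, Submodule.mem_bot] at h6
    simpa using h6
  rcases h2 _ _ h3 with h | h
  · exact Or.inl (h5 _ h)
  · exact Or.inr (h5 _ h)

lemma isPureInjective_congr (e : M ≃ₗ[S] H) (h : IsPureInjective S M) : IsPureInjective S H := by
  intro A B _ _ _ _ f hf g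
  obtain ⟨G, hG⟩ := h A B f hf ((e.symm : H →ₗ[S] M) ∘ₗ g)
  refine ⟨(e : M →ₗ[S] H) ∘ₗ G, ?_⟩
  ext a
  have h1 := LinearMap.congr_fun hG a
  simp only [LinearMap.comp_apply, LinearEquiv.coe_coe] at h1 ⊢
  rw [h1]; simp

end hull

/-- The point of an indecomposable finite-dimensional module over a finitely generated algebra
over a field of characteristic zero is isolated. -/
theorem isOpen_singleton_of_finite {k S : Type u} [Field k] [CharZero k] [Ring S] [Algebra k S]
    {n : ℕ} (g : Fin n → S) (hg : Algebra.adjoin k (Set.range g) = ⊤)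
    {M : Type u} [AddCommGroup M] [Module S M] [Module k M] [IsScalarTower k S M]
    [FiniteDimensional k M] (h : IsIndec S M) (h' : IsPureInjective S M) :
    IsOpen ({Zg.mk M h h'} : Set (Zg S)) := by
  obtain ⟨φ, ψ, h1, h2, h3⟩ := exists_isolating_pair g hg h (Module.finBasis k M)
  apply TopologicalSpace.isOpen_generateFrom_of_mem
  refine ⟨φ, ψ, h1, ?_⟩
  ext p
  constructor
  · rintro rfl
    exact ⟨⟨M, h, h'⟩, rfl, h2⟩
  · rintro ⟨N, rfl, hN⟩
    exact Quotient.sound (h3 N.carrier N.indec hN)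

end Pool.Agent.Work.MP_883c56_al
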